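import Pool.Agent.Helper32.TU.RsCard

/-!
# TU-15: simple bounds from the degrees

`w3 G u c = ∑ a ∈ (nb c).erase u, ∑ b ∈ (nb a).erase c, (dg b - 1)`.
`w3_ge`: `card ((nb c).erase u) = dg c - 1 >= δ - 1` (`u ∈ nb c`), `card ((nb a).erase c) = dg a - 1 >= δ - 1` (`c ∈ nb a`), `dg b - 1 >= δ - 1`.
`w3_le`: cards of the erased sets are `<= D`. `cs_card_le`: `Cs v ⊆ (nb v).biUnion (fun u => (nb u).erase v)`, card `<= D * D`.
`cs_card_ge`: the union is disjoint by `hG.two`, each `(nb u).erase v` has `>= δ - 1` elements, `dg v >= δ` sets.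
`rs_card_le`: `Rs v c` is contained in the union over `a ∈ nb c`, `b ∈ nb a` of `nb b`: `<= D^3`.
`rs_card_ge`: for `c ∈ Cs v`: `rs_card` and `w3_ge`.
-/

set_option autoImplicit false

namespace Pool.Agent.Helper32.TU

open Finset

variable {V : Type} [Fintype V]

theorem w3_ge (G : SimpleGraph V) {δ : ℕ} (h : ∀ x, δ ≤ dg G x) {u c : V} (huc : G.Adj u c) :
    (δ - 1) ^ 3 ≤ w3 G u c := by
  classical
  have hc : ∀ x y : V, G.Adj x y → δ - 1 ≤ ((nb G x).erase y).card := by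
    intro x y hxy
    rw [Finset.card_erase_of_mem ((mem_nb G x y).2 hxy)]
    exact Nat.sub_le_sub_right (h x) 1
  have h2 : ∀ a ∈ (nb G c).erase u, (δ - 1) * (δ - 1) ≤ ∑ b ∈ (nb G a).erase c, (dg G b - 1) := by
    intro a ha
    have hca : G.Adj c a := (mem_nb G c a).1 (Finset.mem_of_mem_erase ha)
    have h3 := Finset.card_nsmul_le_sum ((nb G a).erase c) (fun b => dg G b - 1) (δ - 1)
      (fun b _ => Nat.sub_le_sub_right (h b) 1)
    rw [smul_eq_mul] at h3
    exact (Nat.mul_le_mul_right _ (hc a c hca.symm)).trans h3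
  have h3 := Finset.card_nsmul_le_sum ((nb G c).erase u) _ _ h2
  rw [smul_eq_mul] at h3
  calc (δ - 1) ^ 3 = (δ - 1) * ((δ - 1) * (δ - 1)) := by ring
    _ ≤ ((nb G c).erase u).card * ((δ - 1) * (δ - 1)) := Nat.mul_le_mul_right _ (hc c u huc.symm)
    _ ≤ w3 G u c := h3

theorem cs_card_le (G : SimpleGraph V) {D : ℕ} (h : ∀ x, dg G x ≤ D) (v : V) : (Cs G v).card ≤ D ^ 2 := by
  classical
  have hsub : Cs G v ⊆ (nb G v).biUnion (fun u => nb G u) := by
    intro c hc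
    rw [Cs, Finset.mem_filter] at hc
    obtain ⟨-, u, h1, h2, -⟩ := hc
    exact Finset.mem_biUnion.2 ⟨u, (mem_nb G v u).2 h1, (mem_nb G u c).2 h2⟩
  refine (Finset.card_le_card hsub).trans (Finset.card_biUnion_le.trans ?_)
  refine (Finset.sum_le_card_nsmul _ _ D fun u _ => h u).trans ?_
  rw [smul_eq_mul, sq]
  exact Nat.mul_le_mul_right _ (h v)

theorem cs_card_ge (G : SimpleGraph V) (hG : Loc G) {δ : ℕ} (h : ∀ x, δ ≤ dg G x) (v : V) :
    δ * (δ - 1) ≤ (Cs G v).card := by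
  classical
  have heq : Cs G v = (nb G v).biUnion (fun u => (nb G u).erase v) := by
    ext c
    rw [Cs, Finset.mem_filter, Finset.mem_biUnion]
    constructor
    · rintro ⟨-, u, h1, h2, h3⟩
      exact ⟨u, (mem_nb G v u).2 h1, Finset.mem_erase.2 ⟨h3, (mem_nb G u c).2 h2⟩⟩
    · rintro ⟨u, h1, h2⟩
      obtain ⟨h3, h4⟩ := Finset.mem_erase.1 h2
      exact ⟨Finset.mem_univ _, u, (mem_nb G v u).1 h1, (mem_nb G u c).1 h4, h3⟩
  rw [heq, Finset.card_biUnion]
  · refine le_trans (Nat.mul_le_mul_right _ (h v)) ?_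
    have h3 := Finset.card_nsmul_le_sum (nb G v) (fun u => ((nb G u).erase v).card) (δ - 1) ?_
    · rw [smul_eq_mul] at h3
      exact h3
    · intro u hu
      have huv : G.Adj u v := ((mem_nb G v u).1 hu).symm
      rw [Finset.card_erase_of_mem ((mem_nb G u v).2 huv)]
      exact Nat.sub_le_sub_right (h u) 1
  · intro u hu u' hu' hne
    show Disjoint ((nb G u).erase v) ((nb G u').erase v)
    rw [Finset.disjoint_left]
    intro c hc hc'
    obtain ⟨h1, h2⟩ := Finset.mem_erase.1 hc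
    obtain ⟨-, h3⟩ := Finset.mem_erase.1 hc'
    exact hne (hG.two v u u' c h1 ((mem_nb G v u).1 hu) ((mem_nb G u c).1 h2)
      ((mem_nb G v u').1 hu') ((mem_nb G u' c).1 h3))

theorem rs_card_le (G : SimpleGraph V) {D : ℕ} (h : ∀ x, dg G x ≤ D) (v c : V) : (Rs G v c).card ≤ D ^ 3 := by
  classical
  have hsub : Rs G v c ⊆ (nb G c).biUnion (fun a => (nb G a).biUnion (fun b => nb G b)) := by
    intro r hr
    rw [Rs, Finset.mem_filter] at hr
    obtain ⟨-, u, a, b, ⟨-, -, -, h1, -, h2, -⟩, h3, -⟩ := hr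
    exact Finset.mem_biUnion.2 ⟨a, (mem_nb G c a).2 h1,
      Finset.mem_biUnion.2 ⟨b, (mem_nb G a b).2 h2, (mem_nb G b r).2 h3⟩⟩
  refine (Finset.card_le_card hsub).trans (Finset.card_biUnion_le.trans ?_)
  have h1 : ∀ a ∈ nb G c, ((nb G a).biUnion (fun b => nb G b)).card ≤ D * D := by
    intro a _
    refine Finset.card_biUnion_le.trans ((Finset.sum_le_card_nsmul _ _ D fun b _ => h b).trans ?_)
    rw [smul_eq_mul]
    exact Nat.mul_le_mul_right _ (h a)
  refine (Finset.sum_le_card_nsmul _ _ _ h1).trans ?_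
  rw [smul_eq_mul]
  calc (nb G c).card * (D * D) ≤ D * (D * D) := Nat.mul_le_mul_right _ (h c)
    _ = D ^ 3 := by ring

theorem rs_card_ge (G : SimpleGraph V) (hG : Loc G) {δ : ℕ} (h : ∀ x, δ ≤ dg G x) {v c : V} (hc : c ∈ Cs G v) :
    (δ - 1) ^ 3 ≤ (Rs G v c).card := by
  classical
  rw [Cs, Finset.mem_filter] at hc
  obtain ⟨-, u, h1, h2, h3⟩ := hc
  rw [rs_card G hG h1 h2 h3]
  exact w3_ge G h h2

end Pool.Agent.Helper32.TU
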