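import Mathlib

/-!
# TU: a Turan exponent 5/4 with a limit (MP_216b57_co). Definitions.

`nb` = non-backtracking. `Is4 G v b u c a`: `v - u - c - a - b` is an nb path (`c ≠ v`, `a ≠ u`, `b ≠ c`).
`Cen G v r c`: `c` is a centre for the root `v` and `r`: there is an nb path `v - u - c - a - b - r` (`r ≠ a`).
-/

set_option autoImplicit false

namespace Pool.Agent.Helper32.TU

open Finset

variable {V : Type}

def Is4 (G : SimpleGraph V) (v b u c a : V) : Prop :=
  G.Adj v u ∧ G.Adj u c ∧ c ≠ v ∧ G.Adj c a ∧ a ≠ u ∧ G.Adj a b ∧ b ≠ c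

/-- at least three nb 4-paths from `v` to `b` -/
def Heavy (G : SimpleGraph V) (v b : V) : Prop :=
  ∃ f : Fin 3 → V × V × V, Function.Injective f ∧ ∀ i, Is4 G v b (f i).1 (f i).2.1 (f i).2.2

def Cen (G : SimpleGraph V) (v r c : V) : Prop :=
  ∃ u a b, Is4 G v b u c a ∧ G.Adj b r ∧ r ≠ a

/-- at least four common centres -/
def Bad (G : SimpleGraph V) (v r r' : V) : Prop :=
  ∃ f : Fin 4 → V, Function.Injective f ∧ ∀ i, Cen G v r (f i) ∧ Cen G v r' (f i)

/-- at least three bad partners -/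
def Zed (G : SimpleGraph V) (v r : V) : Prop :=
  ∃ g : Fin 3 → V, Function.Injective g ∧ ∀ j, g j ≠ r ∧ Bad G v r (g j)

/-- the local properties of the host used in the upper bound -/
structure Loc (G : SimpleGraph V) : Prop where
  odd : ∀ v w r u c a b u' c' a' b', G.Adj v w →
    G.Adj v u → G.Adj u c → G.Adj c a → G.Adj a b → G.Adj b r →
    G.Adj w u' → G.Adj u' c' → G.Adj c' a' → G.Adj a' b' → G.Adj b' r → False
  two : ∀ v u u' c, c ≠ v → G.Adj v u → G.Adj u c → G.Adj v u' → G.Adj u' c → u = u'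
  three : ∀ c a b r a' b', G.Adj c a → G.Adj a b → b ≠ c → G.Adj b r → r ≠ a →
    G.Adj c a' → G.Adj a' b' → b' ≠ c → G.Adj b' r → r ≠ a' → a = a' ∧ b = b'
  heavy : ∀ v u c a b b', Is4 G v b u c a → Is4 G v b' u c a → b ≠ b' →
    Heavy G v b → Heavy G v b' → False
  zed : ∀ v u c a b b' r₁ r₂ r₁' r₂', Is4 G v b u c a → Is4 G v b' u c a → b ≠ b' →
    r₁ ≠ r₂ → r₁' ≠ r₂' → G.Adj b r₁ → r₁ ≠ a → G.Adj b r₂ → r₂ ≠ a →
    G.Adj b' r₁' → r₁' ≠ a → G.Adj b' r₂' → r₂' ≠ a →
    Zed G v r₁ → Zed G v r₂ → Zed G v r₁' → Zed G v r₂' → False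

/-- incidence of the host: `p = (t; b₁, b₂, b₃)`, `r = (R₀, R₁, R₂, R₃)`, `Rᵢ = bᵢ + tⁱ R₀` -/
def Inc {F : Type} [Field F] (p r : F × F × F × F) : Prop :=
  r.2.1 = p.2.1 + p.1 * r.1 ∧ r.2.2.1 = p.2.2.1 + p.1 ^ 2 * r.1 ∧ r.2.2.2 = p.2.2.2 + p.1 ^ 3 * r.1

/-- vertices of the host: `Sum.inl p` (lines, direction `p.1`), `Sum.inr r` (points) -/
abbrev WV (F : Type) : Type := (F × F × F × F) ⊕ (F × F × F × F)

/-- the host `W(F)` -/
def W (F : Type) [Field F] : SimpleGraph (WV F) where
  Adj x y := match x, y with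
    | Sum.inl p, Sum.inr r => Inc p r
    | Sum.inr r, Sum.inl p => Inc p r
    | _, _ => False
  symm := ⟨by
    rintro (p | r) (p' | r') h
    · exact h.elim
    · exact h
    · exact h
    · exact h.elim⟩
  loopless := ⟨by
    rintro (p | r) h
    · exact h
    · exact h⟩

/-! finite graphs -/

section Fin

open scoped Classical in
/-- the neighbours of `x` -/
noncomputable def nb [Fintype V] (G : SimpleGraph V) (x : V) : Finset V := univ.filter (fun y => G.Adj x y)

/-- the degree -/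
noncomputable def dg [Fintype V] (G : SimpleGraph V) (x : V) : ℕ := (nb G x).card

open scoped Classical in
/-- the centres of `v` -/
noncomputable def Cs [Fintype V] (G : SimpleGraph V) (v : V) : Finset V :=
  univ.filter (fun c => ∃ u, G.Adj v u ∧ G.Adj u c ∧ c ≠ v)

open scoped Classical in
/-- the `r` with centre `c` -/
noncomputable def Rs [Fintype V] (G : SimpleGraph V) (v c : V) : Finset V := univ.filter (fun r => Cen G v r c)

open scoped Classical in
/-- the `r` with some centre -/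
noncomputable def Ys [Fintype V] (G : SimpleGraph V) (v : V) : Finset V := univ.filter (fun r => ∃ c, Cen G v r c)

/-- the number of spiders with root `v` -/
noncomputable def Tc [Fintype V] (G : SimpleGraph V) (v : V) : ℕ := ∑ c ∈ Cs G v, (Rs G v c).card ^ 2

open scoped Classical in
/-- the `r` of `Rs v c` which are not `Zed` and are reached through a `b` which is not heavy -/
noncomputable def Rp [Fintype V] (G : SimpleGraph V) (v c : V) : Finset V :=
  univ.filter (fun r => ¬ Zed G v r ∧ ∃ u a b, Is4 G v b u c a ∧ G.Adj b r ∧ r ≠ a ∧ ¬ Heavy G v b)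

open scoped Classical in
/-- the number of nb 3-walks from `c` whose first step is not `u` -/
noncomputable def w3 [Fintype V] (G : SimpleGraph V) (u c : V) : ℕ :=
  ∑ a ∈ (nb G c).erase u, ∑ b ∈ (nb G a).erase c, (dg G b - 1)

open scoped Classical in
/-- the number of pairs of nb 3-walks after an nb 2-walk -/
noncomputable def t2 [Fintype V] (G : SimpleGraph V) (v : V) : ℕ :=
  ∑ u ∈ nb G v, ∑ c ∈ (nb G u).erase v, (w3 G u c) ^ 2

end Fin

/-- `φ` embeds the part of `G` on `U` into `H` -/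
def EmbOn {V W : Type} (G : SimpleGraph V) (H : SimpleGraph W) (U : Finset V) (φ : V → W) : Prop :=
  (∀ x ∈ U, ∀ y ∈ U, G.Adj x y → H.Adj (φ x) (φ y)) ∧ Set.InjOn φ (U : Set V)

/-- the forbidden graphs: graphs on 1000 vertices which are contained in only finitely many hosts -/
def NotHost (F : SimpleGraph (Fin 1000)) : Prop :=
  ∃ q₀ : ℕ, ∀ q : ℕ, q₀ ≤ q → ∀ [Fact q.Prime], ¬ F.IsContained (W (ZMod q))

end Pool.Agent.Helper32.TU
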