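import Pool.Agent.Helper32.TU.Ent

/-!
# TU-25: a good edge

PROOF. Let `D = ∑ x, dg x` (real), `m = D / card V >= 2`. `log_t2` and `phi_jensen`: `∑ v, dg v log (t2 v) >= 8 D log (m - 1)`.
`∑ v, ∑ w ∈ nb v, (log (t2 v) + log (t2 w)) = 2 ∑ v, dg v log (t2 v) >= 16 D log (m - 1) = ∑ v, ∑ w ∈ nb v, 16 log (m - 1)` (`stat_zero`; `∑ v, ∑ w ∈ nb v, 1 = D`).
`V` is nonempty and all degrees are `>= 2`, so there is a directed edge; if `log (t2 v) + log (t2 w) < 16 log (m - 1)` for all directed edges then the sums would be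
strictly ordered (`Finset.sum_lt_sum`..). So there is an edge with `log (t2 v) + log (t2 w) >= 16 log (m - 1)`; exponentiate (`t2 >= 1`, `m - 1 >= 1 > 0`):
`t2 v * t2 w >= (m - 1)^16` (`Real.log_le_log_iff`, `Real.log_mul`, `Real.log_pow`).
-/

set_option autoImplicit false

namespace Pool.Agent.Helper32.TU

open Finset

variable {V : Type} [Fintype V]

private theorem mem_nb' (G : SimpleGraph V) (x y : V) : y ∈ nb G x ↔ G.Adj x y := by
  classical
  unfold nb
  rw [Finset.mem_filter]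
  exact ⟨fun h => h.2, fun h => ⟨Finset.mem_univ _, h⟩⟩

open scoped Classical in
private theorem erase_ne' {s : Finset V} (h : 2 ≤ s.card) (a : V) : (s.erase a).Nonempty := by
  rw [← Finset.card_pos]
  have h1 := Finset.pred_card_le_card_erase (s := s) (a := a)
  omega

private theorem w3_pos' (G : SimpleGraph V) (h : ∀ x, 2 ≤ dg G x) (u c : V) : 0 < w3 G u c := by
  classical
  unfold w3
  refine Finset.sum_pos (fun a _ => Finset.sum_pos (fun b _ => ?_) (erase_ne' (h a) c))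
    (erase_ne' (h c) u)
  have := h b
  omega

private theorem t2_pos' (G : SimpleGraph V) (h : ∀ x, 2 ≤ dg G x) (v : V) : 0 < t2 G v := by
  classical
  unfold t2
  refine Finset.sum_pos (fun u _ => Finset.sum_pos (fun c _ => ?_) (erase_ne' (h u) v)) ?_
  · exact pow_pos (w3_pos' G h u c) 2
  · have h1 := h v
    unfold dg at h1
    rw [← Finset.card_pos]
    omega

theorem edge_exists [Nonempty V] (G : SimpleGraph V) (h : ∀ x, 2 ≤ dg G x) : ∃ v w, G.Adj v w ∧
    ((∑ x, (dg G x : ℝ)) / Fintype.card V - 1) ^ 16 ≤ (t2 G v : ℝ) * (t2 G w : ℝ) := by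
  classical
  by_contra hno
  push Not at hno
  obtain ⟨m, hm⟩ : ∃ m : ℝ, m = (∑ x, (dg G x : ℝ)) / Fintype.card V - 1 := ⟨_, rfl⟩
  have hcard : (0 : ℝ) < Fintype.card V := by exact_mod_cast Fintype.card_pos
  have hm1 : 1 ≤ m := by
    have h1 : (2 : ℝ) * Fintype.card V ≤ ∑ x, (dg G x : ℝ) := by
      have h2 : ∑ _x : V, (2 : ℝ) ≤ ∑ x, (dg G x : ℝ) :=
        Finset.sum_le_sum fun x _ => by exact_mod_cast h x
      rw [Finset.sum_const, nsmul_eq_mul, Finset.card_univ] at h2
      linarith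
    have h3 : (2 : ℝ) ≤ (∑ x, (dg G x : ℝ)) / Fintype.card V := by
      rw [le_div_iff₀ hcard]
      exact h1
    rw [hm]
    linarith
  have hm0 : 0 < m := by linarith
  have hpos : ∀ v, (0 : ℝ) < (t2 G v : ℝ) := fun v => by exact_mod_cast t2_pos' G h v
  have hlog : ∀ v w, G.Adj v w →
      Real.log (t2 G v : ℝ) + Real.log (t2 G w : ℝ) < 16 * Real.log m := by
    intro v w hvw
    have h1 := hno v w hvw
    rw [← hm] at h1
    have h2 := Real.log_lt_log (mul_pos (hpos v) (hpos w)) h1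
    rw [Real.log_mul (hpos v).ne' (hpos w).ne', Real.log_pow] at h2
    exact_mod_cast h2
  have hsum : ∑ v, ∑ w ∈ nb G v, (Real.log (t2 G v : ℝ) + Real.log (t2 G w : ℝ)) <
      ∑ v, ∑ _w ∈ nb G v, 16 * Real.log m := by
    refine Finset.sum_lt_sum_of_nonempty Finset.univ_nonempty fun v _ => ?_
    refine Finset.sum_lt_sum_of_nonempty ?_ fun w hw => hlog v w ((mem_nb' G v w).1 hw)
    have h1 := h v
    unfold dg at h1
    rw [← Finset.card_pos]
    omega
  have hL : ∑ v, ∑ w ∈ nb G v, (Real.log (t2 G v : ℝ) + Real.log (t2 G w : ℝ)) =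
      2 * ∑ v, (dg G v : ℝ) * Real.log (t2 G v : ℝ) := by
    have h1 : ∀ v, ∑ w ∈ nb G v, (Real.log (t2 G v : ℝ) + Real.log (t2 G w : ℝ)) =
        (dg G v : ℝ) * Real.log (t2 G v : ℝ) + ∑ w ∈ nb G v, Real.log (t2 G w : ℝ) := by
      intro v
      rw [Finset.sum_add_distrib, Finset.sum_const, nsmul_eq_mul]
      rfl
    rw [Finset.sum_congr rfl fun v _ => h1 v, Finset.sum_add_distrib, stat_zero]
    ring
  have hR : ∑ v, ∑ _w ∈ nb G v, 16 * Real.log m = 16 * ((∑ x, (dg G x : ℝ)) * Real.log m) := by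
    rw [stat_zero G fun _ => 16 * Real.log m, ← Finset.sum_mul]
    ring
  have h1 := log_t2 G h
  have h2 := phi_jensen (fun x : V => (dg G x : ℝ)) fun x => by exact_mod_cast h x
  rw [← hm] at h2
  rw [hL, hR] at hsum
  linarith

end Pool.Agent.Helper32.TU
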