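import Mathlib

/-!
# TU-22: Jensen for `x log (x - 1)` and for `log`

`phi_convex`: `φ(x) = x log (x - 1)` is convex on `[2, ∞)`: `φ'(x) = log (x - 1) + x / (x - 1)`, `φ''(x) = 1/(x-1) - 1/(x-1)^2 >= 0` for `x >= 2`
(e.g. `convexOn_of_deriv2_nonneg`, or `MonotoneOn.convexOn_of_deriv` with `φ'` monotone; or the sum of `(x-1) log (x-1)` (convex) and ... no: use derivatives).
`phi_jensen`: `ConvexOn.map_sum_le` with weights `1 / card`: `φ(mean d) <= mean φ(d)`, multiply by `card`: `card * mean = ∑ d`.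
`log_jensen`: concavity of `log` on `(0, ∞)` (`strictConcaveOn_log_Ioi.concaveOn.le_map_sum` with weights `1/|s|`):
`(1/|s|) ∑ log (f i) <= log ((1/|s|) ∑ f i) = log (∑ f i) - log |s|`; multiply by `|s|`.
-/

set_option autoImplicit false

namespace Pool.Agent.Helper32.TU

open Finset

theorem phi_convex : ConvexOn ℝ (Set.Ici (2 : ℝ)) (fun x => x * Real.log (x - 1)) := by
  have hd : ∀ x : ℝ, 2 < x → HasDerivAt (fun x : ℝ => x * Real.log (x - 1)) (Real.log (x - 1) + x / (x - 1)) x := by
    intro x hx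
    have h1 : HasDerivAt (fun x : ℝ => x - 1) 1 x := (hasDerivAt_id x).sub_const 1
    have h2 : HasDerivAt (fun x : ℝ => Real.log (x - 1)) (1 / (x - 1)) x := h1.log (by linarith)
    have h3 := (hasDerivAt_id x).mul h2
    refine HasDerivAt.congr_deriv (f := fun x : ℝ => x * Real.log (x - 1)) h3 ?_
    show 1 * Real.log (x - 1) + x * (1 / (x - 1)) = _
    ring
  have hd2 : ∀ x : ℝ, 2 < x → HasDerivAt (fun x : ℝ => Real.log (x - 1) + x / (x - 1)) (1 / (x - 1) + (1 * (x - 1) - x * 1) / (x - 1) ^ 2) x := by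
    intro x hx
    have h1 : HasDerivAt (fun x : ℝ => x - 1) 1 x := (hasDerivAt_id x).sub_const 1
    have h2 : HasDerivAt (fun x : ℝ => Real.log (x - 1)) (1 / (x - 1)) x := h1.log (by linarith)
    have h3 := (hasDerivAt_id x).div h1 (by linarith)
    exact h2.add h3
  apply MonotoneOn.convexOn_of_deriv (convex_Ici 2)
  · apply ContinuousOn.mul continuousOn_id
    apply ContinuousOn.log
    · fun_prop
    · intro x hx
      have : (2:ℝ) ≤ x := hx
      linarith
  · rw [interior_Ici]
    intro x hx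
    exact (hd x hx).differentiableAt.differentiableWithinAt
  · rw [interior_Ici]
    have hm : MonotoneOn (fun x : ℝ => Real.log (x - 1) + x / (x - 1)) (Set.Ioi 2) := by
      apply monotoneOn_of_deriv_nonneg (convex_Ioi 2)
      · intro x hx
        exact (hd2 x hx).continuousAt.continuousWithinAt
      · rw [interior_Ioi]
        intro x hx
        exact (hd2 x hx).differentiableAt.differentiableWithinAt
      · rw [interior_Ioi]
        intro x hx
        rw [(hd2 x hx).deriv]
        have hx' : (2:ℝ) < x := hx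
        have hpos : 0 < x - 1 := by linarith
        have : 1 / (x - 1) + (1 * (x - 1) - x * 1) / (x - 1) ^ 2 = (x - 2) / (x - 1) ^ 2 := by
          field_simp
          ring
        rw [this]
        apply div_nonneg (by linarith) (by positivity)
    intro a ha b hb hab
    rw [(hd a ha).deriv, (hd b hb).deriv]
    exact hm ha hb hab

theorem phi_jensen {ι : Type} [Fintype ι] [Nonempty ι] (d : ι → ℝ) (h : ∀ i, 2 ≤ d i) :
    (∑ i, d i) * Real.log ((∑ i, d i) / Fintype.card ι - 1) ≤ ∑ i, d i * Real.log (d i - 1) := by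
  have hc : (0:ℝ) < Fintype.card ι := by exact_mod_cast Fintype.card_pos
  have hJ := phi_convex.map_sum_le (t := Finset.univ) (w := fun _ : ι => 1 / (Fintype.card ι : ℝ)) (p := d)
    (fun i _ => by positivity) (by simp) (fun i _ => h i)
  simp only [smul_eq_mul] at hJ
  rw [← Finset.mul_sum, ← Finset.mul_sum] at hJ
  have h2 := mul_le_mul_of_nonneg_left hJ hc.le
  have e1 : (Fintype.card ι : ℝ) * (1 / (Fintype.card ι : ℝ) * ∑ i, d i * Real.log (d i - 1)) = ∑ i, d i * Real.log (d i - 1) := by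
    field_simp
  have e2 : 1 / (Fintype.card ι : ℝ) * ∑ i, d i = (∑ i, d i) / Fintype.card ι := by ring
  rw [e1, e2] at h2
  calc (∑ i, d i) * Real.log ((∑ i, d i) / Fintype.card ι - 1)
      = (Fintype.card ι : ℝ) * ((∑ i, d i) / Fintype.card ι * Real.log ((∑ i, d i) / Fintype.card ι - 1)) := by
        field_simp
    _ ≤ _ := h2

theorem log_jensen {ι : Type} (s : Finset ι) (f : ι → ℝ) (hs : s.Nonempty) (h : ∀ i ∈ s, 0 < f i) :
    ∑ i ∈ s, Real.log (f i) + s.card * Real.log s.card ≤ s.card * Real.log (∑ i ∈ s, f i) := by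
  have hc : (0:ℝ) < s.card := by exact_mod_cast hs.card_pos
  have hJ := strictConcaveOn_log_Ioi.concaveOn.le_map_sum (t := s) (w := fun _ : ι => 1 / (s.card : ℝ)) (p := f)
    (fun i _ => by positivity) (by simp [hc.ne']) (fun i hi => h i hi)
  simp only [smul_eq_mul] at hJ
  rw [← Finset.mul_sum, ← Finset.mul_sum] at hJ
  have hpos : 0 < ∑ i ∈ s, f i := Finset.sum_pos h hs
  have e2 : Real.log (1 / (s.card : ℝ) * ∑ i ∈ s, f i) = Real.log (∑ i ∈ s, f i) - Real.log s.card := by
    rw [show 1 / (s.card : ℝ) * ∑ i ∈ s, f i = (∑ i ∈ s, f i) / s.card by ring, Real.log_div hpos.ne' hc.ne']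
  rw [e2] at hJ
  have h2 := mul_le_mul_of_nonneg_left hJ hc.le
  have e1 : (s.card : ℝ) * (1 / (s.card : ℝ) * ∑ i ∈ s, Real.log (f i)) = ∑ i ∈ s, Real.log (f i) := by
    field_simp
  rw [e1] at h2
  linarith

end Pool.Agent.Helper32.TU
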