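import Pool.Agent.Helper32.TU.Stat
import Pool.Agent.Helper32.TU.Phi

/-!
# TU-24: entropy bound for spiders

`w3 u c = ∑ a ∈ (nb c).erase u, ∑ b ∈ (nb a).erase c, (dg b - 1)`, `t2 v = ∑ u ∈ nb v, ∑ c ∈ (nb u).erase v, (w3 u c)^2`. All degrees `>= 2`.
Put `L x = log (dg x - 1)`, `S = ∑ x, dg x * L x`, `E g = ∑ v, ∑ u ∈ nb v, g v u`.

(1) For an edge `c ~ a`: `log (∑ b ∈ (nb a).erase c, (dg b - 1)) >= L a + (dg a - 1)⁻¹ ∑ b ∈ (nb a).erase c, L b` (`log_jensen`, divided by the card `dg a - 1`;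
`dg b - 1 >= 1 > 0`). Call the right side `k c a`.
(2) For an edge `u ~ c`: `log (w3 u c) >= L c + (dg c - 1)⁻¹ ∑ a ∈ (nb c).erase u, log (∑ b ..) >= L c + (dg c - 1)⁻¹ ∑ a ∈ (nb c).erase u, k c a`.
(3) `E (log w3) >= 3 S`: sum (2) over the directed edges `(u, c)`: `stat_zero` gives `∑ u, ∑ c ∈ nb u, L c = S`, `stat_step` gives
`∑ u, ∑ c ∈ nb u, (dg c - 1)⁻¹ ∑ a ∈ (nb c).erase u, k c a = E k`, and `E k = S + ∑ (directed edges (a, b)) L b = S + S` in the same way.
(4) For each `v`: `dg v * log (t2 v) >= dg v * log (dg v) + ∑ u ∈ nb v, log (∑ c ∈ (nb u).erase v, (w3 u c)^2)` (`log_jensen`), and for `u ∈ nb v`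
`log (∑ c .. (w3 u c)^2) >= L u + (dg u - 1)⁻¹ ∑ c ∈ (nb u).erase v, 2 log (w3 u c)`.
(5) Sum over `v`: `∑ v, dg v log (t2 v) >= ∑ v, dg v log (dg v) + S + 2 E (log w3) >= S + S + 6 S` (`log (dg v) >= L v`; `stat_zero`, `stat_step`).
Positivity: `w3 u c >= 1` for an edge `u ~ c` (`(δ-1)^3` with `δ = 2`; or directly: the sums are over nonempty sets of terms `>= 1`), so all the arguments of `log`
are positive.
-/

set_option autoImplicit false

namespace Pool.Agent.Helper32.TU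

open Finset

variable {V : Type} [Fintype V]

theorem ent_log_jensen {ι : Type} (s : Finset ι) (f : ι → ℝ) (n : ℝ) (hn : (s.card : ℝ) = n) (hn0 : 0 < n)
    (h : ∀ i ∈ s, 0 < f i) :
    Real.log n + n⁻¹ * ∑ i ∈ s, Real.log (f i) ≤ Real.log (∑ i ∈ s, f i) := by
  have hs : s.Nonempty := by
    rw [← Finset.card_pos]
    have : (0 : ℝ) < s.card := by rw [hn]; exact hn0
    exact_mod_cast this
  have h1 := log_jensen s f hs h
  rw [hn] at h1
  have h2 : n⁻¹ * (∑ i ∈ s, Real.log (f i) + n * Real.log n) ≤ n⁻¹ * (n * Real.log (∑ i ∈ s, f i)) :=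
    mul_le_mul_of_nonneg_left h1 (inv_nonneg.2 hn0.le)
  rw [mul_add, inv_mul_cancel_left₀ hn0.ne', inv_mul_cancel_left₀ hn0.ne'] at h2
  linarith

theorem ent_mem_nb (G : SimpleGraph V) (x y : V) : y ∈ nb G x ↔ G.Adj x y := by
  unfold nb
  simp

open scoped Classical in
theorem ent_card_erase (G : SimpleGraph V) (h : ∀ x, 2 ≤ dg G x) {x y : V} (hxy : G.Adj x y) :
    (((nb G y).erase x).card : ℝ) = (dg G y : ℝ) - 1 := by
  have hx : x ∈ nb G y := (ent_mem_nb G y x).2 hxy.symm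
  rw [Finset.card_erase_of_mem hx]
  have h1 : 1 ≤ (nb G y).card := by
    have := h y
    unfold dg at this
    omega
  rw [Nat.cast_sub h1, Nat.cast_one]
  rfl

theorem ent_dg_sub_one (G : SimpleGraph V) (h : ∀ x, 2 ≤ dg G x) (x : V) : (1 : ℝ) ≤ (dg G x : ℝ) - 1 := by
  have h1 : (2 : ℝ) ≤ (dg G x : ℝ) := by exact_mod_cast h x
  linarith

open scoped Classical in
/-- the number of nb 2-walks after the edge `c a` -/
noncomputable def entW1 (G : SimpleGraph V) (c a : V) : ℝ := ∑ b ∈ (nb G a).erase c, ((dg G b : ℝ) - 1)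

open scoped Classical in
theorem ent_erase_nonempty (G : SimpleGraph V) (h : ∀ x, 2 ≤ dg G x) {x y : V} (hxy : G.Adj x y) :
    ((nb G y).erase x).Nonempty := by
  rw [← Finset.card_pos]
  have h1 := ent_card_erase G h hxy
  have h2 := ent_dg_sub_one G h y
  have h3 : (0 : ℝ) < ((nb G y).erase x).card := by rw [h1]; linarith
  exact_mod_cast h3

theorem ent_w1_pos (G : SimpleGraph V) (h : ∀ x, 2 ≤ dg G x) {c a : V} (hca : G.Adj c a) : 0 < entW1 G c a := by
  classical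
  unfold entW1
  apply Finset.sum_pos
  · intro b _
    have := ent_dg_sub_one G h b
    linarith
  · exact ent_erase_nonempty G h hca

open scoped Classical in
theorem ent_w3_eq (G : SimpleGraph V) (h : ∀ x, 2 ≤ dg G x) (u c : V) :
    (w3 G u c : ℝ) = ∑ a ∈ (nb G c).erase u, entW1 G c a := by
  unfold w3 entW1
  rw [Nat.cast_sum]
  refine Finset.sum_congr rfl fun a _ => ?_
  rw [Nat.cast_sum]
  refine Finset.sum_congr rfl fun b _ => ?_
  have h1 : 1 ≤ dg G b := by have := h b; omega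
  rw [Nat.cast_sub h1, Nat.cast_one]

theorem ent_w3_pos (G : SimpleGraph V) (h : ∀ x, 2 ≤ dg G x) {u c : V} (huc : G.Adj u c) : (0 : ℝ) < w3 G u c := by
  classical
  rw [ent_w3_eq G h]
  apply Finset.sum_pos
  · intro a ha
    exact ent_w1_pos G h ((ent_mem_nb G c a).1 (Finset.mem_of_mem_erase ha))
  · exact ent_erase_nonempty G h huc

open scoped Classical in
/-- lower bound for `log (entW1 c a)` -/
noncomputable def entKK (G : SimpleGraph V) (c a : V) : ℝ :=
  Real.log ((dg G a : ℝ) - 1) + ((dg G a : ℝ) - 1)⁻¹ * ∑ b ∈ (nb G a).erase c, Real.log ((dg G b : ℝ) - 1)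

theorem ent_kk_le (G : SimpleGraph V) (h : ∀ x, 2 ≤ dg G x) {c a : V} (hca : G.Adj c a) :
    entKK G c a ≤ Real.log (entW1 G c a) := by
  classical
  unfold entKK entW1
  apply ent_log_jensen
  · exact ent_card_erase G h hca
  · have := ent_dg_sub_one G h a
    linarith
  · intro b _
    have := ent_dg_sub_one G h b
    linarith

open scoped Classical in
theorem ent_log_w3_ge (G : SimpleGraph V) (h : ∀ x, 2 ≤ dg G x) {u c : V} (huc : G.Adj u c) :
    Real.log ((dg G c : ℝ) - 1) + ((dg G c : ℝ) - 1)⁻¹ * ∑ a ∈ (nb G c).erase u, entKK G c a ≤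
      Real.log (w3 G u c : ℝ) := by
  have h0 := ent_dg_sub_one G h c
  have h1 : Real.log ((dg G c : ℝ) - 1) + ((dg G c : ℝ) - 1)⁻¹ * ∑ a ∈ (nb G c).erase u, Real.log (entW1 G c a) ≤
      Real.log (w3 G u c : ℝ) := by
    rw [ent_w3_eq G h]
    apply ent_log_jensen
    · exact ent_card_erase G h huc
    · linarith
    · intro a ha
      exact ent_w1_pos G h ((ent_mem_nb G c a).1 (Finset.mem_of_mem_erase ha))
  have h2 : ∑ a ∈ (nb G c).erase u, entKK G c a ≤ ∑ a ∈ (nb G c).erase u, Real.log (entW1 G c a) := by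
    apply Finset.sum_le_sum
    intro a ha
    exact ent_kk_le G h ((ent_mem_nb G c a).1 (Finset.mem_of_mem_erase ha))
  have h3 : ((dg G c : ℝ) - 1)⁻¹ * ∑ a ∈ (nb G c).erase u, entKK G c a ≤
      ((dg G c : ℝ) - 1)⁻¹ * ∑ a ∈ (nb G c).erase u, Real.log (entW1 G c a) :=
    mul_le_mul_of_nonneg_left h2 (inv_nonneg.2 (by linarith))
  linarith

theorem ent_sum_kk (G : SimpleGraph V) (h : ∀ x, 2 ≤ dg G x) :
    ∑ u, ∑ c ∈ nb G u, entKK G u c = 2 * ∑ x, (dg G x : ℝ) * Real.log ((dg G x : ℝ) - 1) := by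
  classical
  have h1 := stat_zero G (fun x => Real.log ((dg G x : ℝ) - 1))
  have h2 := stat_step G h (fun _ c => Real.log ((dg G c : ℝ) - 1))
  unfold entKK
  simp only [Finset.sum_add_distrib]
  rw [h1, h2, h1]
  ring

theorem log_w3 (G : SimpleGraph V) (h : ∀ x, 2 ≤ dg G x) :
    3 * ∑ x, (dg G x : ℝ) * Real.log ((dg G x : ℝ) - 1) ≤ ∑ u, ∑ c ∈ nb G u, Real.log (w3 G u c : ℝ) := by
  classical
  have h1 := stat_zero G (fun x => Real.log ((dg G x : ℝ) - 1))
  have h2 := stat_step G h (fun u c => entKK G u c)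
  have h3 := ent_sum_kk G h
  have h4 : ∑ u, ∑ c ∈ nb G u, (Real.log ((dg G c : ℝ) - 1) + ((dg G c : ℝ) - 1)⁻¹ *
      ∑ a ∈ (nb G c).erase u, entKK G c a) ≤ ∑ u, ∑ c ∈ nb G u, Real.log (w3 G u c : ℝ) := by
    apply Finset.sum_le_sum
    intro u _
    apply Finset.sum_le_sum
    intro c hc
    exact ent_log_w3_ge G h ((ent_mem_nb G u c).1 hc)
  simp only [Finset.sum_add_distrib] at h4
  rw [h1, h2, h3] at h4
  linarith

open scoped Classical in
/-- the inner sum of `t2` -/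
noncomputable def entQQ (G : SimpleGraph V) (v u : V) : ℝ := ∑ c ∈ (nb G u).erase v, (w3 G u c : ℝ) ^ 2

theorem ent_qq_pos (G : SimpleGraph V) (h : ∀ x, 2 ≤ dg G x) {v u : V} (hvu : G.Adj v u) : 0 < entQQ G v u := by
  classical
  unfold entQQ
  apply Finset.sum_pos
  · intro c hc
    have := ent_w3_pos G h ((ent_mem_nb G u c).1 (Finset.mem_of_mem_erase hc))
    positivity
  · exact ent_erase_nonempty G h hvu

open scoped Classical in
theorem ent_log_qq_ge (G : SimpleGraph V) (h : ∀ x, 2 ≤ dg G x) {v u : V} (hvu : G.Adj v u) :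
    Real.log ((dg G u : ℝ) - 1) + ((dg G u : ℝ) - 1)⁻¹ * ∑ c ∈ (nb G u).erase v, 2 * Real.log (w3 G u c : ℝ) ≤
      Real.log (entQQ G v u) := by
  have h0 := ent_dg_sub_one G h u
  have h1 : ∑ c ∈ (nb G u).erase v, 2 * Real.log (w3 G u c : ℝ) =
      ∑ c ∈ (nb G u).erase v, Real.log ((w3 G u c : ℝ) ^ 2) := by
    refine Finset.sum_congr rfl fun c _ => ?_
    rw [Real.log_pow]
    norm_num
  rw [h1]
  unfold entQQ
  apply ent_log_jensen
  · exact ent_card_erase G h hvu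
  · linarith
  · intro c hc
    have := ent_w3_pos G h ((ent_mem_nb G u c).1 (Finset.mem_of_mem_erase hc))
    positivity

theorem ent_t2_eq (G : SimpleGraph V) (v : V) : (t2 G v : ℝ) = ∑ u ∈ nb G v, entQQ G v u := by
  classical
  unfold t2 entQQ
  rw [Nat.cast_sum]
  refine Finset.sum_congr rfl fun u _ => ?_
  rw [Nat.cast_sum]
  refine Finset.sum_congr rfl fun c _ => ?_
  rw [Nat.cast_pow]

theorem log_t2 (G : SimpleGraph V) (h : ∀ x, 2 ≤ dg G x) :
    8 * ∑ x, (dg G x : ℝ) * Real.log ((dg G x : ℝ) - 1) ≤ ∑ v, (dg G v : ℝ) * Real.log (t2 G v : ℝ) := by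
  classical
  have h1 := stat_zero G (fun x => Real.log ((dg G x : ℝ) - 1))
  have h2 := stat_step G h (fun u c => 2 * Real.log (w3 G u c : ℝ))
  have h3 := log_w3 G h
  have h4 : ∑ v, (((dg G v : ℝ) * Real.log ((dg G v : ℝ) - 1)) + ∑ u ∈ nb G v, (Real.log ((dg G u : ℝ) - 1) +
      ((dg G u : ℝ) - 1)⁻¹ * ∑ c ∈ (nb G u).erase v, 2 * Real.log (w3 G u c : ℝ))) ≤
      ∑ v, (dg G v : ℝ) * Real.log (t2 G v : ℝ) := by
    apply Finset.sum_le_sum
    intro v _
    have hv := ent_dg_sub_one G h v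
    have hne : (nb G v).Nonempty := by
      rw [← Finset.card_pos]
      have := h v
      unfold dg at this
      omega
    have a1 := log_jensen (nb G v) (entQQ G v) hne (fun u hu => ent_qq_pos G h ((ent_mem_nb G v u).1 hu))
    rw [← ent_t2_eq] at a1
    have a2 : ∑ u ∈ nb G v, (Real.log ((dg G u : ℝ) - 1) +
      ((dg G u : ℝ) - 1)⁻¹ * ∑ c ∈ (nb G u).erase v, 2 * Real.log (w3 G u c : ℝ)) ≤
        ∑ u ∈ nb G v, Real.log (entQQ G v u) := by
      apply Finset.sum_le_sum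
      intro u hu
      exact ent_log_qq_ge G h ((ent_mem_nb G v u).1 hu)
    have a3 : (dg G v : ℝ) * Real.log ((dg G v : ℝ) - 1) ≤ (dg G v : ℝ) * Real.log (dg G v : ℝ) := by
      apply mul_le_mul_of_nonneg_left _ (by linarith)
      apply Real.log_le_log (by linarith) (by linarith)
    have a4 : ((nb G v).card : ℝ) = (dg G v : ℝ) := rfl
    rw [a4] at a1
    linarith
  simp only [Finset.sum_add_distrib] at h4
  rw [h1, h2] at h4
  have h5 : ∑ u, ∑ c ∈ nb G u, 2 * Real.log (w3 G u c : ℝ) = 2 * ∑ u, ∑ c ∈ nb G u, Real.log (w3 G u c : ℝ) := by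
    rw [Finset.mul_sum]
    refine Finset.sum_congr rfl fun u _ => ?_
    rw [Finset.mul_sum]
  rw [h5] at h4
  linarith

end Pool.Agent.Helper32.TU
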