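import Mathlib

/-!
# TU-05: algebra for roots on the point side (pure field algebra, no graphs)

For `w` and `z = (z0, z1, z2)` put `g(x) = (x - w)(z2 - 2 x z1 + x^2 z0)` and `Δ = z0 z2 - z1^2`.

`four_roots` (a cubic with four different roots vanishes) is needed; prove it again here or via `Polynomial`.

`zedL_alg`: `g` (of `(w, z)`, `Δ <> 0`), and for `j = 0, 1, 2` a partner `(w_j, z_j)`, `z_j <> 0`, with four pairs `(x, s)`, the four `s` different,
`x <> 0`, and `x g(s) = Δ`, `x g_j(s) = Δ_j`. Then two of the partners are equal or one is equal to `(w, z)`.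
PROOF. For each `j`: `Δ g_j(s) - Δ_j g(s) = 0` at the four `s` (multiply by `x`: `Δ g_j x - Δ_j g x = Δ Δ_j - Δ_j Δ = 0`), so all coefficients of
`Δ g_j - Δ_j g` vanish. Coefficients of `g`: `x^3: z0`, `x^2: -2 z1 - w z0`, `x^1: z2 + 2 w z1`, `x^0: - w z2`.
`Δ_j <> 0`: otherwise all coefficients of `g_j` vanish: `z0 = 0`, `2 z1 = 0`, `z2 = 0`, contradiction to `z_j <> 0` (char `<> 2`).
So with `k = Δ_j / Δ <> 0`: `g_j = k g` as polynomials, so `g(w_j) = 0` (`g_j(w_j) = 0`): `w_j = w` or `q(w_j) = 0`, `q(x) = z2 - 2 x z1 + x^2 z0`.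
UNIQUENESS: if `w_i = w_j =: ω` for two of the four pairs (including `(w,z)` itself as `g = 1 * g`), then `g_i / Δ_i = g_j / Δ_j` as polynomials,
so the quadratics satisfy `q_i / Δ_i = q_j / Δ_j` (cancel `x - ω`: compare coefficients from the top: `z0`, then `z1` (char <> 2), then `z2`),
i.e. `z_i = l z_j` with `l = Δ_i / Δ_j`; and `Δ_i = l^2 Δ_j` (Δ is quadratic), so `l = l^2`, `l = 1` and `z_i = z_j`.
So if no partner equals `(w, z)` all `w_j <> w`, and `w_0, w_1, w_2` are roots of `q`; `q` is not zero as `Δ <> 0`; a nonzero polynomial of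
degree `<= 2` has at most two roots, so two of the `w_j` are equal, and the two partners are equal.
-/

set_option autoImplicit false

namespace Pool.Agent.Helper32.TU

variable {F : Type} [Field F]

open Polynomial in
private theorem za_four {c3 c2 c1 c0 : F} {s : Fin 4 → F} (hs : Function.Injective s)
    (h : ∀ i, c3 * s i ^ 3 + c2 * s i ^ 2 + c1 * s i + c0 = 0) :
    c3 = 0 ∧ c2 = 0 ∧ c1 = 0 ∧ c0 = 0 := by
  have h0 : (C c3 * X ^ 3 + C c2 * X ^ 2 + C c1 * X + C c0 : F[X]) = 0 := by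
    refine Polynomial.eq_zero_of_natDegree_lt_card_of_eval_eq_zero _ hs (fun i => ?_) ?_
    · simpa using h i
    · refine lt_of_le_of_lt natDegree_cubic_le ?_
      simp
  refine ⟨?_, ?_, ?_, ?_⟩
  · have := congrArg (fun p : F[X] => p.coeff 3) h0
    simpa [coeff_X, coeff_C, coeff_X_pow] using this
  · have := congrArg (fun p : F[X] => p.coeff 2) h0
    simpa [coeff_X, coeff_C, coeff_X_pow] using this
  · have := congrArg (fun p : F[X] => p.coeff 1) h0
    simpa [coeff_X, coeff_C, coeff_X_pow] using this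
  · have := congrArg (fun p : F[X] => p.coeff 0) h0
    simpa [coeff_X, coeff_C, coeff_X_pow] using this

private theorem za_two {z0 z1 z2 a b c : F} (hab : a ≠ b) (hac : a ≠ c) (hbc : b ≠ c)
    (h2 : (2 : F) ≠ 0)
    (ha : z2 - 2 * a * z1 + a ^ 2 * z0 = 0) (hb : z2 - 2 * b * z1 + b ^ 2 * z0 = 0)
    (hc : z2 - 2 * c * z1 + c ^ 2 * z0 = 0) : z0 * z2 - z1 ^ 2 = 0 := by
  have e1 : (a - b) * ((a + b) * z0 - 2 * z1) = 0 := by linear_combination ha - hb
  have e2 : (a - c) * ((a + c) * z0 - 2 * z1) = 0 := by linear_combination ha - hc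
  have f1 := (mul_eq_zero.1 e1).resolve_left (sub_ne_zero.2 hab)
  have f2 := (mul_eq_zero.1 e2).resolve_left (sub_ne_zero.2 hac)
  have e3 : (b - c) * z0 = 0 := by linear_combination f1 - f2
  have g0 := (mul_eq_zero.1 e3).resolve_left (sub_ne_zero.2 hbc)
  rw [g0] at f1
  have e4 : 2 * z1 = 0 := by linear_combination -f1
  have g1 := (mul_eq_zero.1 e4).resolve_left h2
  rw [g0, g1]
  ring

/-- uniqueness -/
private theorem za_uniq {ω a0 a1 a2 b0 b1 b2 : F} (h2 : (2 : F) ≠ 0) {A B : F}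
    (hA : A = a0 * a2 - a1 ^ 2) (hB : B = b0 * b2 - b1 ^ 2) (hA0 : A ≠ 0) (hB0 : B ≠ 0)
    (e3 : A * b0 = B * a0) (e2 : A * (2 * b1 + ω * b0) = B * (2 * a1 + ω * a0))
    (e1 : A * (b2 + 2 * ω * b1) = B * (a2 + 2 * ω * a1)) : b0 = a0 ∧ b1 = a1 ∧ b2 = a2 := by
  have f1 : 2 * (A * b1) = 2 * (B * a1) := by linear_combination e2 - ω * e3
  have g1 : A * b1 = B * a1 := mul_left_cancel₀ h2 f1
  have g2 : A * b2 = B * a2 := by linear_combination e1 - 2 * ω * g1
  have k1 : A ^ 2 * B = B ^ 2 * A := by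
    have : A ^ 2 * B = (A * b0) * (A * b2) - (A * b1) ^ 2 := by rw [hB]; ring
    rw [this, e3, g1, g2]
    linear_combination -(B ^ 2) * hA
  have k2 : A = B := by
    have h3 : (A * B) * A = (A * B) * B := by linear_combination k1
    exact mul_left_cancel₀ (mul_ne_zero hA0 hB0) h3
  refine ⟨?_, ?_, ?_⟩
  · exact mul_left_cancel₀ hA0 (by rw [e3, k2])
  · exact mul_left_cancel₀ hA0 (by rw [g1, k2])
  · exact mul_left_cancel₀ hA0 (by rw [g2, k2])

theorem zedL_alg (h2 : (2 : F) ≠ 0) (w z0 z1 z2 : F) (hΔ : z0 * z2 - z1 ^ 2 ≠ 0)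
    (w' y0 y1 y2 : Fin 3 → F) (hy : ∀ j, y0 j ≠ 0 ∨ y1 j ≠ 0 ∨ y2 j ≠ 0)
    (x s : Fin 3 → Fin 4 → F) (hs : ∀ j, Function.Injective (s j)) (hx : ∀ j i, x j i ≠ 0)
    (h : ∀ j i, x j i * ((s j i - w) * (z2 - 2 * s j i * z1 + s j i ^ 2 * z0)) = z0 * z2 - z1 ^ 2)
    (h' : ∀ j i, x j i * ((s j i - w' j) * (y2 j - 2 * s j i * y1 j + s j i ^ 2 * y0 j)) = y0 j * y2 j - y1 j ^ 2) :
    (∃ j, w' j = w ∧ y0 j = z0 ∧ y1 j = z1 ∧ y2 j = z2) ∨
    (∃ i j, i ≠ j ∧ w' i = w' j ∧ y0 i = y0 j ∧ y1 i = y1 j ∧ y2 i = y2 j) := by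
  obtain ⟨D, hD⟩ : ∃ D : F, D = z0 * z2 - z1 ^ 2 := ⟨_, rfl⟩
  obtain ⟨E, hE⟩ : ∃ E : Fin 3 → F, ∀ j, E j = y0 j * y2 j - y1 j ^ 2 := ⟨_, fun _ => rfl⟩
  have hD0 : D ≠ 0 := by rw [hD]; exact hΔ
  have key : ∀ j, D * y0 j = E j * z0 ∧
      D * (2 * y1 j + w' j * y0 j) = E j * (2 * z1 + w * z0) ∧
      D * (y2 j + 2 * w' j * y1 j) = E j * (z2 + 2 * w * z1) ∧
      D * (w' j * y2 j) = E j * (w * z2) := by
    intro j
    obtain ⟨c3, c2, c1, c0⟩ := za_four (c3 := D * y0 j - E j * z0)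
      (c2 := E j * (2 * z1 + w * z0) - D * (2 * y1 j + w' j * y0 j))
      (c1 := D * (y2 j + 2 * w' j * y1 j) - E j * (z2 + 2 * w * z1))
      (c0 := E j * (w * z2) - D * (w' j * y2 j)) (hs j) (fun i => by
        have e1 := h j i
        have e2 := h' j i
        rw [← hD] at e1
        rw [← hE] at e2
        refine (mul_eq_zero.1 ?_).resolve_left (hx j i)
        linear_combination D * e2 - E j * e1)
    exact ⟨sub_eq_zero.1 c3, (sub_eq_zero.1 c2).symm, sub_eq_zero.1 c1, (sub_eq_zero.1 c0).symm⟩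
  have hE0 : ∀ j, E j ≠ 0 := by
    intro j h0
    obtain ⟨k3, k2, k1, _⟩ := key j
    rw [h0, zero_mul] at k3 k2 k1
    have a0 := (mul_eq_zero.1 k3).resolve_left hD0
    have a1' := (mul_eq_zero.1 k2).resolve_left hD0
    rw [a0, mul_zero, add_zero] at a1'
    have a1 := (mul_eq_zero.1 a1').resolve_left h2
    have a2' := (mul_eq_zero.1 k1).resolve_left hD0
    rw [a1, mul_zero, add_zero] at a2'
    rcases hy j with h | h | h
    · exact h a0
    · exact h a1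
    · exact h a2'
  by_cases hw : ∃ j, w' j = w
  · left
    obtain ⟨j, hj⟩ := hw
    obtain ⟨k3, k2, k1, _⟩ := key j
    rw [hj] at k2 k1
    obtain ⟨b0, b1, b2⟩ := za_uniq h2 hD (hE j) hD0 (hE0 j) k3 k2 k1
    exact ⟨j, hj, b0, b1, b2⟩
  · right
    have hq : ∀ j, z2 - 2 * w' j * z1 + w' j ^ 2 * z0 = 0 := by
      intro j
      obtain ⟨k3, k2, k1, k0⟩ := key j
      have hne : E j * (w' j - w) ≠ 0 :=
        mul_ne_zero (hE0 j) (sub_ne_zero.2 fun h => hw ⟨j, h⟩)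
      refine (mul_eq_zero.1 ?_).resolve_left hne
      linear_combination -(w' j ^ 3) * k3 + (w' j ^ 2) * k2 - w' j * k1 + k0
    have hex : ∃ i j : Fin 3, i ≠ j ∧ w' i = w' j := by
      by_contra hcon
      have hne : ∀ i j : Fin 3, i ≠ j → w' i ≠ w' j := fun i j hij h => hcon ⟨i, j, hij, h⟩
      exact hΔ (za_two (hne 0 1 (by decide)) (hne 0 2 (by decide)) (hne 1 2 (by decide)) h2
        (hq 0) (hq 1) (hq 2))
    obtain ⟨i, j, hij, hwij⟩ := hex
    obtain ⟨k3, k2, k1, _⟩ := key i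
    obtain ⟨l3, l2, l1, _⟩ := key j
    rw [← hwij] at l2 l1
    have m3 : E j * y0 i = E i * y0 j :=
      mul_left_cancel₀ hD0 (by linear_combination E j * k3 - E i * l3)
    have m2 : E j * (2 * y1 i + w' i * y0 i) = E i * (2 * y1 j + w' i * y0 j) :=
      mul_left_cancel₀ hD0 (by linear_combination E j * k2 - E i * l2)
    have m1 : E j * (y2 i + 2 * w' i * y1 i) = E i * (y2 j + 2 * w' i * y1 j) :=
      mul_left_cancel₀ hD0 (by linear_combination E j * k1 - E i * l1)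
    obtain ⟨b0, b1, b2⟩ := za_uniq h2 (hE j) (hE i) (hE0 j) (hE0 i) m3 m2 m1
    exact ⟨i, j, hij, hwij, b0, b1, b2⟩

end Pool.Agent.Helper32.TU
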