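import Pool.Agent.Helper32.TU.Host
import Pool.Agent.Helper32.TU.ZedAlgL

/-!
# TU-06: for a root on the point side, an `r` whose direction is not the direction of the first line is not Zed

`v = inr V` (point). For a line `r = (w; b1, b2, b3)` put `c_i = b_i - V_i + w^i V_0` (the line in coordinates with origin `V`) and
`z = (z0, z1, z2) = (c_1, c_2 - w c_1, c_3 - w c_2)`. `(w, z)` determines `r` (solve for `c_1, c_2, c_3, b_i`).

LEMMA 1. If `Cen (W F) (inr V) y c` then `y = inl r`, and there are `x, s, β, t` with `x <> 0`, `β <> 0`, `t <> s`, `t <> w`,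
`c = inr (V + x (1, s, s^2, s^3))`, and for the `(w, z)` of `r`: `z_i = x (s - w) s^i + β (t - w) t^i` (i = 0, 1, 2).
Proof: path `v - u - c - a - b - y`: `u = inl p`, direction `s`; `c = inr C`, `C - V = x (1,s,..)`, `x = C_0 - V_0 <> 0` as `c <> v` (`pt_eq`);
`a = inl p'`, direction `t <> s` (`a <> u`, `line_eq` through `C`); `b = inr B`, `B - C = β (1,t,..)`, `β <> 0` as `b <> c`; `y = inl r` a line
through `B`, direction `w <> t` as `r <> a`. `r` passes through `B = V + x (1,s,..) + β (1,t,..)`: `b_i = B_i - w^i B_0`, so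
`c_i = x (s^i - w^i) + β (t^i - w^i)`, and `z_i` follow by `ring`. The direction `s` is the direction `p.1` of `u`.

LEMMA 2 (algebra). With `q(X) = z2 - 2 X z1 + X^2 z0`, `Δ = z0 z2 - z1^2`: `q(s) = β (t - w)(t - s)^2`, `Δ = x (s - w) β (t - w) (s - t)^2`, so
`x (s - w) q(s) = Δ`. Also `z <> 0` (if `z0 = z1 = 0` then `β (t - w)(t - s) = 0`).

PROOF of the theorem. For the given path `s = p.1 <> w.1`, so `Δ <> 0` for the `(w, z)` of `r := inl w`. Suppose `Zed`: three different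
`r_j = g j <> r`, each with four different `c_{j,i}` which are centres of `r` and of `r_j`. LEMMA 1 for `r` and for `r_j` with the same `c_{j,i}`:
`c_{j,i} = inr (V + x (1,s,..))` determines `x = C_0 - V_0` and then `s = (C_1 - V_1)/x`; so both have the same `x_{j,i}`, `s_{j,i}`. By LEMMA 2
`x g(s) = Δ` and `x g_j(s) = Δ_j` with `g(X) = (X - w) q(X)`: here `(s - w) q(s)` is `g(s)`. For fixed `j` the `s_{j,i}` are different: if
`s_{j,i} = s_{j,i'}` then `x` are equal (`x g(s) = Δ <> 0`), so the centres are equal. `zedL_alg` gives: some `r_j = r`, or two of the `r_j` are equal: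
contradiction.
-/

set_option autoImplicit false

namespace Pool.Agent.Helper32.TU

variable {F : Type} [Field F]

/-- the coordinates `z` of a line `r` with origin `V` -/
private def zz0 (V r : F × F × F × F) : F := r.2.1 - V.2.1 + r.1 * V.1

private def zz1 (V r : F × F × F × F) : F :=
  (r.2.2.1 - V.2.2.1 + r.1 ^ 2 * V.1) - r.1 * (r.2.1 - V.2.1 + r.1 * V.1)

private def zz2 (V r : F × F × F × F) : F :=
  (r.2.2.2 - V.2.2.2 + r.1 ^ 3 * V.1) - r.1 * (r.2.2.1 - V.2.2.1 + r.1 ^ 2 * V.1)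

private theorem zz_inj {V r r' : F × F × F × F} (h : r.1 = r'.1) (h0 : zz0 V r = zz0 V r')
    (h1 : zz1 V r = zz1 V r') (h2 : zz2 V r = zz2 V r') : r = r' := by
  obtain ⟨w, b1, b2, b3⟩ := r
  obtain ⟨w', b1', b2', b3'⟩ := r'
  obtain ⟨V0, V1, V2, V3⟩ := V
  simp only [zz0, zz1, zz2] at h h0 h1 h2
  subst h
  have e1 : b1 = b1' := by linear_combination h0
  subst e1
  have e2 : b2 = b2' := by linear_combination h1
  subst e2
  have e3 : b3 = b3' := by linear_combination h2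
  rw [e3]

private def shf (V : F × F × F × F) (x s : F) : F × F × F × F :=
  (V.1 + x, V.2.1 + x * s, V.2.2.1 + x * s ^ 2, V.2.2.2 + x * s ^ 3)

private theorem shf_inj {V : F × F × F × F} {x s x' s' : F} (hx : x ≠ 0)
    (h : shf V x s = shf V x' s') : x = x' ∧ s = s' := by
  have h1 : V.1 + x = V.1 + x' := congrArg (fun q => q.1) h
  have h2 : V.2.1 + x * s = V.2.1 + x' * s' := congrArg (fun q => q.2.1) h
  have e1 : x = x' := add_left_cancel h1
  refine ⟨e1, ?_⟩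
  have e2 : x * s = x' * s' := add_left_cancel h2
  rw [← e1] at e2
  exact mul_left_cancel₀ hx e2

private theorem is4_data {V : F × F × F × F} {u c a b y : WV F}
    (h : Is4 (W F) (Sum.inr V) b u c a) (hb : (W F).Adj b y) (hy : y ≠ a) :
    ∃ (p r : F × F × F × F) (x β t : F), u = Sum.inl p ∧ y = Sum.inl r ∧ x ≠ 0 ∧ β ≠ 0 ∧
      t ≠ p.1 ∧ t ≠ r.1 ∧ c = Sum.inr (shf V x p.1) ∧
      zz0 V r = x * (p.1 - r.1) + β * (t - r.1) ∧
      zz1 V r = x * (p.1 - r.1) * p.1 + β * (t - r.1) * t ∧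
      zz2 V r = x * (p.1 - r.1) * p.1 ^ 2 + β * (t - r.1) * t ^ 2 := by
  obtain ⟨h1, h2, h3, h4, h5, h6, h7⟩ := h
  obtain ⟨p, rfl, hpV⟩ := adj_r h1
  obtain ⟨C, rfl, hpC⟩ := adj_l h2
  obtain ⟨p', rfl, hp'C⟩ := adj_r h4
  obtain ⟨B, rfl, hp'B⟩ := adj_l h6
  obtain ⟨r, rfl, hrB⟩ := adj_r hb
  have hx : C.1 - V.1 ≠ 0 := by
    intro h0
    exact h3 (by rw [pt_eq hpC hpV (sub_eq_zero.1 h0)])
  have hβ : B.1 - C.1 ≠ 0 := by
    intro h0
    exact h7 (by rw [pt_eq hp'B hp'C (sub_eq_zero.1 h0)])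
  have ht : p'.1 ≠ p.1 := by
    intro h0
    exact h5 (by rw [line_eq hp'C hpC h0])
  have htr : p'.1 ≠ r.1 := by
    intro h0
    exact hy (by rw [line_eq hrB hp'B h0.symm])
  obtain ⟨t, P1, P2, P3⟩ := p'
  obtain ⟨s, p1, p2, p3⟩ := p
  obtain ⟨w, b1, b2, b3⟩ := r
  obtain ⟨V0, V1, V2, V3⟩ := V
  obtain ⟨C0, C1, C2, C3⟩ := C
  obtain ⟨B0, B1, B2, B3⟩ := B
  simp only [Inc] at hpV hpC hp'C hp'B hrB
  obtain ⟨a1, a2, a3⟩ := hpV
  obtain ⟨c1, c2, c3⟩ := hpC
  obtain ⟨d1, d2, d3⟩ := hp'C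
  obtain ⟨e1, e2, e3⟩ := hp'B
  obtain ⟨f1, f2, f3⟩ := hrB
  refine ⟨(s, p1, p2, p3), (w, b1, b2, b3), C0 - V0, B0 - C0, t, rfl, rfl, hx, hβ, ht, htr, ?_,
    ?_, ?_, ?_⟩
  · have g0 : C0 = V0 + (C0 - V0) := by ring
    have g1 : C1 = V1 + (C0 - V0) * s := by linear_combination c1 - a1
    have g2 : C2 = V2 + (C0 - V0) * s ^ 2 := by linear_combination c2 - a2
    have g3 : C3 = V3 + (C0 - V0) * s ^ 3 := by linear_combination c3 - a3
    simp only [shf]
    rw [← g0, ← g1, ← g2, ← g3]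
  · simp only [zz0]
    linear_combination e1 - f1 - d1 + c1 - a1
  · simp only [zz1]
    linear_combination (e2 - f2 - d2 + c2 - a2) - w * (e1 - f1 - d1 + c1 - a1)
  · simp only [zz2]
    linear_combination (e3 - f3 - d3 + c3 - a3) - w * (e2 - f2 - d2 + c2 - a2)

private theorem alg_delta {X Y s t z0 z1 z2 : F} (h0 : z0 = X + Y) (h1 : z1 = X * s + Y * t)
    (h2 : z2 = X * s ^ 2 + Y * t ^ 2) :
    z0 * z2 - z1 ^ 2 = X * Y * (s - t) ^ 2 ∧
      X * (z2 - 2 * s * z1 + s ^ 2 * z0) = z0 * z2 - z1 ^ 2 := by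
  subst h0 h1 h2
  constructor <;> ring

private theorem cen_data {V : F × F × F × F} {c y : WV F}
    (h : Cen (W F) (Sum.inr V) y c) : ∃ (r : F × F × F × F) (x s : F), y = Sum.inl r ∧ x ≠ 0 ∧
      c = Sum.inr (shf V x s) ∧ (zz0 V r ≠ 0 ∨ zz1 V r ≠ 0 ∨ zz2 V r ≠ 0) ∧
      x * ((s - r.1) * (zz2 V r - 2 * s * zz1 V r + s ^ 2 * zz0 V r)) =
        zz0 V r * zz2 V r - zz1 V r ^ 2 := by
  obtain ⟨u, a, b, h4, hb, hy⟩ := h
  obtain ⟨p, r, x, β, t, -, hyr, hx, hβ, htp, htr, hc, k0, k1, k2⟩ := is4_data h4 hb hy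
  refine ⟨r, x, p.1, hyr, hx, hc, ?_, ?_⟩
  · by_contra hcon
    push Not at hcon
    obtain ⟨n0, n1, -⟩ := hcon
    have h5 : β * (t - r.1) * (t - p.1) = 0 := by
      linear_combination n1 - k1 - p.1 * (n0 - k0)
    rcases mul_eq_zero.1 h5 with h6 | h6
    · rcases mul_eq_zero.1 h6 with h7 | h7
      · exact hβ h7
      · exact htr (sub_eq_zero.1 h7)
    · exact htp (sub_eq_zero.1 h6)
  · have h5 := (alg_delta k0 k1 k2).2
    rw [← h5]
    ring

theorem host_zedL (h2 : (2 : F) ≠ 0) (V p w : F × F × F × F) {c a b : WV F}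
    (h : Is4 (W F) (Sum.inr V) b (Sum.inl p) c a) (hb : (W F).Adj b (Sum.inl w)) (hwa : Sum.inl w ≠ a)
    (hw : w.1 ≠ p.1) : ¬ Zed (W F) (Sum.inr V) (Sum.inl w) := by
  obtain ⟨p', r', x0, β0, t0, hp', hr', hx0, hβ0, htp0, htr0, -, k0, k1, k2⟩ := is4_data h hb hwa
  have hp'' : p = p' := Sum.inl.inj hp'
  have hr'' : w = r' := Sum.inl.inj hr'
  subst hp'' hr''
  have hΔ : zz0 V w * zz2 V w - zz1 V w ^ 2 ≠ 0 := by
    rw [(alg_delta k0 k1 k2).1]
    refine mul_ne_zero (mul_ne_zero (mul_ne_zero hx0 ?_) (mul_ne_zero hβ0 ?_)) (pow_ne_zero _ ?_)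
    · exact fun e => hw (sub_eq_zero.1 e).symm
    · exact fun e => htr0 (sub_eq_zero.1 e)
    · exact fun e => htp0 (sub_eq_zero.1 e).symm
  rintro ⟨g, hg, hgj⟩
  choose hne f hf hc using hgj
  have hR : ∀ j, ∃ R : F × F × F × F, g j = Sum.inl R := by
    intro j
    obtain ⟨r, x, s, hr, -⟩ := cen_data (hc j 0).2
    exact ⟨r, hr⟩
  choose R hR using hR
  have key : ∀ j i, ∃ x s : F, x ≠ 0 ∧ f j i = Sum.inr (shf V x s) ∧
      x * ((s - w.1) * (zz2 V w - 2 * s * zz1 V w + s ^ 2 * zz0 V w)) =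
        zz0 V w * zz2 V w - zz1 V w ^ 2 ∧
      (zz0 V (R j) ≠ 0 ∨ zz1 V (R j) ≠ 0 ∨ zz2 V (R j) ≠ 0) ∧
      x * ((s - (R j).1) * (zz2 V (R j) - 2 * s * zz1 V (R j) + s ^ 2 * zz0 V (R j))) =
        zz0 V (R j) * zz2 V (R j) - zz1 V (R j) ^ 2 := by
    intro j i
    obtain ⟨r1, x, s, hr1, hx, hfx, -, he⟩ := cen_data (hc j i).1
    obtain ⟨r2, x', s', hr2, hx', hfx', hn, he'⟩ := cen_data (hc j i).2
    have e1 : w = r1 := Sum.inl.inj hr1
    rw [hR j] at hr2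
    have e2 : R j = r2 := Sum.inl.inj hr2
    subst e1
    rw [← e2] at hn he'
    rw [hfx] at hfx'
    obtain ⟨e3, e4⟩ := shf_inj hx (Sum.inr.inj hfx')
    rw [← e3, ← e4] at he'
    exact ⟨x, s, hx, hfx, he, hn, he'⟩
  choose x s hx hfx he hn he' using key
  have hs : ∀ j, Function.Injective (s j) := by
    intro j i i' hii
    apply hf j
    rw [hfx j i, hfx j i', ← hii]
    have e1 := he j i
    have e2 := he j i'
    rw [← hii] at e2
    rw [← e2] at e1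
    have e3 : x j i = x j i' := by
      refine mul_right_cancel₀ ?_ e1
      intro h0
      rw [h0, mul_zero] at e2
      exact hΔ e2.symm
    rw [e3]
  rcases zedL_alg h2 w.1 (zz0 V w) (zz1 V w) (zz2 V w) hΔ (fun j => (R j).1)
    (fun j => zz0 V (R j)) (fun j => zz1 V (R j)) (fun j => zz2 V (R j)) (fun j => hn j 0) x s
    hs hx he he' with ⟨j, h0, h1, h2', h3⟩ | ⟨i, j, hij, h0, h1, h2', h3⟩
  · apply hne j
    rw [hR j]
    exact congrArg Sum.inl (zz_inj (V := V) h0 h1 h2' h3)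
  · apply hij
    apply hg
    rw [hR i, hR j]
    exact congrArg Sum.inl (zz_inj (V := V) h0 h1 h2' h3)

end Pool.Agent.Helper32.TU
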