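import Mathlib

/-!
# TU-03: algebra for roots on the line side (pure field algebra, no graphs)

`cubic_zero`: a cubic polynomial with four different roots is zero: subtract consecutive equations and divide by the differences
(or `Polynomial.card_roots'`).

`zedP_alg`. Put `A = d1 d3 - d2^2`, `B = d1 d2 - d0 d3`, `C = d0 d2 - d1^2` (so `(d1 - x d0)(d3 - x d2) - (d2 - x d1)^2 = A + B x + C x^2`),
and `A', B', C'` for `e`. By `cubic_zero` for `(A + B x + C x^2)(e3 - x e2) - (A' + B' x + C' x^2)(d3 - x d2)`: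
`A e3 = A' d3`, `B e3 - A e2 = B' d3 - A' d2`, `C e3 - B e2 = C' d3 - B' d2`, `C e2 = C' d2`.
STEP 1: there is `k <> 0` with `e2 = k d2`, `e3 = k d3`.
 - `d2 <> 0`: put `x = d3 / d2`, `k = e2 / d2`. The polynomial identity at `x`: `(A + B x + C x^2)(e3 - x e2) = 0` and
   `A + B x + C x^2 = (d1 - x d0)(d3 - x d2) - (d2 - x d1)^2 = -(d2 - x d1)^2 = -(A / d2)^2 <> 0`. So `e3 = x e2 = k d3`.
 - `d2 = 0`: then `A = d1 d3 <> 0`, `C = -d1^2 <> 0`, so `C e2 = 0` gives `e2 = 0`; `k = e3 / d3`.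
 `k <> 0` because `e2`, `e3` are not both zero.
STEP 2: `A' = k A`, `B' = k B`, `C' = k C`: from the four equations `(A' - k A) d3 = 0`, `(B' - k B) d3 = (A' - k A) d2`,
 `(C' - k C) d3 = (B' - k B) d2`, `(C' - k C) d2 = 0`. If `d3 <> 0` then all three vanish one after the other. If `d3 = 0` then `d2 <> 0` and
 they vanish (`A' - k A` from the second, `B' - k B` from the third, `C' - k C` from the fourth).
STEP 3: `k = 1`. Let `m = (k - 1) d2^2`. `A' = k A`: `k (d3 e1) - k^2 d2^2 = k (d1 d3 - d2^2)`, so `d3 e1 = d1 d3 + m`.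
 `B' = k B`: `k d2 e1 - k d3 e0 = k (d1 d2 - d0 d3)`, so `d3 e0 = d2 e1 - d1 d2 + d0 d3`. `C' = k C`: `k d2 e0 - e1^2 = k (d0 d2 - d1^2)`.
 If `d3 <> 0`: multiply the last by `d3^2` and insert: `(k - 1) (d1 d3 - d2^2)^2 = 0`, so `k = 1`. (`d3^2 e0 = d2 m + d0 d3^2`; then
 `k d2 (d2 m + d0 d3^2) - (d1 d3 + m)^2 = k d3^2 (d0 d2 - d1^2)`.) If `d3 = 0`: `0 = m` and `d2 <> 0`, so `k = 1`.
STEP 4: `k = 1`, `m = 0`: `d3 (e1 - d1) = 0`, `d3 (e0 - d0) = d2 (e1 - d1)`, `d2 e0 - e1^2 = d0 d2 - d1^2`. `d3 <> 0`: done.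
 `d3 = 0`: `d2 <> 0`, so `e1 = d1`, then `d2 (e0 - d0) = 0`.
-/

set_option autoImplicit false

namespace Pool.Agent.Helper32.TU

variable {F : Type} [Field F]

theorem cubic_zero (c0 c1 c2 c3 : F) (t : Fin 4 → F) (ht : Function.Injective t)
    (h : ∀ i, c0 + c1 * t i + c2 * t i ^ 2 + c3 * t i ^ 3 = 0) : c0 = 0 ∧ c1 = 0 ∧ c2 = 0 ∧ c3 = 0 := by
  have n01 : t 0 - t 1 ≠ 0 := sub_ne_zero.2 fun e => absurd (ht e) (by decide)
  have n02 : t 0 - t 2 ≠ 0 := sub_ne_zero.2 fun e => absurd (ht e) (by decide)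
  have n03 : t 0 - t 3 ≠ 0 := sub_ne_zero.2 fun e => absurd (ht e) (by decide)
  have n12 : t 1 - t 2 ≠ 0 := sub_ne_zero.2 fun e => absurd (ht e) (by decide)
  have n13 : t 1 - t 3 ≠ 0 := sub_ne_zero.2 fun e => absurd (ht e) (by decide)
  have n23 : t 2 - t 3 ≠ 0 := sub_ne_zero.2 fun e => absurd (ht e) (by decide)
  have h0 := h 0
  have h1 := h 1
  have h2 := h 2
  have h3 := h 3
  have d01 : c1 + c2 * (t 0 + t 1) + c3 * (t 0 ^ 2 + t 0 * t 1 + t 1 ^ 2) = 0 := by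
    apply mul_left_cancel₀ n01
    linear_combination h0 - h1
  have d02 : c1 + c2 * (t 0 + t 2) + c3 * (t 0 ^ 2 + t 0 * t 2 + t 2 ^ 2) = 0 := by
    apply mul_left_cancel₀ n02
    linear_combination h0 - h2
  have d03 : c1 + c2 * (t 0 + t 3) + c3 * (t 0 ^ 2 + t 0 * t 3 + t 3 ^ 2) = 0 := by
    apply mul_left_cancel₀ n03
    linear_combination h0 - h3
  have e12 : c2 + c3 * (t 0 + t 1 + t 2) = 0 := by
    apply mul_left_cancel₀ n12
    linear_combination d01 - d02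
  have e13 : c2 + c3 * (t 0 + t 1 + t 3) = 0 := by
    apply mul_left_cancel₀ n13
    linear_combination d01 - d03
  have f3 : c3 = 0 := by
    apply mul_left_cancel₀ n23
    linear_combination e12 - e13
  have f2 : c2 = 0 := by linear_combination e12 - (t 0 + t 1 + t 2) * f3
  have f1 : c1 = 0 := by
    linear_combination d01 - (t 0 + t 1) * f2 - (t 0 ^ 2 + t 0 * t 1 + t 1 ^ 2) * f3
  have f0 : c0 = 0 := by
    linear_combination h0 - t 0 * f1 - t 0 ^ 2 * f2 - t 0 ^ 3 * f3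
  exact ⟨f0, f1, f2, f3⟩

theorem zedP_alg (d0 d1 d2 d3 e0 e1 e2 e3 : F) (t : Fin 4 → F) (ht : Function.Injective t)
    (hA : d1 * d3 - d2 ^ 2 ≠ 0) (he : e2 ≠ 0 ∨ e3 ≠ 0)
    (h : ∀ i, ((d1 - t i * d0) * (d3 - t i * d2) - (d2 - t i * d1) ^ 2) * (e3 - t i * e2) =
      ((e1 - t i * e0) * (e3 - t i * e2) - (e2 - t i * e1) ^ 2) * (d3 - t i * d2)) :
    e0 = d0 ∧ e1 = d1 ∧ e2 = d2 ∧ e3 = d3 := by
  obtain ⟨q0, q1, q2, q3⟩ := cubic_zero
    ((d1 * d3 - d2 ^ 2) * e3 - (e1 * e3 - e2 ^ 2) * d3)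
    ((d1 * d2 - d0 * d3) * e3 - (d1 * d3 - d2 ^ 2) * e2 -
      ((e1 * e2 - e0 * e3) * d3 - (e1 * e3 - e2 ^ 2) * d2))
    ((d0 * d2 - d1 ^ 2) * e3 - (d1 * d2 - d0 * d3) * e2 -
      ((e0 * e2 - e1 ^ 2) * d3 - (e1 * e2 - e0 * e3) * d2))
    (-((d0 * d2 - d1 ^ 2) * e2) + (e0 * e2 - e1 ^ 2) * d2) t ht (fun i => by
      linear_combination h i)
  have hH : e3 * d2 - d3 * e2 = 0 := by
    have h1 : (d1 * d3 - d2 ^ 2) ^ 2 * (e3 * d2 - d3 * e2) = 0 := by
      linear_combination -(d2 ^ 3 * q0 + d2 ^ 2 * d3 * q1 + d2 * d3 ^ 2 * q2 + d3 ^ 3 * q3)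
    rcases mul_eq_zero.1 h1 with h2 | h2
    · exact absurd h2 (pow_ne_zero 2 hA)
    · exact h2
  obtain ⟨k, hk2, hk3⟩ : ∃ k : F, e2 = k * d2 ∧ e3 = k * d3 := by
    by_cases hd2 : d2 = 0
    · have hd3 : d3 ≠ 0 := by
        rintro rfl
        apply hA
        rw [hd2]
        ring
      refine ⟨e3 / d3, ?_, ?_⟩
      · rw [hd2, mul_zero]
        rw [hd2, mul_zero, zero_sub, neg_eq_zero] at hH
        exact (mul_eq_zero.1 hH).resolve_left hd3
      · field_simp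
    · refine ⟨e2 / d2, ?_, ?_⟩
      · field_simp
      · field_simp
        linear_combination hH
  have hk : k ≠ 0 := by
    rintro rfl
    rw [zero_mul] at hk2 hk3
    rcases he with h1 | h1
    · exact h1 hk2
    · exact h1 hk3
  subst hk2
  subst hk3
  have hdd : d3 ≠ 0 ∨ (d3 = 0 ∧ d2 ≠ 0) := by
    by_cases hd3 : d3 = 0
    · right
      refine ⟨hd3, ?_⟩
      rintro rfl
      apply hA
      rw [hd3]
      ring
    · exact Or.inl hd3
  -- the three quadratic equations, divided by k where possible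
  have hABC : d3 * e1 - k * d2 ^ 2 = d1 * d3 - d2 ^ 2 ∧
      d2 * e1 - d3 * e0 = d1 * d2 - d0 * d3 ∧
      k * d2 * e0 - e1 ^ 2 = k * (d0 * d2 - d1 ^ 2) := by
    rcases hdd with hd3 | ⟨hd3, hd2⟩
    · have hI : d3 * e1 - k * d2 ^ 2 = d1 * d3 - d2 ^ 2 := by
        apply mul_left_cancel₀ (mul_ne_zero hk hd3)
        linear_combination -q0
      have hII : d2 * e1 - d3 * e0 = d1 * d2 - d0 * d3 := by
        apply mul_left_cancel₀ (mul_ne_zero hk hd3)
        linear_combination -q1 + k * d2 * hI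
      have hIII : k * d2 * e0 - e1 ^ 2 = k * (d0 * d2 - d1 ^ 2) := by
        apply mul_left_cancel₀ hd3
        linear_combination -q2 + k * d2 * hII
      exact ⟨hI, hII, hIII⟩
    · subst hd3
      have hI : (0 : F) * e1 - k * d2 ^ 2 = d1 * 0 - d2 ^ 2 := by
        apply mul_left_cancel₀ (mul_ne_zero hk hd2)
        linear_combination q1
      have hII : d2 * e1 - 0 * e0 = d1 * d2 - d0 * 0 := by
        apply mul_left_cancel₀ (mul_ne_zero hk hd2)
        linear_combination q2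
      have hIII : k * d2 * e0 - e1 ^ 2 = k * (d0 * d2 - d1 ^ 2) := by
        apply mul_left_cancel₀ hd2
        linear_combination q3
      exact ⟨hI, hII, hIII⟩
  obtain ⟨hI, hII, hIII⟩ := hABC
  have hk1 : k = 1 := by
    rcases hdd with hd3 | ⟨hd3, hd2⟩
    · have hm : d3 * e1 = d1 * d3 + (k - 1) * d2 ^ 2 := by linear_combination hI
      have h0 : d3 ^ 2 * e0 = d2 * ((k - 1) * d2 ^ 2) + d0 * d3 ^ 2 := by
        linear_combination d2 * hm - d3 * hII
      have h1 : (k - 1) * (d1 * d3 - d2 ^ 2) ^ 2 = 0 := by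
        linear_combination d3 ^ 2 * hIII - k * d2 * h0 +
          (d3 * e1 + (d1 * d3 + (k - 1) * d2 ^ 2)) * hm
      rcases mul_eq_zero.1 h1 with h2 | h2
      · exact sub_eq_zero.1 h2
      · exact absurd h2 (pow_ne_zero 2 hA)
    · have h1 : (k - 1) * d2 ^ 2 = 0 := by
        rw [hd3] at hI
        linear_combination -hI
      rcases mul_eq_zero.1 h1 with h2 | h2
      · exact sub_eq_zero.1 h2
      · exact absurd h2 (pow_ne_zero 2 hd2)
  subst hk1
  have hfin : e1 = d1 ∧ e0 = d0 := by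
    rcases hdd with hd3 | ⟨hd3, hd2⟩
    · have h1 : e1 = d1 := by
        apply mul_left_cancel₀ hd3
        linear_combination hI
      refine ⟨h1, ?_⟩
      apply mul_left_cancel₀ hd3
      rw [h1] at hII
      linear_combination -hII
    · rw [hd3] at hII
      have h1 : e1 = d1 := by
        apply mul_left_cancel₀ hd2
        linear_combination hII
      refine ⟨h1, ?_⟩
      apply mul_left_cancel₀ hd2
      rw [h1] at hIII
      linear_combination hIII
  exact ⟨hfin.2, hfin.1, one_mul _, one_mul _⟩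

end Pool.Agent.Helper32.TU
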