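import Pool.Agent.Helper32.TU.Host
import Pool.Agent.Helper32.TU.ZedAlgP

/-!
# TU-04: for a root on the line side, an `r` reached through a `b` of another direction than the root has no bad partner

`v = inl V`, `V = (t0; B1, B2, B3)`. For a point `R` put (shifted coordinates of `R - (0, B1, B2, B3)`)
`g0 = R_0`, `g1 = (R_1 - B1) - t0 g0`, `g2 = (R_2 - B2) - 2 t0 (R_1 - B1) + t0^2 g0`,
`g3 = (R_3 - B3) - 3 t0 (R_2 - B2) + 3 t0^2 (R_1 - B1) - t0^3 g0`. (If `R - (0, B) = sum_j c_j (1, s_j, s_j^2, s_j^3)` then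
`g_i = sum_j c_j (s_j - t0)^i`.)

LEMMA 1. If `Cen (W F) (inl V) y c` then `y = inr R`, and there are `x, t, α, γ, w` with `t <> 0`, `α <> 0`, `γ <> 0`, `w <> t`,
`c = inl (ln (pt V x) (t + t0))` and, for the `g` of `R`: `g0 = x + α + γ`, `g_i = α t^i + γ w^i` (i = 1, 2, 3); moreover the `b` of
the path has direction `w + t0`.
Proof: path `v - u - c - a - b - y`: `u = inr U`, `U = pt V x` with `x = U_0`; `c = inl p` a line through `U`, `p.1 =: t + t0`, `p.1 <> t0`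
as `c <> v` (`line_eq`); `a = inr A`, `A - U = α (1, p.1, p.1^2, p.1^3)`, `α <> 0` as `a <> u` (`pt_eq`); `b = inl b`, direction `w + t0`,
`<> p.1` as `b <> c`; `y = inr R`, `R - A = γ (1, w + t0, ..)`, `γ <> 0` as `r <> a`. Add: `R - (0,B) = x (1,t0,..) + α (1, t + t0, ..) + γ (1, w + t0, ..)`.

LEMMA 2 (algebra). With `x, t, α, γ, w` as above: `(g1 - t g0)(g3 - t g2) - (g2 - t g1)^2 = - x t (g3 - t g2)` (ring after substitution),
`g3 - t g2 = γ w^2 (w - t)`, `g1 g3 - g2^2 = α γ t w (t - w)^2`. And `g2`, `g3` are not both zero (if `α t^2 + γ w^2 = 0 = α t^3 + γ w^3`,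
then `α t^2 (w - t) = 0`).

PROOF of the theorem. The given path to `r` has `w = b.1 - t0 <> 0`, so `A := g1 g3 - g2^2 <> 0` for the `g` of `r`. Suppose
`Bad`: four different `c_i = f i` with `Cen v r c_i`, `Cen v r' c_i`. `r' = inr R'` with coordinates `g'`. LEMMA 1 for both gives `x_i, t_i`
(`c_i = inl (ln (pt V x_i) (t_i + t0))`) for `r` and `x'_i, t'_i` for `r'` with the same `c_i`: so `t_i = t'_i` (direction of `c_i`) and
`x_i = x'_i` (the lines `c_i` and `V` have different directions, so they meet in one point: from `ln (pt V x) s = ln (pt V x') s`, second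
coordinate: `B1 + t0 x - s x = B1 + t0 x' - s x'`, `s = t + t0 <> t0`).
By LEMMA 2 for `r` and `r'`: `Q(t_i) L'(t_i) = - x_i t_i L(t_i) L'(t_i) = Q'(t_i) L(t_i)`, where `L = g3 - t g2` etc. The `t_i` are different:
if `t_i = t_j`, then from `Q(t) = - x t L(t)`, `t <> 0`, `L(t) <> 0` (`w_i <> 0` for every path to `r`, because `A <> 0`): `x_i = x_j`,
so `c_i = c_j`, `i = j`. Now `zedP_alg` gives `g' = g`, so `R' = R` (solve the triangular system), contradiction to `r' <> r`.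
-/

set_option autoImplicit false

namespace Pool.Agent.Helper32.TU

variable {F : Type} [Field F]

private def g1 (V R : F × F × F × F) : F := (R.2.1 - V.2.1) - V.1 * R.1

private def g2 (V R : F × F × F × F) : F :=
  (R.2.2.1 - V.2.2.1) - 2 * V.1 * (R.2.1 - V.2.1) + V.1 ^ 2 * R.1

private def g3 (V R : F × F × F × F) : F :=
  (R.2.2.2 - V.2.2.2) - 3 * V.1 * (R.2.2.1 - V.2.2.1) + 3 * V.1 ^ 2 * (R.2.1 - V.2.1) -
    V.1 ^ 3 * R.1

private structure Rep (V R : F × F × F × F) (c : WV F) (x t α γ w : F) : Prop where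
  t0 : t ≠ 0
  a0 : α ≠ 0
  c0 : γ ≠ 0
  wt : w ≠ t
  cc : c = Sum.inl (ln (pt V x) (t + V.1))
  e0 : R.1 = x + α + γ
  e1 : g1 V R = α * t + γ * w
  e2 : g2 V R = α * t ^ 2 + γ * w ^ 2
  e3 : g3 V R = α * t ^ 3 + γ * w ^ 3

private theorem rep_of_path {V : F × F × F × F} {b u c a y : WV F}
    (h : Is4 (W F) (Sum.inl V) b u c a) (hby : (W F).Adj b y) (hya : y ≠ a) :
    ∃ (R : F × F × F × F) (x t α γ w : F), y = Sum.inr R ∧ Rep V R c x t α γ w ∧
      ∃ p : F × F × F × F, b = Sum.inl p ∧ p.1 = w + V.1 := by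
  obtain ⟨h1, h2, h3, h4, h5, h6, h7⟩ := h
  obtain ⟨U, rfl, hU⟩ := adj_l h1
  obtain ⟨p, rfl, hp⟩ := adj_r h2
  obtain ⟨A, rfl, hA⟩ := adj_l h4
  obtain ⟨q, rfl, hq⟩ := adj_r h6
  obtain ⟨R, rfl, hR⟩ := adj_l hby
  have hUx : U = pt V U.1 := pt_eq hU (inc_pt V U.1) rfl
  have ht : p.1 - V.1 ≠ 0 := by
    intro e
    apply h3
    rw [line_eq hp hU (sub_eq_zero.1 e)]
  have ha : A.1 - U.1 ≠ 0 := by
    intro e
    apply h5
    rw [pt_eq hA hp (sub_eq_zero.1 e)]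
  have hw : q.1 - V.1 ≠ p.1 - V.1 := by
    intro e
    apply h7
    rw [line_eq hq hA (by linear_combination e)]
  have hg : R.1 - A.1 ≠ 0 := by
    intro e
    apply hya
    rw [pt_eq hR hq (sub_eq_zero.1 e)]
  refine ⟨R, U.1, p.1 - V.1, A.1 - U.1, R.1 - A.1, q.1 - V.1, rfl, ⟨ht, ha, hg, hw, ?_, ?_, ?_, ?_, ?_⟩,
    q, rfl, ?_⟩
  · rw [← hUx]
    congr 1
    refine line_eq hp (inc_ln U _) ?_
    show p.1 = p.1 - V.1 + V.1
    ring
  · ring
  · obtain ⟨a1, a2, a3⟩ := hU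
    obtain ⟨b1, b2, b3⟩ := hp
    obtain ⟨c1, c2, c3⟩ := hA
    obtain ⟨d1, d2, d3⟩ := hq
    obtain ⟨f1, f2, f3⟩ := hR
    show (R.2.1 - V.2.1) - V.1 * R.1 = _
    linear_combination f1 - d1 + c1 - b1 + a1
  · obtain ⟨a1, a2, a3⟩ := hU
    obtain ⟨b1, b2, b3⟩ := hp
    obtain ⟨c1, c2, c3⟩ := hA
    obtain ⟨d1, d2, d3⟩ := hq
    obtain ⟨f1, f2, f3⟩ := hR
    show (R.2.2.1 - V.2.2.1) - 2 * V.1 * (R.2.1 - V.2.1) + V.1 ^ 2 * R.1 = _
    linear_combination (f2 - d2 + c2 - b2 + a2) - 2 * V.1 * (f1 - d1 + c1 - b1 + a1)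
  · obtain ⟨a1, a2, a3⟩ := hU
    obtain ⟨b1, b2, b3⟩ := hp
    obtain ⟨c1, c2, c3⟩ := hA
    obtain ⟨d1, d2, d3⟩ := hq
    obtain ⟨f1, f2, f3⟩ := hR
    show (R.2.2.2 - V.2.2.2) - 3 * V.1 * (R.2.2.1 - V.2.2.1) + 3 * V.1 ^ 2 * (R.2.1 - V.2.1) -
      V.1 ^ 3 * R.1 = _
    linear_combination (f3 - d3 + c3 - b3 + a3) - 3 * V.1 * (f2 - d2 + c2 - b2 + a2) +
      3 * V.1 ^ 2 * (f1 - d1 + c1 - b1 + a1)
  · ring

private theorem rep_A {V R : F × F × F × F} {c : WV F} {x t α γ w : F} (h : Rep V R c x t α γ w) :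
    g1 V R * g3 V R - g2 V R ^ 2 = α * γ * t * w * (t - w) ^ 2 := by
  rw [h.e1, h.e2, h.e3]
  ring

private theorem rep_L {V R : F × F × F × F} {c : WV F} {x t α γ w : F} (h : Rep V R c x t α γ w) :
    g3 V R - t * g2 V R = γ * w ^ 2 * (w - t) := by
  rw [h.e2, h.e3]
  ring

private theorem rep_Q {V R : F × F × F × F} {c : WV F} {x t α γ w : F} (h : Rep V R c x t α γ w) :
    (g1 V R - t * R.1) * (g3 V R - t * g2 V R) - (g2 V R - t * g1 V R) ^ 2 =
      -(x * t * (g3 V R - t * g2 V R)) := by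
  rw [h.e0, h.e1, h.e2, h.e3]
  ring

private theorem rep_ne {V R : F × F × F × F} {c : WV F} {x t α γ w : F} (h : Rep V R c x t α γ w) :
    g2 V R ≠ 0 ∨ g3 V R ≠ 0 := by
  by_contra hc
  push Not at hc
  have h1 : α * t ^ 2 * (w - t) = 0 := by
    linear_combination w * hc.1 - hc.2 - w * h.e2 + h.e3
  rcases mul_eq_zero.1 h1 with h2 | h2
  · rcases mul_eq_zero.1 h2 with h3 | h3
    · exact h.a0 h3
    · exact h.t0 (pow_eq_zero_iff (two_ne_zero) |>.1 h3)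
  · exact h.wt (sub_eq_zero.1 h2)

private theorem rep_unique {V R R' : F × F × F × F} {c : WV F} {x t α γ w x' t' α' γ' w' : F}
    (h : Rep V R c x t α γ w) (h' : Rep V R' c x' t' α' γ' w') : t = t' ∧ x = x' := by
  have h1 := h.cc.symm.trans h'.cc
  have h2 : ln (pt V x) (t + V.1) = ln (pt V x') (t' + V.1) := Sum.inl.inj h1
  have h3 : t + V.1 = t' + V.1 := congrArg Prod.fst h2
  have h4 : t = t' := add_right_cancel h3
  have h5 : (V.2.1 + V.1 * x) - (t + V.1) * x = (V.2.1 + V.1 * x') - (t' + V.1) * x' :=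
    congrArg (fun z => z.2.1) h2
  refine ⟨h4, ?_⟩
  apply mul_left_cancel₀ h.t0
  rw [← h4] at h5
  linear_combination -h5

private theorem g_inj {V R R' : F × F × F × F} (h0 : R'.1 = R.1) (h1 : g1 V R' = g1 V R)
    (h2 : g2 V R' = g2 V R) (h3 : g3 V R' = g3 V R) : R' = R := by
  obtain ⟨r0, r1, r2, r3⟩ := R
  obtain ⟨r0', r1', r2', r3'⟩ := R'
  simp only [g1, g2, g3] at h0 h1 h2 h3
  subst h0
  have e1 : r1' = r1 := by linear_combination h1
  subst e1
  have e2 : r2' = r2 := by linear_combination h2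
  subst e2
  have e3 : r3' = r3 := by linear_combination h3
  rw [e3]

theorem host_zedP (V b r : F × F × F × F) {u c a : WV F} (h : Is4 (W F) (Sum.inl V) (Sum.inl b) u c a)
    (hbr : (W F).Adj (Sum.inl b) (Sum.inr r)) (hra : Sum.inr r ≠ a) (hw : b.1 ≠ V.1) (r' : WV F)
    (hr' : r' ≠ Sum.inr r) : ¬ Bad (W F) (Sum.inl V) (Sum.inr r) r' := by
  rintro ⟨f, hf, hcen⟩
  -- the given path
  obtain ⟨R, x, t, α, γ, w, hR, hrep, p, hp, hpw⟩ := rep_of_path h hbr hra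
  have hRr : r = R := Sum.inr.inj hR
  subst hRr
  have hbp : b = p := Sum.inl.inj hp
  subst hbp
  have hw0 : w ≠ 0 := by
    rintro rfl
    apply hw
    rw [hpw, zero_add]
  have hA : g1 V r * g3 V r - g2 V r ^ 2 ≠ 0 := by
    rw [rep_A hrep]
    exact mul_ne_zero (mul_ne_zero (mul_ne_zero (mul_ne_zero hrep.a0 hrep.c0) hrep.t0) hw0)
      (pow_ne_zero 2 (sub_ne_zero.2 hrep.wt.symm))
  -- the second point
  obtain ⟨R', hR'⟩ : ∃ R' : F × F × F × F, r' = Sum.inr R' := by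
    obtain ⟨u', a', b', h1, h2, h3⟩ := (hcen 0).2
    obtain ⟨R', -, -, -, -, -, h4, -⟩ := rep_of_path h1 h2 h3
    exact ⟨R', h4⟩
  subst hR'
  have hex : ∀ i, ∃ x t α γ w : F, Rep V r (f i) x t α γ w := by
    intro i
    obtain ⟨u', a', b', h1, h2, h3⟩ := (hcen i).1
    obtain ⟨R, x, t, α, γ, w, h4, h5, -⟩ := rep_of_path h1 h2 h3
    have h6 : r = R := Sum.inr.inj h4
    subst h6
    exact ⟨x, t, α, γ, w, h5⟩
  have hex' : ∀ i, ∃ x t α γ w : F, Rep V R' (f i) x t α γ w := by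
    intro i
    obtain ⟨u', a', b', h1, h2, h3⟩ := (hcen i).2
    obtain ⟨R, x, t, α, γ, w, h4, h5, -⟩ := rep_of_path h1 h2 h3
    have h6 : R' = R := Sum.inr.inj h4
    subst h6
    exact ⟨x, t, α, γ, w, h5⟩
  choose X T A C Z hX using hex
  choose X' T' A' C' Z' hX' using hex'
  have hTT : ∀ i, T i = T' i ∧ X i = X' i := fun i => rep_unique (hX i) (hX' i)
  have hL : ∀ i, g3 V r - T i * g2 V r ≠ 0 := by
    intro i
    have h1 := rep_A (hX i)
    have hZ : Z i ≠ 0 := by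
      intro h2
      apply hA
      rw [h1, h2]
      ring
    rw [rep_L (hX i)]
    exact mul_ne_zero (mul_ne_zero (hX i).c0 (pow_ne_zero 2 hZ)) (sub_ne_zero.2 (hX i).wt)
  have hinj : Function.Injective T := by
    intro i j hij
    apply hf
    have h1 := rep_Q (hX i)
    have h2 := rep_Q (hX j)
    rw [hij] at h1
    have h3 : X i = X j := by
      have h4 : T j * (g3 V r - T j * g2 V r) ≠ 0 := mul_ne_zero (hX j).t0 (hL j)
      apply mul_right_cancel₀ h4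
      linear_combination h1 - h2
    rw [(hX i).cc, (hX j).cc, h3, hij]
  obtain ⟨k0, k1, k2, k3⟩ := zedP_alg r.1 (g1 V r) (g2 V r) (g3 V r) R'.1 (g1 V R') (g2 V R')
    (g3 V R') T hinj hA (rep_ne (hX' 0)) (fun i => by
      have h1 := rep_Q (hX i)
      have h2 := rep_Q (hX' i)
      rw [← (hTT i).1, ← (hTT i).2] at h2
      rw [h1, h2]
      ring)
  exact hr' (by rw [g_inj k0 k1 k2 k3])

end Pool.Agent.Helper32.TU
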