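import Pool.Agent.Helper32.TU.HostHeavy
import Pool.Agent.Helper32.TU.HostZedP
import Pool.Agent.Helper32.TU.HostZedL

/-!
# TU-07: `Loc (W F)` in characteristic not 2 (assembly)

`odd, two, three, heavy` are `host_odd, host_two, host_three, host_heavy`.
`zed`: case `v = inl V`: `u = inr`, `c = inl`, `a = inr A`, `b = inl b`, `b' = inl b'` (by `adj_l`, `adj_r`), `r1 = inr ..`. `b`, `b'` are different lines through
`A`, so `b.1 <> b'.1` (`line_eq`), so one of them is `<> V.1`, say `b.1 <> V.1`. `Zed v r1` gives `g 0 <> r1` with `Bad v r1 (g 0)`: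
contradiction to `host_zedP`. Case `v = inr V`: `u = inl p`, `c = inr`, `a = inl`, `b = inr B`, `r1 = inl w1`, `r2 = inl w2`: different lines
through `B`, so `w1.1 <> w2.1`, one of them is `<> p.1`: contradiction to `host_zedL`.
-/

set_option autoImplicit false

namespace Pool.Agent.Helper32.TU

variable {F : Type} [Field F]

theorem loc_W (h2 : (2 : F) ≠ 0) : Loc (W F) := by
  refine ⟨host_odd, host_two, host_three, host_heavy, ?_⟩
  intro v u c a b b' r₁ r₂ r₁' r₂' h h' hb hr hr' k1 k2 k3 k4 k1' k2' k3' k4' z1 z2 z1' z2'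
  obtain ⟨hvu, huc, hcv, hca, hau, hab, hbc⟩ := id h
  obtain ⟨-, -, -, -, -, hab', hbc'⟩ := id h'
  rcases v with V | V
  · obtain ⟨U, rfl, -⟩ := adj_l hvu
    obtain ⟨C, rfl, -⟩ := adj_r huc
    obtain ⟨A, rfl, -⟩ := adj_l hca
    obtain ⟨B, rfl, hB⟩ := adj_r hab
    obtain ⟨B', rfl, hB'⟩ := adj_r hab'
    obtain ⟨R, rfl, hR⟩ := adj_l k1
    obtain ⟨R', rfl, hR'⟩ := adj_l k1'
    have hne : B.1 ≠ B'.1 := fun e => hb (congrArg Sum.inl (line_eq hB hB' e))
    by_cases e : B.1 = V.1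
    · have e' : B'.1 ≠ V.1 := fun e' => hne (e.trans e'.symm)
      obtain ⟨g, hg, hg2⟩ := z1'
      exact host_zedP V B' R' h' k1' k2' e' (g 0) (hg2 0).1 (hg2 0).2
    · obtain ⟨g, hg, hg2⟩ := z1
      exact host_zedP V B R h k1 k2 e (g 0) (hg2 0).1 (hg2 0).2
  · obtain ⟨p, rfl, -⟩ := adj_r hvu
    obtain ⟨C, rfl, -⟩ := adj_l huc
    obtain ⟨A, rfl, -⟩ := adj_r hca
    obtain ⟨B, rfl, hB⟩ := adj_l hab
    obtain ⟨w₁, rfl, hw₁⟩ := adj_r k1
    obtain ⟨w₂, rfl, hw₂⟩ := adj_r k3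
    have hne : w₁.1 ≠ w₂.1 := fun e => hr (congrArg Sum.inl (line_eq hw₁ hw₂ e))
    by_cases e : w₁.1 = p.1
    · have e' : w₂.1 ≠ p.1 := fun e' => hne (e.trans e'.symm)
      exact host_zedL h2 V p w₂ h k3 k4 e' z2
    · exact host_zedL h2 V p w₁ h k1 k2 e z1

end Pool.Agent.Helper32.TU
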