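import Pool.Agent.Helper32.TU.Transfer
import Pool.Agent.Helper32.TU.HostLoc

/-!
# TU-10: the family

`family_enum`: there are finitely many graphs on `Fin 1000` (`SimpleGraph (Fin 1000)` is a finite type: `inferInstance` for `Finite`), so the subtype
`{F // NotHost F}` is finite: take an equivalence with `Fin N` (`Finite.equivFin` or `Fintype.equivFin`).

`free_loc`: `n >= 1000`, `G` on `Fin n` contains no `NotHost` graph. Then `Loc G`. PROOF: by `loc_of_emb`. Given `U`, `card <= 1000`, choose
`U ⊆ U'`, `card U' = 1000` (`Finset.exists_superset_card_eq` or similar; `n >= 1000`), an equivalence or order embedding `e : Fin 1000 -> Fin n` injective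
with range `U'` (`U'.orderEmbOfFin`), `F := G.comap e`. `F.IsContained G` (the copy `e`). So not `NotHost F`: for `q₀ = 3` there is a prime `q >= 3` and a copy
`ψ` of `F` in `W (ZMod q)`. Put `φ x = ψ (e^{-1} x)` for `x` in `U'`, arbitrary otherwise (e.g. `φ = ψ ∘ Function.invFun e` or `Function.extend`).
`EmbOn G (W (ZMod q)) U φ` holds. `Loc (W (ZMod q))` by `loc_W`: `(2 : ZMod q) <> 0` as `q >= 3` is prime
(`ZMod.natCast_self_eq_zero`, `(ZMod.natCast_eq_zero_iff 2 q)`: `q ∣ 2` is impossible).
-/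

set_option autoImplicit false

namespace Pool.Agent.Helper32.TU

theorem family_enum : ∃ (N : ℕ) (H : Fin N → SimpleGraph (Fin 1000)),
    (∀ i, NotHost (H i)) ∧ ∀ F, NotHost F → ∃ i, H i = F := by
  haveI : Finite {F : SimpleGraph (Fin 1000) // NotHost F} := inferInstance
  obtain ⟨N, ⟨e⟩⟩ := Finite.exists_equiv_fin {F : SimpleGraph (Fin 1000) // NotHost F}
  exact ⟨N, fun i => (e.symm i).1, fun i => (e.symm i).2, fun F hF => ⟨e ⟨F, hF⟩, by simp⟩⟩

theorem free_loc {n : ℕ} (hn : 1000 ≤ n) (G : SimpleGraph (Fin n))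
    (h : ∀ F : SimpleGraph (Fin 1000), NotHost F → ¬ F.IsContained G) : Loc G := by
  classical
  apply loc_of_emb
  intro U hU
  obtain ⟨U', hUU', hU'⟩ := Finset.exists_superset_card_eq (s := U) (n := 1000) hU
    (by simpa using hn)
  have hinj : Function.Injective (U'.orderEmbOfFin hU') := (U'.orderEmbOfFin hU').injective
  have hmem : ∀ x ∈ U, ∃ i, U'.orderEmbOfFin hU' i = x := by
    intro x hx
    have : x ∈ Set.range (U'.orderEmbOfFin hU') := by
      rw [Finset.range_orderEmbOfFin]
      exact hUU' hx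
    exact this
  generalize (U'.orderEmbOfFin hU' : Fin 1000 → Fin n) = e at hinj hmem
  have hc : (G.comap e).IsContained G := ⟨⟨⟨e, fun h => h⟩, hinj⟩⟩
  have hnot : ¬ NotHost (G.comap e) := fun hh => h _ hh hc
  unfold NotHost at hnot
  push Not at hnot
  obtain ⟨q, hq, hqp, ⟨ψ⟩⟩ := hnot 3
  have h2 : (2 : ZMod q) ≠ 0 := by
    intro h0
    have h1 : ((2 : ℕ) : ZMod q) = 0 := by exact_mod_cast h0
    rw [ZMod.natCast_eq_zero_iff] at h1
    have := Nat.le_of_dvd (by norm_num) h1
    omega
  have hinv : ∀ x ∈ U, e (Function.invFun e x) = x := fun x hx => Function.invFun_eq (hmem x hx)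
  refine ⟨_, W (ZMod q), fun x => ψ (Function.invFun e x), loc_W h2, ?_, ?_⟩
  · intro x hx y hy hxy
    apply ψ.toHom.map_adj
    rw [SimpleGraph.comap_adj, hinv x hx, hinv y hy]
    exact hxy
  · intro x hx y hy hxy
    have h3 := ψ.injective hxy
    rw [← hinv x hx, ← hinv y hy, h3]

end Pool.Agent.Helper32.TU
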