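import Pool.Agent.Helper32.TU.Host

/-!
# TU-12: the host over `ZMod q` has `2 q^4` vertices and `q^5` edges

PROOF. `card_WV`: `Fintype.card_sum`, `Fintype.card_prod`, `ZMod.card`.
`edges_W`: the map `(p, x) ↦ s(Sum.inl p, Sum.inr (pt p x))` from `(F × F × F × F) × F` to `(W F).edgeSet` is a bijection: every edge is
`s(inl p, inr r)` with `Inc p r`, and then `r = pt p r.1`; injective because `s(inl p, inr r) = s(inl p', inr r')` implies `p = p'`, `r = r'`.
So `ncard = q^4 * q` (`Set.ncard_image_of_injective`, `Set.ncard_univ`, or `Nat.card_congr`).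
`edges_map`: `(W F).map f` has edge set the image of the edge set under the injective map `Sym2.map f` (`SimpleGraph.edgeSet_map`), so the same `ncard`.
-/

set_option autoImplicit false

namespace Pool.Agent.Helper32.TU

theorem card_WV (q : ℕ) [Fact q.Prime] : Fintype.card (WV (ZMod q)) = 2 * q ^ 4 := by
  simp only [WV, Fintype.card_sum, Fintype.card_prod, ZMod.card]
  ring

theorem edges_W (q : ℕ) [Fact q.Prime] : (W (ZMod q)).edgeSet.ncard = q ^ 5 := by
  let f : ((ZMod q × ZMod q × ZMod q × ZMod q) × ZMod q) → Sym2 (WV (ZMod q)) :=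
    fun a => s(Sum.inl a.1, Sum.inr (pt a.1 a.2))
  have hf : Function.Injective f := by
    rintro ⟨p, x⟩ ⟨p', x'⟩ h
    simp only [f, Sym2.eq_iff, reduceCtorEq, and_false, or_false, Sum.inl.injEq, Sum.inr.injEq] at h
    obtain ⟨h1, h2⟩ := h
    have h3 : x = x' := congrArg (fun r => r.1) h2
    rw [h1, h3]
  have himg : (W (ZMod q)).edgeSet = Set.range f := by
    ext e
    induction e using Sym2.ind with
    | _ x y =>
      rw [SimpleGraph.mem_edgeSet]
      constructor
      · intro h
        rcases x with p | r
        · obtain ⟨r, rfl, hr⟩ := adj_l h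
          refine ⟨(p, r.1), ?_⟩
          have : r = pt p r.1 := pt_eq hr (inc_pt p r.1) rfl
          simp only [f]
          rw [← this]
        · obtain ⟨p, rfl, hr⟩ := adj_r h
          refine ⟨(p, r.1), ?_⟩
          have : r = pt p r.1 := pt_eq hr (inc_pt p r.1) rfl
          simp only [f]
          rw [← this]
          exact Sym2.eq_swap
      · rintro ⟨⟨p, z⟩, h⟩
        rw [← SimpleGraph.mem_edgeSet, ← h]
        exact inc_pt p z
  rw [himg, ← Set.image_univ, Set.ncard_image_of_injective _ hf, Set.ncard_univ,
    Nat.card_eq_fintype_card]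
  simp only [Fintype.card_prod, ZMod.card]
  ring

theorem edges_map {V X : Type} (H : SimpleGraph V) (f : V ↪ X) : (H.map f).edgeSet.ncard = H.edgeSet.ncard := by
  rw [SimpleGraph.edgeSet_map]
  exact Set.ncard_image_of_injective _ (Function.Embedding.injective _)

end Pool.Agent.Helper32.TU
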