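import Pool.Agent.Helper32.TU.Remap
import Pool.Agent.Helper32.TU.HostCount
import Pool.Agent.Helper35.SG.PrimeGap

/-!
# TU-13: the lower bound

PROOF. Let `q₁` be larger than the `q₀` of all the finitely many `NotHost` graphs (`SimpleGraph (Fin 1000)` is finite; e.g. choose for every `F` a number
`Q F` which works if `NotHost F`, and `q₁ = ∑ F, Q F` or a `Finset.sup`) and `q₁ >= 1000`.
Given `ε` (WLOG `ε < 1`), take `δ > 0` with `(1 - ε) (1 + δ)^5 <= 1` (e.g. `δ = ε / 31` for `ε <= 1`: `(1 + δ)^5 <= 1 + 31 δ` for `δ <= 1`, and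
`(1 - ε)(1 + ε) <= 1`). `Pool.Agent.Helper35.SG.exists_prime_ratio δ` gives `x₀`: for `x >= x₀` there is a prime `q` with `x < q <= (1 + δ) x`.
For `n` large put `x = (n/2)^(1/4) / (1 + δ)`; then `q <= (n/2)^(1/4)`, so `2 q^4 <= n`, and `q > x` gives
`q^5 >= (n/2)^(5/4) / (1 + δ)^5 >= (1 - ε) (n/2)^(5/4)`; and `x >= q₁` for `n` large (`x -> infinity`).
`G := (W (ZMod q)).map f`, `f : WV (ZMod q) ↪ Fin n` (`Function.Embedding.nonempty_of_card_le`, `card_WV`). `edges_map`, `edges_W`: `q^5` edges. If `NotHost F` and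
`F.IsContained G` then `F.IsContained (W (ZMod q))` by `remap` (`1000 <= 2 q^4`), contradiction to `q >= q₁ >= Q F`.
(Build the import with `lake build Pool.Agent.Helper35.SG.PrimeGap` after copying the closure from `outputs/live`, or state the prime theorem as `sorry`
while developing.)
-/

set_option autoImplicit false

namespace Pool.Agent.Helper32.TU

theorem lower (ε : ℝ) (hε : 0 < ε) : ∃ n₀ : ℕ, ∀ n : ℕ, n₀ ≤ n → ∃ G : SimpleGraph (Fin n),
    (∀ F : SimpleGraph (Fin 1000), NotHost F → ¬ F.IsContained G) ∧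
    (1 - ε) * ((n : ℝ) / 2) ^ ((5 : ℝ) / 4) ≤ (G.edgeSet.ncard : ℝ) := by
  classical
  have hfin : Finite (SimpleGraph (Fin 1000)) := by
    refine Finite.of_injective (fun G : SimpleGraph (Fin 1000) => G.Adj) ?_
    intro G H h
    exact SimpleGraph.ext h
  have hQ : ∀ F : SimpleGraph (Fin 1000), ∃ q₀ : ℕ, NotHost F → ∀ q : ℕ, q₀ ≤ q →
      ∀ [Fact q.Prime], ¬ F.IsContained (W (ZMod q)) := by
    intro F
    by_cases hF : NotHost F
    · obtain ⟨q₀, h⟩ := hF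
      exact ⟨q₀, fun _ => h⟩
    · exact ⟨0, fun h => absurd h hF⟩
  choose Q hQ using hQ
  obtain ⟨q₁, hq₁⟩ := (Set.finite_range Q).bddAbove
  have hq₁' : ∀ F, Q F ≤ q₁ := fun F => hq₁ ⟨F, rfl⟩
  set ε' : ℝ := min ε 1 with hε'
  have hε0 : 0 < ε' := lt_min hε one_pos
  have hε1 : ε' ≤ 1 := min_le_right _ _
  set δ : ℝ := ε' / 31 with hδ
  have hδ0 : 0 < δ := by positivity
  have hδ1 : δ ≤ 1 := by rw [hδ]; linarith
  have hδε : (1 - ε') * (1 + δ) ^ 5 ≤ 1 := by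
    have h1 : (1 + δ) ^ 5 ≤ 1 + 31 * δ := by
      have h2 : δ ^ 2 ≤ δ := by nlinarith
      have h3 : δ ^ 3 ≤ δ := by
        calc δ ^ 3 ≤ δ ^ 1 := pow_le_pow_of_le_one hδ0.le hδ1 (by norm_num)
          _ = δ := pow_one _
      have h4 : δ ^ 4 ≤ δ := by
        calc δ ^ 4 ≤ δ ^ 1 := pow_le_pow_of_le_one hδ0.le hδ1 (by norm_num)
          _ = δ := pow_one _
      have h5 : δ ^ 5 ≤ δ := by
        calc δ ^ 5 ≤ δ ^ 1 := pow_le_pow_of_le_one hδ0.le hδ1 (by norm_num)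
          _ = δ := pow_one _
      nlinarith
    have h2 : 31 * δ = ε' := by rw [hδ]; ring
    rw [h2] at h1
    calc (1 - ε') * (1 + δ) ^ 5 ≤ (1 - ε') * (1 + ε') :=
          mul_le_mul_of_nonneg_left h1 (by linarith)
      _ ≤ 1 := by nlinarith
  obtain ⟨x₀, hx₀⟩ := Pool.Agent.Helper35.SG.exists_prime_ratio δ hδ0
  set M : ℝ := max x₀ (max (q₁ : ℝ) 1000) with hM
  have hM1 : x₀ ≤ M := le_max_left _ _
  have hM2 : (q₁ : ℝ) ≤ M := (le_max_left _ _).trans (le_max_right _ _)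
  have hM3 : (1000 : ℝ) ≤ M := (le_max_right _ _).trans (le_max_right _ _)
  refine ⟨⌈2 * (M * (1 + δ)) ^ 4⌉₊, fun n hn => ?_⟩
  have hn1 : 2 * (M * (1 + δ)) ^ 4 ≤ (n : ℝ) := (Nat.le_ceil _).trans (by exact_mod_cast hn)
  have hM0 : 0 < M * (1 + δ) := by nlinarith
  set y : ℝ := ((n : ℝ) / 2) ^ (1 / 4 : ℝ) with hy
  have hn0 : 0 ≤ (n : ℝ) / 2 := by positivity
  have hy0 : 0 ≤ y := Real.rpow_nonneg hn0 _
  have hy4 : y ^ 4 = (n : ℝ) / 2 := by
    rw [hy, ← Real.rpow_natCast, ← Real.rpow_mul hn0]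
    norm_num
  have hy5 : y ^ 5 = ((n : ℝ) / 2) ^ ((5 : ℝ) / 4) := by
    rw [hy, ← Real.rpow_natCast, ← Real.rpow_mul hn0]
    norm_num
  have hyM : M * (1 + δ) ≤ y := by
    have h1 : (M * (1 + δ)) ^ 4 ≤ y ^ 4 := by rw [hy4]; linarith
    exact (pow_le_pow_iff_left₀ hM0.le hy0 (by norm_num)).1 h1
  have h1δ : 0 < 1 + δ := by linarith
  have hX : M ≤ y / (1 + δ) := by rw [le_div_iff₀ h1δ]; exact hyM
  obtain ⟨q, hqp, hq1, hq2⟩ := hx₀ (y / (1 + δ)) (hM1.trans hX)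
  have hq3 : (q : ℝ) ≤ y := by
    refine hq2.trans (le_of_eq ?_)
    field_simp
  haveI : Fact q.Prime := ⟨hqp⟩
  have hqn : 2 * q ^ 4 ≤ n := by
    have h1 : (q : ℝ) ^ 4 ≤ (n : ℝ) / 2 := by
      rw [← hy4]
      exact pow_le_pow_left₀ (by positivity) hq3 4
    have h2 : (2 * q ^ 4 : ℝ) ≤ n := by linarith
    exact_mod_cast h2
  have hq1000 : 1000 ≤ q := by
    have h1 : (1000 : ℝ) ≤ q := (hM3.trans hX).trans hq1.le
    exact_mod_cast h1
  have hqq₁ : q₁ ≤ q := by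
    have h1 : (q₁ : ℝ) ≤ q := (hM2.trans hX).trans hq1.le
    exact_mod_cast h1
  have hcard := card_WV q
  obtain ⟨f⟩ : Nonempty (WV (ZMod q) ↪ Fin n) := by
    apply Function.Embedding.nonempty_of_card_le
    rw [hcard, Fintype.card_fin]
    exact hqn
  refine ⟨(W (ZMod q)).map f, ?_, ?_⟩
  · intro F hF hc
    have h1 : 1000 ≤ Fintype.card (WV (ZMod q)) := by
      rw [hcard]
      have h2 : q ≤ q ^ 4 := Nat.le_self_pow (by norm_num) q
      omega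
    exact hQ F hF q ((hq₁' F).trans hqq₁) (remap F (W (ZMod q)) f h1 hc)
  · rw [edges_map, edges_W]
    rw [← hy5]
    have h1 : y ≤ q * (1 + δ) := by
      rw [div_lt_iff₀ h1δ] at hq1
      exact hq1.le
    have h2 : y ^ 5 ≤ (q : ℝ) ^ 5 * (1 + δ) ^ 5 := by
      rw [← mul_pow]
      exact pow_le_pow_left₀ hy0 h1 5
    have h3 : 1 - ε ≤ 1 - ε' := by
      have := min_le_left ε (1 : ℝ)
      linarith
    push_cast
    calc (1 - ε) * y ^ 5 ≤ (1 - ε') * y ^ 5 := mul_le_mul_of_nonneg_right h3 (by positivity)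
      _ ≤ (1 - ε') * ((q : ℝ) ^ 5 * (1 + δ) ^ 5) := mul_le_mul_of_nonneg_left h2 (by linarith)
      _ = (q : ℝ) ^ 5 * ((1 - ε') * (1 + δ) ^ 5) := by ring
      _ ≤ (q : ℝ) ^ 5 * 1 := mul_le_mul_of_nonneg_left hδε (by positivity)
      _ = (q : ℝ) ^ 5 := mul_one _

end Pool.Agent.Helper32.TU
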