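import Pool.Agent.Helper32.TU.RsCard

/-!
# TU-21: the degrees are bounded by the number of vertices; disjointness

`max_deg`. Count the set `P` of quadruples `(u, c, a, b)` with `Is4 G v b u c a` and `¬ Heavy G v b`.
Lower bound: `u ∈ nb v`; `c ∈ (nb u).erase v` (`>= δ - 1`); `a ∈ (nb c).erase u` (`>= δ - 1`); `b ∈ (nb a).erase c`, not heavy: `>= δ - 1 - 1` because by `hG.heavy` at most
one `b` is heavy. So `|P| >= dg v (δ-1)^2 (δ-2)`.
Upper bound: for each `b` which is not heavy there are at most two triples `(u, c, a)` (three different triples are an injective `Fin 3 -> V × V × V`, i.e. `Heavy`):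
`|P| <= 2 card V`. (`P : Finset (V × V × V × V)`; sum over `b` with `Finset.card_eq_sum_card_fiberwise` for the projection to `b`.)

`ys_disj`: a common element `r` gives nb paths `v - u - c - a - b - r` and `w - u' - c' - a' - b' - r`: `hG.odd`.
-/

set_option autoImplicit false

namespace Pool.Agent.Helper32.TU

open Finset

variable {V : Type} [Fintype V]

private theorem erase_ge (G : SimpleGraph V) [DecidableEq V] {δ : ℕ} (h : ∀ x, δ ≤ dg G x) {x y : V}
    (hxy : G.Adj x y) : δ - 1 ≤ ((nb G x).erase y).card := by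
  rw [card_erase_of_mem ((mem_nb G x y).2 hxy)]
  have := h x
  unfold dg at this
  omega

theorem max_deg (G : SimpleGraph V) (hG : Loc G) {δ : ℕ} (hδ : 3 ≤ δ) (h : ∀ x, δ ≤ dg G x) (v : V) :
    dg G v * ((δ - 1) ^ 2 * (δ - 2)) ≤ 2 * Fintype.card V := by
  classical
  let I : V × V × V → V → ℕ := fun t b =>
    if Is4 G v b t.1 t.2.1 t.2.2 ∧ ¬ Heavy G v b then 1 else 0
  have hlow : ∀ u c a : V, G.Adj v u → G.Adj u c → c ≠ v → G.Adj c a → a ≠ u →
      δ - 2 ≤ ∑ b, I (u, c, a) b := by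
    intro u c a h1 h2 h3 h4 h5
    have h6 : ∑ b, I (u, c, a) b =
        (univ.filter (fun b => Is4 G v b u c a ∧ ¬ Heavy G v b)).card := by
      rw [card_filter]
    have h7 : (((nb G a).erase c).filter (fun b => Heavy G v b)).card ≤ 1 := by
      rw [card_le_one]
      intro b hb b' hb'
      rw [mem_filter, mem_erase, mem_nb] at hb hb'
      by_contra hne
      exact hG.heavy v u c a b b' ⟨h1, h2, h3, h4, h5, hb.1.2, hb.1.1⟩
        ⟨h1, h2, h3, h4, h5, hb'.1.2, hb'.1.1⟩ hne hb.2 hb'.2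
    have h8 := card_filter_add_card_filter_not (s := (nb G a).erase c) (fun b => Heavy G v b)
    have h9 : ((nb G a).erase c).filter (fun b => ¬ Heavy G v b) ⊆
        univ.filter (fun b => Is4 G v b u c a ∧ ¬ Heavy G v b) := by
      intro b hb
      rw [mem_filter, mem_erase, mem_nb] at hb
      rw [mem_filter]
      exact ⟨mem_univ _, ⟨h1, h2, h3, h4, h5, hb.1.2, hb.1.1⟩, hb.2⟩
    have h10 := card_le_card h9
    have h11 := erase_ge G h h4.symm
    rw [h6]
    omega
  have hA : ∀ u c : V, G.Adj v u → G.Adj u c → c ≠ v →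
      (δ - 1) * (δ - 2) ≤ ∑ a, ∑ b, I (u, c, a) b := by
    intro u c h1 h2 h3
    calc (δ - 1) * (δ - 2) ≤ ((nb G c).erase u).card * (δ - 2) :=
          Nat.mul_le_mul_right _ (erase_ge G h h2.symm)
      _ ≤ ∑ a ∈ (nb G c).erase u, ∑ b, I (u, c, a) b := by
          rw [← smul_eq_mul]
          refine card_nsmul_le_sum _ _ _ fun a ha => ?_
          rw [mem_erase, mem_nb] at ha
          exact hlow u c a h1 h2 h3 ha.2 ha.1
      _ ≤ ∑ a, ∑ b, I (u, c, a) b := sum_le_sum_of_subset (subset_univ _)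
  have hC : ∀ u : V, G.Adj v u → (δ - 1) * ((δ - 1) * (δ - 2)) ≤ ∑ c, ∑ a, ∑ b, I (u, c, a) b := by
    intro u h1
    calc (δ - 1) * ((δ - 1) * (δ - 2)) ≤ ((nb G u).erase v).card * ((δ - 1) * (δ - 2)) :=
          Nat.mul_le_mul_right _ (erase_ge G h h1.symm)
      _ ≤ ∑ c ∈ (nb G u).erase v, ∑ a, ∑ b, I (u, c, a) b := by
          rw [← smul_eq_mul]
          refine card_nsmul_le_sum _ _ _ fun c hc => ?_
          rw [mem_erase, mem_nb] at hc
          exact hA u c h1 hc.2 hc.1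
      _ ≤ ∑ c, ∑ a, ∑ b, I (u, c, a) b := sum_le_sum_of_subset (subset_univ _)
  have hU : dg G v * ((δ - 1) * ((δ - 1) * (δ - 2))) ≤ ∑ u, ∑ c, ∑ a, ∑ b, I (u, c, a) b := by
    calc dg G v * ((δ - 1) * ((δ - 1) * (δ - 2)))
        ≤ ∑ u ∈ nb G v, ∑ c, ∑ a, ∑ b, I (u, c, a) b := by
          unfold dg
          rw [← smul_eq_mul (nb G v).card]
          refine card_nsmul_le_sum _ _ _ fun u hu => ?_
          rw [mem_nb] at hu
          exact hC u hu
      _ ≤ ∑ u, ∑ c, ∑ a, ∑ b, I (u, c, a) b := sum_le_sum_of_subset (subset_univ _)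
  have hswap : ∑ u, ∑ c, ∑ a, ∑ b, I (u, c, a) b = ∑ b, ∑ t, I t b := by
    have hc : ∑ b, ∑ t, I t b = ∑ t, ∑ b, I t b := sum_comm
    rw [hc, Fintype.sum_prod_type]
    refine sum_congr rfl fun u _ => ?_
    rw [Fintype.sum_prod_type]
  have hup : ∀ b, ∑ t, I t b ≤ 2 := by
    intro b
    have h1 : ∑ t, I t b =
        (univ.filter (fun t : V × V × V => Is4 G v b t.1 t.2.1 t.2.2 ∧ ¬ Heavy G v b)).card := by
      rw [card_filter]
    rw [h1]
    by_contra hcon
    push Not at hcon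
    obtain ⟨x, y, z, hx, hy, hz, hxy, hxz, hyz⟩ := two_lt_card_iff.1 hcon
    rw [mem_filter] at hx hy hz
    apply hx.2.2
    refine ⟨![x, y, z], ?_, ?_⟩
    · intro i j hij
      fin_cases i <;> fin_cases j <;> simp_all
    · intro i
      fin_cases i
      · exact hx.2.1
      · exact hy.2.1
      · exact hz.2.1
  calc dg G v * ((δ - 1) ^ 2 * (δ - 2)) = dg G v * ((δ - 1) * ((δ - 1) * (δ - 2))) := by ring
    _ ≤ ∑ b, ∑ t, I t b := hU.trans hswap.le
    _ ≤ ∑ _b : V, 2 := sum_le_sum fun b _ => hup b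
    _ = 2 * Fintype.card V := by rw [sum_const, card_univ, smul_eq_mul, mul_comm]

theorem ys_disj (G : SimpleGraph V) (hG : Loc G) {v w : V} (h : G.Adj v w) : Disjoint (Ys G v) (Ys G w) := by
  classical
  rw [disjoint_left]
  intro r hr hr'
  unfold Ys at hr hr'
  rw [mem_filter] at hr hr'
  obtain ⟨-, c, u, a, b, h1, h2, -⟩ := hr
  obtain ⟨-, c', u', a', b', h3, h4, -⟩ := hr'
  exact hG.odd v w r u c a b u' c' a' b' h h1.1 h1.2.1 h1.2.2.2.1 h1.2.2.2.2.2.1 h2
    h3.1 h3.2.1 h3.2.2.2.1 h3.2.2.2.2.2.1 h4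

end Pool.Agent.Helper32.TU
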