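import Pool.Agent.Helper32.TU.RsCard

/-!
# TU-26: a subgraph with large minimum degree; the handshake lemma

`prune`. For `S : Finset (Fin n)` put `f S = ∑ x ∈ S, card {y ∈ S | G.Adj x y} - 2 τ |S|` (real). Take `S` with `f S` maximal (`Finset.exists_max_image` over `univ`).
`f univ = ∑ dg - 2 τ n <= f S`, and `card {y ∈ S | x ~ y} = dg (G.comap val) x` for `x ∈ S` (bijection with the subtype), so the second claim holds (`2 τ |S| >= 0`).
For `x ∈ S`: `f (S.erase x) = f S - 2 d_S(x) + 2 τ` (`x` loses its own term `d_S(x)` and each of its `d_S(x)` neighbours loses 1), and `f (S.erase x) <= f S`: so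
`d_S(x) >= τ`.
`sum_dg`: `∑ x, dg x = 2 * ncard edgeSet`: Mathlib `SimpleGraph.sum_degrees_eq_twice_card_edges` with `dg = degree` (`G.neighborFinset x = nb G x`), classical decidability,
`edgeFinset.card = edgeSet.ncard` (`Set.ncard_eq_toFinset_card'`, `SimpleGraph.edgeFinset`).
-/

set_option autoImplicit false

namespace Pool.Agent.Helper32.TU

open Finset

open scoped Classical in
/-- the degree inside `S` -/
noncomputable def dS {n : ℕ} (G : SimpleGraph (Fin n)) (S : Finset (Fin n)) (x : Fin n) : ℕ :=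
  (S.filter (fun y => G.Adj x y)).card

theorem dg_comap_val {n : ℕ} (G : SimpleGraph (Fin n)) (S : Finset (Fin n)) (x : {x // x ∈ S}) :
    dg (G.comap (Subtype.val : {x // x ∈ S} → Fin n)) x = dS G S x.1 := by
  classical
  unfold dg nb dS
  apply Finset.card_bij (fun y _ => y.1)
  · intro y hy
    simp only [Finset.mem_filter, Finset.mem_univ, true_and, SimpleGraph.comap_adj] at hy ⊢
    exact ⟨y.2, hy⟩
  · intro a _ b _ h
    exact Subtype.ext h
  · intro b hb
    simp only [Finset.mem_filter] at hb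
    refine ⟨⟨b, hb.1⟩, ?_, rfl⟩
    simp only [Finset.mem_filter, Finset.mem_univ, true_and, SimpleGraph.comap_adj]
    exact hb.2

theorem dS_erase {n : ℕ} (G : SimpleGraph (Fin n)) (S : Finset (Fin n)) (x : Fin n) (hx : x ∈ S) :
    ∑ y ∈ S, (dS G S y : ℝ) = ∑ y ∈ S.erase x, (dS G (S.erase x) y : ℝ) + 2 * dS G S x := by
  classical
  have h1 : ∀ y ∈ S.erase x, (dS G S y : ℝ) = dS G (S.erase x) y + if G.Adj x y then 1 else 0 := by
    intro y _
    unfold dS
    rw [Finset.filter_erase]
    by_cases hxy : G.Adj x y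
    · rw [if_pos hxy]
      have hm : x ∈ S.filter (fun z => G.Adj y z) := by
        rw [Finset.mem_filter]
        exact ⟨hx, hxy.symm⟩
      rw [← Finset.card_erase_add_one hm]
      push_cast
      ring
    · rw [if_neg hxy]
      rw [Finset.erase_eq_of_notMem]
      · ring
      · rw [Finset.mem_filter]
        rintro ⟨_, h⟩
        exact hxy h.symm
  rw [← Finset.add_sum_erase S _ hx, Finset.sum_congr rfl h1, Finset.sum_add_distrib]
  have h2 : ∑ y ∈ S.erase x, (if G.Adj x y then (1 : ℝ) else 0) = dS G S x := by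
    rw [Finset.sum_boole]
    unfold dS
    rw [Finset.filter_erase, Finset.erase_eq_of_notMem]
    rw [Finset.mem_filter]
    rintro ⟨_, h⟩
    exact G.loopless.irrefl x h
  rw [h2]
  ring

theorem prune {n : ℕ} (G : SimpleGraph (Fin n)) (τ : ℝ) (hτ : 0 ≤ τ) : ∃ S : Finset (Fin n),
    (∀ x : {x // x ∈ S}, τ ≤ (dg (G.comap (Subtype.val : {x // x ∈ S} → Fin n)) x : ℝ)) ∧
    (∑ x, (dg G x : ℝ)) - 2 * τ * n ≤ ∑ x : {x // x ∈ S}, (dg (G.comap (Subtype.val : {x // x ∈ S} → Fin n)) x : ℝ) := by
  classical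
  obtain ⟨S, _, hS⟩ := Finset.exists_max_image (Finset.univ : Finset (Finset (Fin n)))
    (fun S => ∑ x ∈ S, (dS G S x : ℝ) - 2 * τ * S.card) ⟨∅, Finset.mem_univ _⟩
  refine ⟨S, ?_, ?_⟩
  · intro x
    rw [dg_comap_val]
    have h1 := hS (S.erase x.1) (Finset.mem_univ _)
    have h2 := dS_erase G S x.1 x.2
    have h3 : ((S.erase x.1).card : ℝ) = S.card - 1 := by
      rw [← Finset.card_erase_add_one x.2]
      push_cast
      ring
    simp only [h3] at h1
    linarith
  · have h1 := hS Finset.univ (Finset.mem_univ _)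
    have h2 : ∑ x : {x // x ∈ S}, (dg (G.comap (Subtype.val : {x // x ∈ S} → Fin n)) x : ℝ) =
        ∑ x ∈ S, (dS G S x : ℝ) := by
      rw [← Finset.sum_coe_sort S]
      exact Finset.sum_congr rfl fun x _ => by rw [dg_comap_val]
    have h3 : ∑ x, (dg G x : ℝ) = ∑ x, (dS G Finset.univ x : ℝ) := rfl
    have h4 : (0 : ℝ) ≤ τ * S.card := by positivity
    simp only [Finset.card_univ, Fintype.card_fin] at h1
    rw [h2, h3]
    linarith

theorem sum_dg {V : Type} [Fintype V] (G : SimpleGraph V) : ∑ x, (dg G x : ℝ) = 2 * (G.edgeSet.ncard : ℝ) := by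
  classical
  have h1 : ∀ x, dg G x = G.degree x := by
    intro x
    unfold dg nb
    rw [← SimpleGraph.card_neighborFinset_eq_degree]
    congr 1
    ext y
    simp
  have h2 := G.sum_degrees_eq_twice_card_edges
  have h3 : G.edgeSet.ncard = G.edgeFinset.card := by
    rw [Set.ncard_eq_toFinset_card', SimpleGraph.edgeFinset]
  rw [h3]
  simp only [h1]
  exact_mod_cast h2

end Pool.Agent.Helper32.TU
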