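import Pool.Agent.Helper32.TU.Wit

/-!
# TU-09: `Loc` is a property of the sets of at most 1000 vertices

PROOF. Each field of `Loc` has a fixed number of vertex variables and hypotheses which are edges, inequalities and patterns Heavy (2 times) or Zed
(4 times). Take `U` = all the vertex variables together with the witness sets of `wit_heavy` or `wit_zed` (at most `11 + 4 * 144 < 1000` vertices),
get a graph `H` with `Loc H` and `φ` with `EmbOn G H U φ`, transport all hypotheses, and apply the field of `Loc H`: for the fields `odd, heavy, zed` this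
gives `False`, for `two, three` it gives `φ u = φ u'` etc., hence `u = u'` by injectivity on `U`. (Inequalities `x <> y` between vertices of `U` go to
`φ x <> φ y`.) For the card bounds use `Finset.card_union_le` and `Finset.card_insert_le` / `Finset.card_le_six` or write the variables as
`(List).toFinset` with `List.toFinset_card_le`.
`loc_comap`: the same argument is not needed: `Loc` passes to `G.comap f` for injective `f`: every hypothesis for `G.comap f` is the hypothesis for
`G` with `f` applied (`Is4`, `Heavy`, `Bad`, `Zed`, `Cen` go forward along an injective homomorphism: `EmbOn` with any `U` works too; for Fintype-free proofs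
use the definitions directly, or use `loc_of_emb` with `H = G`, `φ = f`).
-/

set_option autoImplicit false

namespace Pool.Agent.Helper32.TU

private theorem get_emb {V : Type} {G : SimpleGraph V}
    (h : ∀ U : Finset V, U.card ≤ 1000 → ∃ (X : Type) (H : SimpleGraph X) (φ : V → X),
      Loc H ∧ EmbOn G H U φ) (L : List V) (S : Finset V) (hc : L.length + S.card ≤ 1000) :
    ∃ (X : Type) (H : SimpleGraph X) (φ : V → X) (U : Finset V), Loc H ∧ EmbOn G H U φ ∧
      (∀ x ∈ L, x ∈ U) ∧ S ⊆ U ∧
      (∀ x y, x ∈ L → y ∈ L → G.Adj x y → H.Adj (φ x) (φ y)) ∧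
      (∀ x y, x ∈ L → y ∈ L → x ≠ y → φ x ≠ φ y) := by
  classical
  obtain ⟨X, H, φ, hH, e⟩ := h (L.toFinset ∪ S) (by
    refine (Finset.card_union_le _ _).trans ?_
    have := L.toFinset_card_le
    omega)
  have hL : ∀ x ∈ L, x ∈ L.toFinset ∪ S := fun x hx =>
    Finset.mem_union_left _ (List.mem_toFinset.2 hx)
  exact ⟨X, H, φ, _, hH, e, hL, Finset.subset_union_right,
    fun x y hx hy => e.1 x (hL x hx) y (hL y hy),
    fun x y hx hy hne heq => hne (e.2 (Finset.mem_coe.2 (hL x hx)) (Finset.mem_coe.2 (hL y hy)) heq)⟩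

theorem loc_of_emb {V : Type} (G : SimpleGraph V)
    (h : ∀ U : Finset V, U.card ≤ 1000 → ∃ (X : Type) (H : SimpleGraph X) (φ : V → X), Loc H ∧ EmbOn G H U φ) :
    Loc G := by
  classical
  refine ⟨?_, ?_, ?_, ?_, ?_⟩
  · intro v w r u c a b u' c' a' b' h1 h2 h3 h4 h5 h6 h7 h8 h9 h10 h11
    obtain ⟨X, H, φ, U, hH, -, -, -, m, -⟩ := get_emb h [v, w, r, u, c, a, b, u', c', a', b'] ∅
      (by simp)
    exact hH.odd (φ v) (φ w) (φ r) (φ u) (φ c) (φ a) (φ b) (φ u') (φ c') (φ a') (φ b')
      (m _ _ (by simp) (by simp) h1) (m _ _ (by simp) (by simp) h2)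
      (m _ _ (by simp) (by simp) h3) (m _ _ (by simp) (by simp) h4)
      (m _ _ (by simp) (by simp) h5) (m _ _ (by simp) (by simp) h6)
      (m _ _ (by simp) (by simp) h7) (m _ _ (by simp) (by simp) h8)
      (m _ _ (by simp) (by simp) h9) (m _ _ (by simp) (by simp) h10)
      (m _ _ (by simp) (by simp) h11)
  · intro v u u' c h1 h2 h3 h4 h5
    obtain ⟨X, H, φ, U, hH, -, -, -, m, n⟩ := get_emb h [v, u, u', c] ∅ (by simp)
    by_contra hne
    exact n u u' (by simp) (by simp) hne (hH.two (φ v) (φ u) (φ u') (φ c)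
      (n _ _ (by simp) (by simp) h1) (m _ _ (by simp) (by simp) h2)
      (m _ _ (by simp) (by simp) h3) (m _ _ (by simp) (by simp) h4)
      (m _ _ (by simp) (by simp) h5))
  · intro c a b r a' b' h1 h2 h3 h4 h5 h6 h7 h8 h9 h10
    obtain ⟨X, H, φ, U, hH, -, -, -, m, n⟩ := get_emb h [c, a, b, r, a', b'] ∅ (by simp)
    obtain ⟨k1, k2⟩ := hH.three (φ c) (φ a) (φ b) (φ r) (φ a') (φ b')
      (m _ _ (by simp) (by simp) h1) (m _ _ (by simp) (by simp) h2)
      (n _ _ (by simp) (by simp) h3) (m _ _ (by simp) (by simp) h4)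
      (n _ _ (by simp) (by simp) h5) (m _ _ (by simp) (by simp) h6)
      (m _ _ (by simp) (by simp) h7) (n _ _ (by simp) (by simp) h8)
      (m _ _ (by simp) (by simp) h9) (n _ _ (by simp) (by simp) h10)
    constructor
    · by_contra hne
      exact n _ _ (by simp) (by simp) hne k1
    · by_contra hne
      exact n _ _ (by simp) (by simp) hne k2
  · intro v u c a b b' i1 i2 hbb hv hv'
    obtain ⟨S1, hS1, t1⟩ := wit_heavy hv
    obtain ⟨S2, hS2, t2⟩ := wit_heavy hv'
    have hcard : [v, u, c, a, b, b'].length + (S1 ∪ S2).card ≤ 1000 := by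
      have h1 := Finset.card_union_le S1 S2
      simp only [List.length_cons, List.length_nil]
      omega
    obtain ⟨X, H, φ, U, hH, e, l, sub, m, n⟩ := get_emb h [v, u, c, a, b, b'] (S1 ∪ S2) hcard
    exact hH.heavy (φ v) (φ u) (φ c) (φ a) (φ b) (φ b')
      (emb_is4 e i1 (l _ (by simp)) (l _ (by simp)) (l _ (by simp)) (l _ (by simp)) (l _ (by simp)))
      (emb_is4 e i2 (l _ (by simp)) (l _ (by simp)) (l _ (by simp)) (l _ (by simp)) (l _ (by simp)))
      (n _ _ (by simp) (by simp) hbb)
      (t1 X H U φ (Finset.subset_union_left.trans sub) e)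
      (t2 X H U φ (Finset.subset_union_right.trans sub) e)
  · intro v u c a b b' r₁ r₂ r₁' r₂' i1 i2 hbb hr hr' a1 n1 a2 n2 a3 n3 a4 n4 z1 z2 z3 z4
    obtain ⟨S1, hS1, t1⟩ := wit_zed z1
    obtain ⟨S2, hS2, t2⟩ := wit_zed z2
    obtain ⟨S3, hS3, t3⟩ := wit_zed z3
    obtain ⟨S4, hS4, t4⟩ := wit_zed z4
    have hcard : [v, u, c, a, b, b', r₁, r₂, r₁', r₂'].length +
        ((S1 ∪ S2) ∪ (S3 ∪ S4)).card ≤ 1000 := by
      have h1 := Finset.card_union_le S1 S2
      have h2 := Finset.card_union_le S3 S4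
      have h3 := Finset.card_union_le (S1 ∪ S2) (S3 ∪ S4)
      simp only [List.length_cons, List.length_nil]
      omega
    obtain ⟨X, H, φ, U, hH, e, l, sub, m, n⟩ :=
      get_emb h [v, u, c, a, b, b', r₁, r₂, r₁', r₂'] ((S1 ∪ S2) ∪ (S3 ∪ S4)) hcard
    have sub1 : S1 ∪ S2 ⊆ U := Finset.subset_union_left.trans sub
    have sub2 : S3 ∪ S4 ⊆ U := Finset.subset_union_right.trans sub
    exact hH.zed (φ v) (φ u) (φ c) (φ a) (φ b) (φ b') (φ r₁) (φ r₂) (φ r₁') (φ r₂')
      (emb_is4 e i1 (l _ (by simp)) (l _ (by simp)) (l _ (by simp)) (l _ (by simp)) (l _ (by simp)))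
      (emb_is4 e i2 (l _ (by simp)) (l _ (by simp)) (l _ (by simp)) (l _ (by simp)) (l _ (by simp)))
      (n _ _ (by simp) (by simp) hbb) (n _ _ (by simp) (by simp) hr)
      (n _ _ (by simp) (by simp) hr')
      (m _ _ (by simp) (by simp) a1) (n _ _ (by simp) (by simp) n1)
      (m _ _ (by simp) (by simp) a2) (n _ _ (by simp) (by simp) n2)
      (m _ _ (by simp) (by simp) a3) (n _ _ (by simp) (by simp) n3)
      (m _ _ (by simp) (by simp) a4) (n _ _ (by simp) (by simp) n4)
      (t1 X H U φ (Finset.subset_union_left.trans sub1) e)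
      (t2 X H U φ (Finset.subset_union_right.trans sub1) e)
      (t3 X H U φ (Finset.subset_union_left.trans sub2) e)
      (t4 X H U φ (Finset.subset_union_right.trans sub2) e)

theorem loc_comap {V X : Type} (G : SimpleGraph X) (f : V → X) (hf : Function.Injective f) (hG : Loc G) :
    Loc (G.comap f) :=
  loc_of_emb (G.comap f) fun U _ => ⟨X, G, f, hG, fun _ _ _ _ h => h, hf.injOn⟩

end Pool.Agent.Helper32.TU
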