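import Pool.Agent.Helper32.TU.Local
import Pool.Agent.Helper32.TU.MaxDeg
import Pool.Agent.Helper32.TU.EdgeEx
import Pool.Agent.Helper32.TU.Prune
import Pool.Agent.Helper32.TU.Transfer

/-!
# TU-27: the upper bound

PROOF. WLOG `ε <= 1`. `η = ε/8`, `K = 8 * 32 / η^4` (large), `ε1 = ε/2`, `δ₀` from `local_bound ε1 K`. Suppose `e = ncard > (1 + ε) (n/2)^(5/4)`, put `x = (n/2)^(1/4)`, so
`(n/2)^(5/4) = x^5`, `n = 2 x^4`, `2 e / n > (1 + ε) x`.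
`τ = η e / n > η x / 2`. `prune G τ` gives `S`, `G' = G.comap val` on `V' = {x // x ∈ S}`, `N = card V' <= n`, `D' := ∑ dg G' >= 2 e - 2 η e = 2 (1 - η) e > 0` (`sum_dg`), so `V'` is
nonempty. `Loc G'` by `loc_comap`. `δ := ⌈τ⌉₊ <= dg G'`, `δ >= τ > η x / 2`, so `n = 2 x^4 <= 2 (2 δ / η)^4 = 32 δ^4 / η^4`.
For `n` large `δ >= max δ₀ 6`. `max_deg`: `dg v (δ-1)^2 (δ-2) <= 2 N <= 64 δ^4 / η^4` and `(δ-1)^2 (δ-2) >= δ^3 / 4` for `δ >= 6`, so `dg v <= 256 δ / η^4 = K δ`. `N <= n <= K δ^4`.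
`local_bound`: `Tc v <= (1 + ε1) |Ys v|^2` for all `v`. `edge_exists`: an edge `v w` with `(m - 1)^16 <= t2 v t2 w = Tc v Tc w` (`tc_eq`), `m = D' / N`.
`Ys v`, `Ys w` are disjoint (`ys_disj`), so `|Ys v| + |Ys w| <= N` and `|Ys v| |Ys w| <= (N/2)^2`. So
`(m - 1)^16 <= (1 + ε1)^2 (|Ys v| |Ys w|)^2 <= (1 + ε1)^2 (N/2)^4 <= (1 + ε1)^2 (n/2)^4 = (1 + ε1)^2 x^16`.
But `m = D'/N >= 2 (1 - η) e / n > (1 - η)(1 + ε) x >= (1 + ε/2) x` (`(1 - ε/8)(1 + ε) >= 1 + ε/2` for `ε <= 1`), so `m - 1 > (1 + ε/2) x - 1 >= (1 + ε/4) x` for `x >= 4/ε`, and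
`(1 + ε/4)^16 >= (1 + ε/2)^2`: `(m - 1)^16 > (1 + ε/4)^16 x^16 >= (1 + ε/2)^2 x^16`. Contradiction.
-/

set_option autoImplicit false

namespace Pool.Agent.Helper32.TU

open Finset

theorem upper1 (ε : ℝ) (hε : 0 < ε) (hε1 : ε ≤ 1) : ∃ n₀ : ℕ, ∀ n : ℕ, n₀ ≤ n →
    ∀ G : SimpleGraph (Fin n), Loc G →
    (G.edgeSet.ncard : ℝ) ≤ (1 + ε) * ((n : ℝ) / 2) ^ ((5 : ℝ) / 4) := by
  classical
  obtain ⟨η, hη⟩ : ∃ η : ℝ, η = ε / 8 := ⟨_, rfl⟩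
  have hη0 : 0 < η := by rw [hη]; positivity
  have hη1 : η ≤ 1 / 8 := by rw [hη]; linarith
  obtain ⟨K, hK⟩ : ∃ K : ℝ, K = 256 / η ^ 4 := ⟨_, rfl⟩
  have hη4 : 0 < η ^ 4 := by positivity
  have hK1 : 1 ≤ K := by
    rw [hK, le_div_iff₀ hη4]
    have : η ^ 4 ≤ 1 := pow_le_one₀ hη0.le (by linarith)
    linarith
  obtain ⟨δ₀, hloc⟩ := local_bound (ε / 2) K (by positivity) hK1
  obtain ⟨X, hX⟩ : ∃ X : ℝ, X = 4 / ε + 2 * (δ₀ + 6) / η := ⟨_, rfl⟩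
  have hX1 : 4 / ε ≤ X := by
    rw [hX]
    have : (0 : ℝ) ≤ 2 * (δ₀ + 6) / η := by positivity
    linarith
  have hX2 : 2 * (δ₀ + 6) / η ≤ X := by
    rw [hX]
    have : (0 : ℝ) ≤ 4 / ε := by positivity
    linarith
  have hX0 : 0 < X := lt_of_lt_of_le (by positivity) hX1
  refine ⟨⌈2 * X ^ 4⌉₊ + 1, fun n hn G hG => ?_⟩
  by_contra hcon
  push Not at hcon
  have hn' : 2 * X ^ 4 ≤ (n : ℝ) := by
    have h1 := Nat.le_ceil (2 * X ^ 4)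
    have h2 : ((⌈2 * X ^ 4⌉₊ : ℕ) : ℝ) ≤ n := by exact_mod_cast (Nat.le_of_succ_le hn)
    linarith
  have hn0 : (0 : ℝ) < n := lt_of_lt_of_le (by positivity) hn'
  have hn2 : (0 : ℝ) ≤ (n : ℝ) / 2 := by positivity
  obtain ⟨x, hx⟩ : ∃ x : ℝ, x = ((n : ℝ) / 2) ^ ((1 : ℝ) / 4) := ⟨_, rfl⟩
  have hx0 : 0 ≤ x := by rw [hx]; exact Real.rpow_nonneg hn2 _
  have hx4 : x ^ 4 = (n : ℝ) / 2 := by
    rw [hx, ← Real.rpow_natCast, ← Real.rpow_mul hn2]; norm_num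
  have hx5 : ((n : ℝ) / 2) ^ ((5 : ℝ) / 4) = x ^ 5 := by
    rw [hx, ← Real.rpow_natCast, ← Real.rpow_mul hn2]; norm_num
  have hxX : X ≤ x := by
    by_contra h
    push Not at h
    have := pow_lt_pow_left₀ h hx0 (by norm_num : (4 : ℕ) ≠ 0)
    rw [hx4] at this
    linarith
  have hxp : 0 < x := lt_of_lt_of_le hX0 hxX
  have hnx : (n : ℝ) = 2 * x ^ 4 := by rw [hx4]; ring
  rw [hx5] at hcon
  obtain ⟨e, he⟩ : ∃ e : ℝ, e = (G.edgeSet.ncard : ℝ) := ⟨_, rfl⟩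
  rw [← he] at hcon
  have hx4p : 0 < x ^ 4 := by positivity
  have he0 : 0 < e := lt_of_le_of_lt (by positivity) hcon
  obtain ⟨τ, hτ⟩ : ∃ τ : ℝ, τ = η * e / n := ⟨_, rfl⟩
  have hτn : τ * n = η * e := by rw [hτ]; field_simp
  have hτ0 : 0 ≤ τ := by rw [hτ]; positivity
  have hτx : η * x / 2 ≤ τ := by
    rw [hτ, le_div_iff₀ hn0, hnx]
    have h1 : x ^ 5 ≤ e := by nlinarith [pow_pos hxp 5]
    calc η * x / 2 * (2 * x ^ 4) = η * x ^ 5 := by ring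
      _ ≤ η * e := by gcongr
  obtain ⟨S, hmin, hsum⟩ := prune G τ hτ0
  set G' := G.comap (Subtype.val : {x // x ∈ S} → Fin n) with hG'
  have hL' : Loc G' := loc_comap G _ Subtype.val_injective hG
  obtain ⟨D', hD'⟩ : ∃ D' : ℝ, D' = ∑ x, (dg G' x : ℝ) := ⟨_, rfl⟩
  have hD1 : 2 * (1 - η) * e ≤ D' := by
    rw [sum_dg, ← he] at hsum
    rw [hD']
    refine le_trans (le_of_eq ?_) hsum
    linear_combination 2 * hτn
  have hD0 : 0 < D' := lt_of_lt_of_le (by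
    have : 0 < 1 - η := by linarith
    positivity) hD1
  have hNe : Nonempty {x // x ∈ S} := by
    by_contra hne
    rw [not_nonempty_iff] at hne
    rw [hD'] at hD0
    simp at hD0
  obtain ⟨N, hN⟩ : ∃ N : ℕ, N = Fintype.card {x // x ∈ S} := ⟨_, rfl⟩
  have hNn : (N : ℝ) ≤ n := by
    rw [hN]
    have : Fintype.card {x // x ∈ S} ≤ Fintype.card (Fin n) := Fintype.card_subtype_le _
    rw [Fintype.card_fin] at this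
    exact_mod_cast this
  have hN0 : (0 : ℝ) < N := by
    rw [hN]
    exact_mod_cast Fintype.card_pos
  obtain ⟨δ, hδ⟩ : ∃ δ : ℕ, δ = ⌈τ⌉₊ := ⟨_, rfl⟩
  have hδτ : τ ≤ δ := by rw [hδ]; exact Nat.le_ceil _
  have hδm : ∀ x, δ ≤ dg G' x := fun x => by rw [hδ]; exact Nat.ceil_le.2 (hmin x)
  have hδb : (δ₀ : ℝ) + 6 ≤ δ := by
    have h1 : 2 * (δ₀ + 6) / η ≤ x := hX2.trans hxX
    rw [div_le_iff₀ hη0] at h1
    linarith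
  have hδ0 : δ₀ ≤ δ := by
    have : (δ₀ : ℝ) ≤ δ := by linarith
    exact_mod_cast this
  have hδ6 : 6 ≤ δ := by
    have : (6 : ℝ) ≤ δ := by
      have : (0 : ℝ) ≤ δ₀ := Nat.cast_nonneg _
      linarith
    exact_mod_cast this
  have hδ6' : (6 : ℝ) ≤ δ := by exact_mod_cast hδ6
  have hnδ : (n : ℝ) * η ^ 4 ≤ 32 * (δ : ℝ) ^ 4 := by
    have h1 : η * x ≤ 2 * δ := by linarith
    have h2 : (η * x) ^ 4 ≤ (2 * (δ : ℝ)) ^ 4 := pow_le_pow_left₀ (by positivity) h1 4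
    calc (n : ℝ) * η ^ 4 = 2 * (η * x) ^ 4 := by rw [hnx]; ring
      _ ≤ 2 * (2 * (δ : ℝ)) ^ 4 := by linarith
      _ = 32 * (δ : ℝ) ^ 4 := by ring
  have hmax : ∀ v, (dg G' v : ℝ) ≤ K * δ := by
    intro v
    have h1 := max_deg G' hL' (by omega) hδm v
    have h2 : (dg G' v : ℝ) * (((δ : ℝ) - 1) ^ 2 * ((δ : ℝ) - 2)) ≤ 2 * N := by
      have h3 : ((dg G' v * ((δ - 1) ^ 2 * (δ - 2)) : ℕ) : ℝ) ≤ ((2 * Fintype.card {x // x ∈ S} : ℕ) : ℝ) := by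
        exact_mod_cast h1
      rw [← hN] at h3
      push_cast [Nat.cast_sub (show 1 ≤ δ by omega), Nat.cast_sub (show 2 ≤ δ by omega)] at h3
      exact h3
    have h4 : (δ : ℝ) ^ 3 / 4 ≤ ((δ : ℝ) - 1) ^ 2 * ((δ : ℝ) - 2) := by
      nlinarith [mul_nonneg (sub_nonneg.2 hδ6') (sq_nonneg (δ : ℝ)), sq_nonneg (δ : ℝ), mul_nonneg (sub_nonneg.2 hδ6') (sub_nonneg.2 hδ6'),
        mul_nonneg (mul_nonneg (sub_nonneg.2 hδ6') (sub_nonneg.2 hδ6')) (sub_nonneg.2 hδ6')]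
    have h5 : (dg G' v : ℝ) * ((δ : ℝ) ^ 3 / 4) ≤ 2 * n := by
      have h6 : (dg G' v : ℝ) * ((δ : ℝ) ^ 3 / 4) ≤ (dg G' v : ℝ) * (((δ : ℝ) - 1) ^ 2 * ((δ : ℝ) - 2)) :=
        mul_le_mul_of_nonneg_left h4 (Nat.cast_nonneg _)
      linarith
    have hδ3 : (0 : ℝ) < (δ : ℝ) ^ 3 := by positivity
    rw [hK, div_mul_eq_mul_div, le_div_iff₀ hη4]
    have h7 : (dg G' v : ℝ) * η ^ 4 * (δ : ℝ) ^ 3 ≤ 256 * δ * (δ : ℝ) ^ 3 := by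
      calc (dg G' v : ℝ) * η ^ 4 * (δ : ℝ) ^ 3 = 4 * ((dg G' v : ℝ) * ((δ : ℝ) ^ 3 / 4)) * η ^ 4 := by ring
        _ ≤ 4 * (2 * n) * η ^ 4 := by gcongr
        _ = 8 * (n * η ^ 4) := by ring
        _ ≤ 8 * (32 * (δ : ℝ) ^ 4) := by linarith
        _ = 256 * δ * (δ : ℝ) ^ 3 := by ring
    exact le_of_mul_le_mul_right h7 hδ3
  have hcard : ((Fintype.card {x // x ∈ S} : ℕ) : ℝ) ≤ K * (δ : ℝ) ^ 4 := by
    rw [← hN, hK, div_mul_eq_mul_div, le_div_iff₀ hη4]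
    have h1 : (N : ℝ) * η ^ 4 ≤ n * η ^ 4 := by gcongr
    have h2 : (0 : ℝ) ≤ (δ : ℝ) ^ 4 := by positivity
    linarith
  have hT := hloc δ hδ0 G' hL' hδm hmax hcard
  obtain ⟨v, w, hvw, hedge⟩ := edge_exists G' (fun x => (show 2 ≤ δ by omega).trans (hδm x))
  rw [← tc_eq G' hL', ← tc_eq G' hL', ← hD', ← hN] at hedge
  have hdis : ((Ys G' v).card : ℝ) + (Ys G' w).card ≤ N := by
    have h1 : (Ys G' v ∪ Ys G' w).card ≤ Fintype.card {x // x ∈ S} := Finset.card_le_univ _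
    rw [Finset.card_union_of_disjoint (ys_disj G' hL' hvw), ← hN] at h1
    exact_mod_cast h1
  obtain ⟨y1, hy1⟩ : ∃ y1 : ℝ, y1 = ((Ys G' v).card : ℝ) := ⟨_, rfl⟩
  obtain ⟨y2, hy2⟩ : ∃ y2 : ℝ, y2 = ((Ys G' w).card : ℝ) := ⟨_, rfl⟩
  have hy10 : 0 ≤ y1 := by rw [hy1]; exact Nat.cast_nonneg _
  have hy20 : 0 ≤ y2 := by rw [hy2]; exact Nat.cast_nonneg _
  have hTv := hT v
  have hTw := hT w
  rw [← hy1] at hTv hdis
  rw [← hy2] at hTw hdis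
  have hprod : (Tc G' v : ℝ) * Tc G' w ≤ (1 + ε / 2) ^ 2 * x ^ 16 := by
    have h1 : (Tc G' v : ℝ) * Tc G' w ≤ ((1 + ε / 2) * y1 ^ 2) * ((1 + ε / 2) * y2 ^ 2) :=
      mul_le_mul hTv hTw (Nat.cast_nonneg _) (by positivity)
    have h2 : y1 * y2 ≤ (x ^ 4) ^ 2 := by
      have h3 : y1 + y2 ≤ 2 * x ^ 4 := by linarith
      nlinarith [sq_nonneg (y1 - y2)]
    have h4 : (y1 * y2) ^ 2 ≤ ((x ^ 4) ^ 2) ^ 2 := pow_le_pow_left₀ (by positivity) h2 2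
    calc (Tc G' v : ℝ) * Tc G' w ≤ ((1 + ε / 2) * y1 ^ 2) * ((1 + ε / 2) * y2 ^ 2) := h1
      _ = (1 + ε / 2) ^ 2 * (y1 * y2) ^ 2 := by ring
      _ ≤ (1 + ε / 2) ^ 2 * ((x ^ 4) ^ 2) ^ 2 := by gcongr
      _ = (1 + ε / 2) ^ 2 * x ^ 16 := by ring
  have hm : (1 + ε / 2) * x ≤ D' / N := by
    rw [le_div_iff₀ hN0]
    have h1 : (1 + ε / 2) * x * N ≤ (1 + ε / 2) * x * n := by gcongr
    have h2 : (1 + ε / 2) * x * n ≤ D' := by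
      refine le_trans ?_ hD1
      rw [hnx]
      have h3 : (1 - η) * ((1 + ε) * x ^ 5) ≤ (1 - η) * e :=
        mul_le_mul_of_nonneg_left hcon.le (by linarith)
      have h4 : (1 + ε / 2) ≤ (1 - η) * (1 + ε) := by rw [hη]; nlinarith
      have h5 : (1 + ε / 2) * x ^ 5 ≤ (1 - η) * (1 + ε) * x ^ 5 := by gcongr
      calc (1 + ε / 2) * x * (2 * x ^ 4) = 2 * ((1 + ε / 2) * x ^ 5) := by ring
        _ ≤ 2 * ((1 - η) * (1 + ε) * x ^ 5) := by linarith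
        _ = 2 * ((1 - η) * ((1 + ε) * x ^ 5)) := by ring
        _ ≤ 2 * ((1 - η) * e) := by linarith
        _ = 2 * (1 - η) * e := by ring
    linarith
  have hx4e : 1 ≤ ε / 4 * x := by
    have h1 : 4 / ε ≤ x := hX1.trans hxX
    rw [div_le_iff₀ hε] at h1
    linarith
  have hm1 : (1 + ε / 4) * x ≤ D' / N - 1 := by linarith
  have hm2 : ((1 + ε / 4) * x) ^ 16 ≤ (D' / N - 1) ^ 16 := pow_le_pow_left₀ (by positivity) hm1 16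
  have hx16 : 0 < x ^ 16 := by positivity
  have h8 : (1 + ε / 2) ^ 2 < (1 + ε / 4) ^ 16 := by
    have h1 : 1 + ε / 2 < (1 + ε / 4) ^ 2 := by nlinarith
    have h2 : (1 + ε / 2) ^ 2 < ((1 + ε / 4) ^ 2) ^ 2 := pow_lt_pow_left₀ h1 (by positivity) (by norm_num)
    have h3 : ((1 + ε / 4) ^ 2) ^ 2 ≤ (1 + ε / 4) ^ 16 := by
      rw [← pow_mul]
      exact pow_le_pow_right₀ (by linarith) (by norm_num)
    linarith
  have h9 : (1 + ε / 2) ^ 2 * x ^ 16 < (1 + ε / 4) ^ 16 * x ^ 16 := mul_lt_mul_of_pos_right h8 hx16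
  rw [mul_pow] at hm2
  linarith

theorem upper (ε : ℝ) (hε : 0 < ε) : ∃ n₀ : ℕ, ∀ n : ℕ, n₀ ≤ n → ∀ G : SimpleGraph (Fin n), Loc G →
    (G.edgeSet.ncard : ℝ) ≤ (1 + ε) * ((n : ℝ) / 2) ^ ((5 : ℝ) / 4) := by
  obtain ⟨n₀, h⟩ := upper1 (min ε 1) (lt_min hε one_pos) (min_le_right _ _)
  refine ⟨n₀, fun n hn G hG => (h n hn G hG).trans ?_⟩
  have h1 : (0 : ℝ) ≤ ((n : ℝ) / 2) ^ ((5 : ℝ) / 4) := by positivity
  have h2 : min ε 1 ≤ ε := min_le_left _ _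
  gcongr

end Pool.Agent.Helper32.TU
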