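import Pool.Agent.Helper32.TU.Family
import Pool.Agent.Helper32.TU.Lower
import Pool.Agent.Helper32.TU.Upper

/-!
# TU-28: assembly: a finite family with `ex(n, L) / n^(5/4) → (1/2)^(5/4)`
-/

set_option autoImplicit false

namespace Pool.Agent.Helper32.TU

open Filter

theorem final : ∃ (m : ℕ) (k : Fin m → ℕ) (H : (i : Fin m) → SimpleGraph (Fin (k i))),
    Tendsto
      (fun n : ℕ =>
        ((sSup {e : ℕ | ∃ G : SimpleGraph (Fin n),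
            (∀ i, ¬ (H i).IsContained G) ∧ G.edgeSet.ncard = e} : ℕ) : ℝ)
          / (n : ℝ) ^ ((5 : ℝ) / 4))
      atTop (nhds ((1 / 2 : ℝ) ^ ((5 : ℝ) / 4))) := by
  obtain ⟨N, H, hH, hH'⟩ := family_enum
  refine ⟨N, fun _ => 1000, H, ?_⟩
  set c : ℝ := (1 / 2 : ℝ) ^ ((5 : ℝ) / 4) with hc
  have hc0 : 0 < c := Real.rpow_pos_of_pos (by norm_num) _
  rw [Metric.tendsto_atTop]
  intro ε hε
  have hε' : 0 < ε / (2 * c) := by positivity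
  obtain ⟨n1, h1⟩ := lower (ε / (2 * c)) hε'
  obtain ⟨n2, h2⟩ := upper (ε / (2 * c)) hε'
  refine ⟨max (max n1 n2) 1000, fun n hn => ?_⟩
  have hn1 : n1 ≤ n := (le_max_left _ _).trans ((le_max_left _ _).trans hn)
  have hn2 : n2 ≤ n := (le_max_right _ _).trans ((le_max_left _ _).trans hn)
  have hn3 : 1000 ≤ n := (le_max_right _ _).trans hn
  set A : Set ℕ := {e : ℕ | ∃ G : SimpleGraph (Fin n),
            (∀ i, ¬ (H i).IsContained G) ∧ G.edgeSet.ncard = e} with hA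
  have hfree : ∀ G : SimpleGraph (Fin n), (∀ i, ¬ (H i).IsContained G) ↔
      ∀ F : SimpleGraph (Fin 1000), NotHost F → ¬ F.IsContained G := by
    intro G
    constructor
    · intro h F hF
      obtain ⟨i, rfl⟩ := hH' F hF
      exact h i
    · intro h i
      exact h _ (hH i)
  have hup : ∀ e ∈ A, (e : ℝ) ≤ (1 + ε / (2 * c)) * ((n : ℝ) / 2) ^ ((5 : ℝ) / 4) := by
    rintro e ⟨G, hG, rfl⟩
    exact h2 n hn2 G (free_loc hn3 G ((hfree G).1 hG))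
  have hbdd : BddAbove A := by
    refine ⟨⌊(1 + ε / (2 * c)) * ((n : ℝ) / 2) ^ ((5 : ℝ) / 4)⌋₊, fun e he => Nat.le_floor (hup e he)⟩
  obtain ⟨G, hG, hGe⟩ := h1 n hn1
  have hmem : G.edgeSet.ncard ∈ A := ⟨G, (hfree G).2 hG, rfl⟩
  have hsup1 : (G.edgeSet.ncard : ℝ) ≤ ((sSup A : ℕ) : ℝ) := by
    exact_mod_cast le_csSup hbdd hmem
  have hsup2 : ((sSup A : ℕ) : ℝ) ≤ (1 + ε / (2 * c)) * ((n : ℝ) / 2) ^ ((5 : ℝ) / 4) :=
    hup _ (Nat.sSup_mem ⟨_, hmem⟩ hbdd)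
  have hn0 : (0 : ℝ) < n := by
    have : 0 < n := by omega
    exact_mod_cast this
  have hpow : ((n : ℝ) / 2) ^ ((5 : ℝ) / 4) = c * (n : ℝ) ^ ((5 : ℝ) / 4) := by
    rw [hc, div_eq_mul_one_div, mul_comm, Real.mul_rpow (by norm_num) hn0.le]
  have hP : 0 < (n : ℝ) ^ ((5 : ℝ) / 4) := Real.rpow_pos_of_pos hn0 _
  rw [Real.dist_eq, abs_lt]
  rw [hpow] at hsup2 hGe
  have hl : (1 - ε / (2 * c)) * (c * (n : ℝ) ^ ((5 : ℝ) / 4)) ≤ ((sSup A : ℕ) : ℝ) := hGe.trans hsup1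
  have e1 : (1 - ε / (2 * c)) * (c * (n : ℝ) ^ ((5 : ℝ) / 4)) = (c - ε / 2) * (n : ℝ) ^ ((5 : ℝ) / 4) := by
    field_simp
  have e2 : (1 + ε / (2 * c)) * (c * (n : ℝ) ^ ((5 : ℝ) / 4)) = (c + ε / 2) * (n : ℝ) ^ ((5 : ℝ) / 4) := by
    field_simp
  rw [e1] at hl
  rw [e2] at hsup2
  have k1 : c - ε / 2 ≤ ((sSup A : ℕ) : ℝ) / (n : ℝ) ^ ((5 : ℝ) / 4) := by
    rw [le_div_iff₀ hP]; exact hl
  have k2 : ((sSup A : ℕ) : ℝ) / (n : ℝ) ^ ((5 : ℝ) / 4) ≤ c + ε / 2 := by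
    rw [div_le_iff₀ hP]; exact hsup2
  constructor <;> linarith

end Pool.Agent.Helper32.TU
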