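import Pool.Agent.Helper32.TU.Defs

/-! # TU: basic facts about the host -/

set_option autoImplicit false

namespace Pool.Agent.Helper32.TU

variable {F : Type} [Field F]

theorem adj_lr (p r : F × F × F × F) : (W F).Adj (Sum.inl p) (Sum.inr r) ↔ Inc p r := Iff.rfl

theorem adj_rl (p r : F × F × F × F) : (W F).Adj (Sum.inr r) (Sum.inl p) ↔ Inc p r := Iff.rfl

theorem not_adj_ll (p p' : F × F × F × F) : ¬ (W F).Adj (Sum.inl p) (Sum.inl p') := id

theorem not_adj_rr (r r' : F × F × F × F) : ¬ (W F).Adj (Sum.inr r) (Sum.inr r') := id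

theorem adj_l {p : F × F × F × F} {x : WV F} (h : (W F).Adj (Sum.inl p) x) :
    ∃ r, x = Sum.inr r ∧ Inc p r := by
  rcases x with p' | r
  · exact h.elim
  · exact ⟨r, rfl, h⟩

theorem adj_r {r : F × F × F × F} {x : WV F} (h : (W F).Adj (Sum.inr r) x) :
    ∃ p, x = Sum.inl p ∧ Inc p r := by
  rcases x with p | r'
  · exact ⟨p, rfl, h⟩
  · exact h.elim

theorem adj_side {x y : WV F} (h : (W F).Adj x y) : x.isLeft = !y.isLeft := by
  rcases x with p | r <;> rcases y with p' | r'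
  · exact h.elim
  · rfl
  · rfl
  · exact h.elim

/-- a line is determined by a point and its direction -/
theorem line_eq {p p' r : F × F × F × F} (h : Inc p r) (h' : Inc p' r) (e : p.1 = p'.1) : p = p' := by
  obtain ⟨t, b1, b2, b3⟩ := p
  obtain ⟨t', b1', b2', b3'⟩ := p'
  obtain ⟨r0, r1, r2, r3⟩ := r
  simp only [Inc] at h h' e
  subst e
  obtain ⟨h1, h2, h3⟩ := h
  obtain ⟨h1', h2', h3'⟩ := h'
  have e1 : b1 = b1' := by linear_combination h1' - h1
  have e2 : b2 = b2' := by linear_combination h2' - h2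
  have e3 : b3 = b3' := by linear_combination h3' - h3
  rw [e1, e2, e3]

/-- a point is determined by a line and its first coordinate -/
theorem pt_eq {p r r' : F × F × F × F} (h : Inc p r) (h' : Inc p r') (e : r.1 = r'.1) : r = r' := by
  obtain ⟨t, b1, b2, b3⟩ := p
  obtain ⟨r0, r1, r2, r3⟩ := r
  obtain ⟨r0', r1', r2', r3'⟩ := r'
  simp only [Inc] at h h' e
  subst e
  obtain ⟨h1, h2, h3⟩ := h
  obtain ⟨h1', h2', h3'⟩ := h'
  rw [h1, h2, h3, h1', h2', h3']

/-- the line through `r` in direction `t` -/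
def ln (r : F × F × F × F) (t : F) : F × F × F × F :=
  (t, r.2.1 - t * r.1, r.2.2.1 - t ^ 2 * r.1, r.2.2.2 - t ^ 3 * r.1)

theorem inc_ln (r : F × F × F × F) (t : F) : Inc (ln r t) r := by
  simp only [Inc, ln]
  refine ⟨by ring, by ring, by ring⟩

/-- the point of `p` with first coordinate `x` -/
def pt (p : F × F × F × F) (x : F) : F × F × F × F :=
  (x, p.2.1 + p.1 * x, p.2.2.1 + p.1 ^ 2 * x, p.2.2.2 + p.1 ^ 3 * x)

theorem inc_pt (p : F × F × F × F) (x : F) : Inc p (pt p x) := ⟨rfl, rfl, rfl⟩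

end Pool.Agent.Helper32.TU
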