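import Pool.Agent.Helper32.TU.Host

/-!
# TU-01: the host is bipartite, has no C4 and no C6

`Host.lean` has: `adj_l`, `adj_r` (neighbours of a line `inl p` are points `inr r` with `Inc p r` and vice versa),
`adj_side` (an edge changes the side), `line_eq`, `pt_eq`.

PROOFS. `host_odd`: by `adj_side` 11 times, `v.isLeft = !w.isLeft`, and `r.isLeft = !v.isLeft` (5 steps), `r.isLeft = !w.isLeft` (5 steps),
so `v.isLeft = w.isLeft`: contradiction (Bool: rewrite, `cases`, `simp`).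

`host_two` (`c <> v`, `v - u - c`, `v - u' - c`, then `u = u'`).
(a) `v = inl p`, `c = inl p'`, `u = inr r`, `u' = inr r'`. `r_i = b_i + t^i r_0 = b'_i + t'^i r_0`, same for `r'`.
If `t = t'` then `p = p'` by `line_eq`, contradiction. Subtract the equations `i = 1` for `r` and `r'`: `(t - t') (r_0 - r'_0) = 0`, so
`r_0 = r'_0` and `pt_eq`.
(b) `v = inr r`, `c = inr r'`, `u = inl p`, `u' = inl p'`. `r_i - r'_i = t^i (r_0 - r'_0) = t'^i (r_0 - r'_0)`. If `r_0 = r'_0` then `r = r'`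
(`pt_eq`), contradiction; so (i = 1) `t = t'` and `line_eq`.

`host_three` (two nb 3-paths `c - a - b - r`, `c - a' - b' - r` agree).
First the case `c = inr C` (point), `a = inl p`, `b = inr B`, `r = inl s`: `a' = inl p'`, `b' = inr B'`. Directions `t = p.1`, `t' = p'.1`,
`w = s.1`. `B - C = x (1, t, t^2, t^3)`, `x = B_0 - C_0 <> 0` (otherwise `B = C` by `pt_eq`); `B' - C = x' (1, t', ..)`, `x' <> 0`;
`B - B' = y (1, w, ..)`, `y = B_0 - B'_0 = x - x'`; `w <> t` (otherwise `r = a` by `line_eq` as both pass through `B`), `w <> t'`.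
So `x t^i - x' t'^i = (x - x') w^i` for `i = 1, 2, 3`. i = 1: `x (t - w) = x' (t' - w)`; i = 2: `x (t - w)(t + w) = x' (t' - w)(t' + w)`.
Hence `x (t - w) (t - t') = 0`, so `t = t'`, then `x = x'`; so `B = B'` (`pt_eq`, `a = a'` by `line_eq` through `C`).
The case `c = inl` (line), `r` a point: reverse the two paths (`r - b - a - c` is an nb path from a point to a line: `a <> r`, `c <> b`) and
use the first case: `b = b'` and `a = a'`.
-/

set_option autoImplicit false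

namespace Pool.Agent.Helper32.TU

variable {F : Type} [Field F]

/-- two lines through two common points -/
private lemma two_lines {p p' r r' : F × F × F × F} (h1 : Inc p r) (h2 : Inc p' r)
    (h3 : Inc p r') (h4 : Inc p' r') : p = p' ∨ r = r' := by
  have h1' := h1
  have h2' := h2
  have h3' := h3
  obtain ⟨a1, -, -⟩ := h1
  obtain ⟨a2, -, -⟩ := h2
  obtain ⟨a3, -, -⟩ := h3
  obtain ⟨a4, -, -⟩ := h4
  have e : (p.1 - p'.1) * (r.1 - r'.1) = 0 := by
    linear_combination a2 - a1 + a3 - a4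
  rcases mul_eq_zero.1 e with e1 | e1
  · exact Or.inl (line_eq h1' h2' (sub_eq_zero.1 e1))
  · exact Or.inr (pt_eq h1' h3' (sub_eq_zero.1 e1))

/-- no hexagon: two paths point, line, point, line with the same ends agree -/
private lemma three_pt {C B B' p p' s : F × F × F × F} (h1 : Inc p C) (h2 : Inc p B) (h3 : B ≠ C)
    (h4 : Inc s B) (h5 : s ≠ p) (k1 : Inc p' C) (k2 : Inc p' B') (k3 : B' ≠ C)
    (k4 : Inc s B') (k5 : s ≠ p') : p = p' ∧ B = B' := by
  have hx : B.1 - C.1 ≠ 0 := fun e => h3 (pt_eq h2 h1 (sub_eq_zero.1 e))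
  have hw : p.1 - s.1 ≠ 0 := fun e => h5 (line_eq h4 h2 (sub_eq_zero.1 e).symm)
  obtain ⟨a1, a2, -⟩ := id h1
  obtain ⟨b1, b2, -⟩ := id h2
  obtain ⟨c1, c2, -⟩ := id h4
  obtain ⟨d1, d2, -⟩ := id k1
  obtain ⟨e1, e2, -⟩ := id k2
  obtain ⟨f1, f2, -⟩ := id k4
  have g1 : (B.1 - C.1) * (p.1 - s.1) = (B'.1 - C.1) * (p'.1 - s.1) := by
    linear_combination a1 - b1 + c1 - d1 + e1 - f1
  have g2 : (B.1 - C.1) * (p.1 ^ 2 - s.1 ^ 2) = (B'.1 - C.1) * (p'.1 ^ 2 - s.1 ^ 2) := by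
    linear_combination a2 - b2 + c2 - d2 + e2 - f2
  have g3 : (B.1 - C.1) * (p.1 - s.1) * (p.1 - p'.1) = 0 := by
    linear_combination g2 - (p'.1 + s.1) * g1
  have g4 : p.1 = p'.1 := by
    rcases mul_eq_zero.1 g3 with g | g
    · exact absurd g (mul_ne_zero hx hw)
    · exact sub_eq_zero.1 g
  have g5 : p = p' := line_eq h1 k1 g4
  refine ⟨g5, ?_⟩
  subst g5
  refine pt_eq h2 k2 ?_
  have g6 : (B.1 - B'.1) * (p.1 - s.1) = 0 := by
    linear_combination g1
  rcases mul_eq_zero.1 g6 with g | g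
  · exact sub_eq_zero.1 g
  · exact absurd g hw

theorem host_odd (v w r u c a b u' c' a' b' : WV F) (h : (W F).Adj v w)
    (h1 : (W F).Adj v u) (h2 : (W F).Adj u c) (h3 : (W F).Adj c a) (h4 : (W F).Adj a b) (h5 : (W F).Adj b r)
    (k1 : (W F).Adj w u') (k2 : (W F).Adj u' c') (k3 : (W F).Adj c' a') (k4 : (W F).Adj a' b')
    (k5 : (W F).Adj b' r) : False := by
  have e0 := adj_side h
  rw [adj_side h1, adj_side h2, adj_side h3, adj_side h4, adj_side h5, adj_side k1, adj_side k2,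
    adj_side k3, adj_side k4, adj_side k5] at e0
  cases hr : r.isLeft <;> simp [hr] at e0

theorem host_two (v u u' c : WV F) (hcv : c ≠ v) (h1 : (W F).Adj v u) (h2 : (W F).Adj u c)
    (h3 : (W F).Adj v u') (h4 : (W F).Adj u' c) : u = u' := by
  rcases v with p | r
  · obtain ⟨r, rfl, a1⟩ := adj_l h1
    obtain ⟨p', rfl, a2⟩ := adj_r h2
    obtain ⟨r', rfl, a3⟩ := adj_l h3
    obtain ⟨p'', e, a4⟩ := adj_r h4
    obtain rfl := Sum.inl_injective e
    rcases two_lines a1 a2 a3 a4 with e | e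
    · exact absurd (congrArg Sum.inl e.symm) hcv
    · rw [e]
  · obtain ⟨p, rfl, a1⟩ := adj_r h1
    obtain ⟨r', rfl, a2⟩ := adj_l h2
    obtain ⟨p', rfl, a3⟩ := adj_r h3
    obtain ⟨r'', e, a4⟩ := adj_l h4
    obtain rfl := Sum.inr_injective e
    rcases two_lines a1 a3 a2 a4 with e | e
    · rw [e]
    · exact absurd (congrArg Sum.inr e.symm) hcv

theorem host_three (c a b r a' b' : WV F) (h1 : (W F).Adj c a) (h2 : (W F).Adj a b) (h3 : b ≠ c)
    (h4 : (W F).Adj b r) (h5 : r ≠ a) (k1 : (W F).Adj c a') (k2 : (W F).Adj a' b') (k3 : b' ≠ c)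
    (k4 : (W F).Adj b' r) (k5 : r ≠ a') : a = a' ∧ b = b' := by
  rcases c with S | C
  · obtain ⟨A, rfl, a1⟩ := adj_l h1
    obtain ⟨P, rfl, a2⟩ := adj_r h2
    obtain ⟨R, rfl, a3⟩ := adj_l h4
    obtain ⟨A', rfl, b1⟩ := adj_l k1
    obtain ⟨P', rfl, b2⟩ := adj_r k2
    obtain ⟨R', e, b3⟩ := adj_l k4
    obtain rfl := Sum.inr_injective e
    obtain ⟨e1, e2⟩ := three_pt a3 a2 (fun e => h5 (congrArg Sum.inr e.symm)) a1
      (fun e => h3 (congrArg Sum.inl e.symm)) b3 b2 (fun e => k5 (congrArg Sum.inr e.symm)) b1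
      (fun e => k3 (congrArg Sum.inl e.symm))
    rw [e1, e2]
    exact ⟨rfl, rfl⟩
  · obtain ⟨p, rfl, a1⟩ := adj_r h1
    obtain ⟨B, rfl, a2⟩ := adj_l h2
    obtain ⟨s, rfl, a3⟩ := adj_r h4
    obtain ⟨p', rfl, b1⟩ := adj_r k1
    obtain ⟨B', rfl, b2⟩ := adj_l k2
    obtain ⟨s', e, b3⟩ := adj_r k4
    obtain rfl := Sum.inl_injective e
    obtain ⟨e1, e2⟩ := three_pt a1 a2 (fun e => h3 (congrArg Sum.inr e)) a3
      (fun e => h5 (congrArg Sum.inl e)) b1 b2 (fun e => k3 (congrArg Sum.inr e)) b3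
      (fun e => k5 (congrArg Sum.inl e))
    rw [e1, e2]
    exact ⟨rfl, rfl⟩

end Pool.Agent.Helper32.TU
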