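import Pool.Agent.Helper32.TU.HostGirth

/-!
# TU-02: at most one continuation of an nb path `v - u - c - a` is heavy (host)

PROOF. Step 0 (`uniq`): if `Is4 v b u c a` and `Is4 v b u c' a'` then `c = c'`, `a = a'`: `host_three` for the two nb 3-paths
`u - c - a - b`, `u - c' - a' - b` (`a <> u`, `b <> c`). So the nb 4-paths `v - u - c - a - b` are determined by `u`.

(a) `v = inr V` (point). Then `Heavy (W F) v b` is impossible. `u = inl p` (direction `t`), `c = inr C`, `a = inl p'` (direction `s`),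
`b = inr B`; `C - V = x (1,t,t^2,t^3)`, `x <> 0`, `B - C = y (1,s,..)`, `y <> 0`, `s <> t` (`a <> u`, both through `C`). Put
`D = B - V`, so `D_i = x t^i + y s^i`. Then `(D_1 - t D_0)(D_3 - t D_2) = (D_2 - t D_1)^2` and `D_0 D_2 - D_1^2 = x y (t - s)^2 <> 0`.
So `t` is a root of the polynomial `(D_1 - X D_0)(D_3 - X D_2) - (D_2 - X D_1)^2` of degree exactly 2 (coefficient of `X^2`:
`D_0 D_2 - D_1^2`). Three paths (injective `f : Fin 3 -> ..`) have three different `u` (step 0), so three different directions `t`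
(`line_eq` through `V`): three different roots of a quadratic polynomial `a0 + a1 X + a2 X^2` with `a2 <> 0`: contradiction
(subtract: `a1 + a2 (t1 + t2) = 0 = a1 + a2 (t1 + t3)`, so `t2 = t3`).

(b) `v = inl V`, `V = (t0; B1, B2, B3)` (line): `u = inr U`, `c = inl p` (direction `t <> t0`), `a = inr A`, `b = inl b`
(direction `w <> t`). `b`, `b'` are different lines through the point `a`, so `w <> w'` (`line_eq`), so one of them, say `w`, is `<> t0`.
CLAIM: if `w <> t0`, then any two nb 4-paths from `v` to `b` have the same `u` (and so are equal by step 0, so `b` is not heavy: the three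
triples of `Heavy` would be equal).
`U = (x, B_i + t0^i x)`, `A = U + y (1,t,t^2,t^3)`, `y <> 0` (`A <> U`: `a <> u`), and `A` in `b`: `b_i - B_i = y (t^i - w^i) + x (t0^i - w^i)`
for `i = 1, 2, 3` =: `e_i`. Then `E_0 := e_2 - (w + t0) e_1 = y (t - w)(t - t0)`, `E_1 := e_3 - (w + t0) e_2 + w t0 e_1 = t E_0`.
`E_0`, `E_1` depend on `v`, `b` only and `E_0 <> 0`; so `t` is determined (`t E_0 = E_1`), `y` is determined by `E_0`, and `x` by `e_1`, as
`t0 <> w`; so `U` is determined.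
-/

set_option autoImplicit false

namespace Pool.Agent.Helper32.TU

variable {F : Type} [Field F]

/-- step 0: the path is determined by its first inner vertex -/
theorem hh_uniq {v b u c a c' a' : WV F} (h : Is4 (W F) v b u c a) (h' : Is4 (W F) v b u c' a') :
    c = c' ∧ a = a' := by
  obtain ⟨-, h1, -, h2, h3, h4, h5⟩ := h
  obtain ⟨-, k1, -, k2, k3, k4, k5⟩ := h'
  exact host_three u c a b c' a' h1 h2 h3 h4 h5 k1 k2 k3 k4 k5

/-- a quadratic polynomial has at most two roots -/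
theorem hh_quad {a0 a1 a2 t1 t2 t3 : F} (h2 : a2 ≠ 0) (e1 : a0 + a1 * t1 + a2 * t1 ^ 2 = 0)
    (e2 : a0 + a1 * t2 + a2 * t2 ^ 2 = 0) (e3 : a0 + a1 * t3 + a2 * t3 ^ 2 = 0)
    (h12 : t1 ≠ t2) (h13 : t1 ≠ t3) (h23 : t2 ≠ t3) : False := by
  have m12 : (t1 - t2) * (a1 + a2 * (t1 + t2)) = 0 := by linear_combination e1 - e2
  have m13 : (t1 - t3) * (a1 + a2 * (t1 + t3)) = 0 := by linear_combination e1 - e3
  have n12 := (mul_eq_zero.1 m12).resolve_left (sub_ne_zero.2 h12)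
  have n13 := (mul_eq_zero.1 m13).resolve_left (sub_ne_zero.2 h13)
  have m : a2 * (t2 - t3) = 0 := by linear_combination n12 - n13
  exact (mul_ne_zero h2 (sub_ne_zero.2 h23)) m

/-- (a) the quadratic equation for the first direction -/
theorem hh_pathP {V : F × F × F × F} {b u c a : WV F} (h : Is4 (W F) (Sum.inr V) b u c a) :
    ∃ p B : F × F × F × F, u = Sum.inl p ∧ b = Sum.inr B ∧ Inc p V ∧
      (B.1 - V.1) * (B.2.2.1 - V.2.2.1) - (B.2.1 - V.2.1) ^ 2 ≠ 0 ∧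
      ((B.2.1 - V.2.1) * (B.2.2.2 - V.2.2.2) - (B.2.2.1 - V.2.2.1) ^ 2) +
      ((B.2.1 - V.2.1) * (B.2.2.1 - V.2.2.1) - (B.1 - V.1) * (B.2.2.2 - V.2.2.2)) * p.1 +
      ((B.1 - V.1) * (B.2.2.1 - V.2.2.1) - (B.2.1 - V.2.1) ^ 2) * p.1 ^ 2 = 0 := by
  obtain ⟨h1, h2, h3, h4, h5, h6, h7⟩ := h
  obtain ⟨p, rfl, i1⟩ := adj_r h1
  obtain ⟨C, rfl, i2⟩ := adj_l h2
  obtain ⟨p', rfl, i3⟩ := adj_r h4
  obtain ⟨B, rfl, i4⟩ := adj_l h6
  refine ⟨p, B, rfl, rfl, i1, ?_⟩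
  have hx : C.1 ≠ V.1 := fun e => h3 (by rw [pt_eq i2 i1 e])
  have hy : B.1 ≠ C.1 := fun e => h7 (by rw [pt_eq i4 i3 e])
  have hs : p'.1 ≠ p.1 := fun e => h5 (by rw [line_eq i3 i2 e])
  obtain ⟨t, b1, b2, b3⟩ := p
  obtain ⟨s, c1, c2, c3⟩ := p'
  obtain ⟨V0, V1, V2, V3⟩ := V
  obtain ⟨C0, C1, C2, C3⟩ := C
  obtain ⟨B0, B1, B2, B3⟩ := B
  simp only [Inc] at i1 i2 i3 i4 hx hy hs ⊢
  obtain ⟨i11, i12, i13⟩ := i1
  obtain ⟨i21, i22, i23⟩ := i2
  obtain ⟨i31, i32, i33⟩ := i3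
  obtain ⟨i41, i42, i43⟩ := i4
  have d1 : B1 - V1 = t * (C0 - V0) + s * (B0 - C0) := by linear_combination i41 - i31 + i21 - i11
  have d2 : B2 - V2 = t ^ 2 * (C0 - V0) + s ^ 2 * (B0 - C0) := by linear_combination i42 - i32 + i22 - i12
  have d3 : B3 - V3 = t ^ 3 * (C0 - V0) + s ^ 3 * (B0 - C0) := by linear_combination i43 - i33 + i23 - i13
  rw [d1, d2, d3]
  constructor
  · have e : (B0 - V0) * (t ^ 2 * (C0 - V0) + s ^ 2 * (B0 - C0)) - (t * (C0 - V0) + s * (B0 - C0)) ^ 2 =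
        (C0 - V0) * (B0 - C0) * (s - t) ^ 2 := by ring
    rw [e]
    exact mul_ne_zero (mul_ne_zero (sub_ne_zero.2 hx) (sub_ne_zero.2 hy)) (pow_ne_zero 2 (sub_ne_zero.2 hs))
  · ring

/-- (a) no heavy continuation for a point -/
theorem hh_noP {V : F × F × F × F} {b : WV F} (k : Heavy (W F) (Sum.inr V) b) : False := by
  obtain ⟨f, hf, hp⟩ := k
  obtain ⟨p0, B0, u0, b0, j0, n0, q0⟩ := hh_pathP (hp 0)
  obtain ⟨p1, B1, u1, b1, j1, n1, q1⟩ := hh_pathP (hp 1)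
  obtain ⟨p2, B2, u2, b2, j2, n2, q2⟩ := hh_pathP (hp 2)
  have e1 : B1 = B0 := Sum.inr.inj (b1.symm.trans b0)
  have e2 : B2 = B0 := Sum.inr.inj (b2.symm.trans b0)
  subst e1
  subst e2
  have key : ∀ i j : Fin 3, (f i).1 = (f j).1 → i = j := by
    intro i j e
    have hi := hp i
    have hj := hp j
    rw [← e] at hj
    obtain ⟨e', e''⟩ := hh_uniq hi hj
    exact hf (Prod.ext e (Prod.ext e' e''))
  refine hh_quad n0 q0 q1 q2 ?_ ?_ ?_
  · intro e
    exact absurd (key 0 1 (by rw [u0, u1, line_eq j0 j1 e])) (by decide)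
  · intro e
    exact absurd (key 0 2 (by rw [u0, u2, line_eq j0 j2 e])) (by decide)
  · intro e
    exact absurd (key 1 2 (by rw [u1, u2, line_eq j1 j2 e])) (by decide)

/-- (b) coordinates of a path from a line to a line -/
theorem hh_pathL {V β : F × F × F × F} {u c a : WV F} (h : Is4 (W F) (Sum.inl V) (Sum.inl β) u c a) :
    ∃ (U : F × F × F × F) (t y : F), u = Sum.inr U ∧ Inc V U ∧ y ≠ 0 ∧ t ≠ β.1 ∧ t ≠ V.1 ∧
      β.2.1 - V.2.1 = y * (t - β.1) + U.1 * (V.1 - β.1) ∧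
      β.2.2.1 - V.2.2.1 = y * (t ^ 2 - β.1 ^ 2) + U.1 * (V.1 ^ 2 - β.1 ^ 2) ∧
      β.2.2.2 - V.2.2.2 = y * (t ^ 3 - β.1 ^ 3) + U.1 * (V.1 ^ 3 - β.1 ^ 3) := by
  obtain ⟨h1, h2, h3, h4, h5, h6, h7⟩ := h
  obtain ⟨U, rfl, i1⟩ := adj_l h1
  obtain ⟨p, rfl, i2⟩ := adj_r h2
  obtain ⟨A, rfl, i3⟩ := adj_l h4
  have i4 : Inc β A := h6
  have hy : A.1 ≠ U.1 := fun e => h5 (by rw [pt_eq i3 i2 e])
  have hw : p.1 ≠ β.1 := fun e => h7 (by rw [line_eq i3 i4 e])
  have ht : p.1 ≠ V.1 := fun e => h3 (by rw [line_eq i2 i1 e])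
  refine ⟨U, p.1, A.1 - U.1, rfl, i1, sub_ne_zero.2 hy, hw, ht, ?_⟩
  obtain ⟨t, b1, b2, b3⟩ := p
  obtain ⟨w, c1, c2, c3⟩ := β
  obtain ⟨t0, V1, V2, V3⟩ := V
  obtain ⟨U0, U1, U2, U3⟩ := U
  obtain ⟨A0, A1, A2, A3⟩ := A
  simp only [Inc] at i1 i2 i3 i4 ⊢
  obtain ⟨i11, i12, i13⟩ := i1
  obtain ⟨i21, i22, i23⟩ := i2
  obtain ⟨i31, i32, i33⟩ := i3
  obtain ⟨i41, i42, i43⟩ := i4
  refine ⟨?_, ?_, ?_⟩
  · linear_combination i31 - i41 - i21 + i11
  · linear_combination i32 - i42 - i22 + i12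
  · linear_combination i33 - i43 - i23 + i13

/-- (b) the line case -/
theorem hh_noL {V β : F × F × F × F} (hw : β.1 ≠ V.1) (k : Heavy (W F) (Sum.inl V) (Sum.inl β)) : False := by
  obtain ⟨f, hf, hp⟩ := k
  have key : ∀ i j : Fin 3, (f i).1 = (f j).1 → i = j := by
    intro i j e
    have hi := hp i
    have hj := hp j
    rw [← e] at hj
    obtain ⟨e', e''⟩ := hh_uniq hi hj
    exact hf (Prod.ext e (Prod.ext e' e''))
  obtain ⟨U, t, y, u0, j0, hy, ht, ht0, e1, e2, e3⟩ := hh_pathL (hp 0)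
  obtain ⟨U', t', y', u0', j0', hy', ht', ht0', e1', e2', e3'⟩ := hh_pathL (hp 1)
  refine absurd (key 0 1 ?_) (by decide)
  rw [u0, u0']
  congr 1
  refine pt_eq j0 j0' ?_
  set w := β.1
  set s := V.1
  have E0 : y * (t - w) * (t - s) = y' * (t' - w) * (t' - s) := by
    linear_combination e2' - e2 - (w + s) * (e1' - e1)
  have E1 : t * (y * (t - w) * (t - s)) = t' * (y' * (t' - w) * (t' - s)) := by
    linear_combination e3' - e3 - (w + s) * (e2' - e2) + w * s * (e1' - e1)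
  have n0 : y * (t - w) * (t - s) ≠ 0 :=
    mul_ne_zero (mul_ne_zero hy (sub_ne_zero.2 ht)) (sub_ne_zero.2 ht0)
  have et : t = t' := by
    rw [← E0] at E1
    exact mul_right_cancel₀ n0 E1
  subst et
  have ey : y = y' := by
    have m : (t - w) * (t - s) ≠ 0 := mul_ne_zero (sub_ne_zero.2 ht) (sub_ne_zero.2 ht0)
    refine mul_right_cancel₀ m ?_
    linear_combination E0
  subst ey
  refine mul_right_cancel₀ (sub_ne_zero.2 hw.symm) ?_
  linear_combination e1' - e1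

theorem host_heavy (v u c a b b' : WV F) (h : Is4 (W F) v b u c a) (h' : Is4 (W F) v b' u c a) (hb : b ≠ b')
    (k : Heavy (W F) v b) (k' : Heavy (W F) v b') : False := by
  rcases v with V | V
  · obtain ⟨h1, h2, h3, h4, h5, h6, h7⟩ := h
    obtain ⟨k1, k2, k3, k4, k5, k6, k7⟩ := h'
    obtain ⟨U, rfl, i1⟩ := adj_l h1
    obtain ⟨p, rfl, i2⟩ := adj_r h2
    obtain ⟨A, rfl, i3⟩ := adj_l h4
    obtain ⟨β, rfl, i4⟩ := adj_r h6
    obtain ⟨β', rfl, i4'⟩ := adj_r k6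
    by_cases hw : β.1 = V.1
    · have hw' : β'.1 ≠ V.1 := by
        intro e
        exact hb (by rw [line_eq i4 i4' (hw.trans e.symm)])
      exact hh_noL hw' k'
    · exact hh_noL hw k
  · exact hh_noP k

end Pool.Agent.Helper32.TU
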