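import Mathlib

/-!
# TU-18: a rich pair of centres (abstract incidence lemma, part 2; no graphs)

Notation as in IncidCS: `u c = card (B c)`, `T = ∑ c ∈ C, u c ^ 2`, `s r = ∑ c ∈ C with r ∈ B c, u c`, `w r = card {c ∈ C | r ∈ B c}`. All in `ℝ`.

PROOF. `∑_{r ∈ Y} s r = T` (exchange sums; `B c ⊆ Y`). Let `GG = {r ∈ Y | (1 - η) T <= |Y| s r}`. For `r ∈ Y \ GG`: `|Y| s r < (1 - η) T`, so
`∑_{Y \ GG} s r <= (1 - η) T` (`|Y|` terms each `<= (1 - η) T / |Y|`; `|Y| > 0` as `T > 0`), so `∑_{GG} s r >= η T >= η δ^8 / K`.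
`s r <= w r * K δ^3 <= K^2 δ^4` for all `r`. So `|GG| >= η δ^4 / K^3`.
For `r ∈ GG`: `s r >= (1 - η) T / |Y| >= (1/2) (δ^8 / K) / (K δ^4) = δ^4 / (2 K^2)`, so `w r >= s r / (K δ^3) >= δ / (2 K^3)`, and `w r - 1 >= δ / (4 K^3)`
as `δ >= 4 K^3`.
`∑_{(c1, c2) ∈ C × C, c1 <> c2} card (GG ∩ B c1 ∩ B c2) = ∑_{r ∈ GG} w r (w r - 1) >= (η δ^4 / K^3) (δ / (2 K^3)) (δ / (4 K^3)) = η δ^6 / (8 K^9)`.
There are at most `(K δ^2)^2` pairs, so some pair has `card (GG ∩ B c1 ∩ B c2) >= η δ^2 / (8 K^11)`. Take this set.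
-/

set_option autoImplicit false

namespace Pool.Agent.Helper32.TU

open Finset

theorem incid_pick {Γ R : Type} [DecidableEq Γ] [DecidableEq R] (C : Finset Γ) (Y : Finset R) (B : Γ → Finset R)
    (K η δ : ℝ) (hK : 1 ≤ K) (hη : 0 < η) (hη1 : η ≤ 1 / 2) (hδ : 4 * K ^ 3 ≤ δ)
    (hB : ∀ c ∈ C, B c ⊆ Y) (hC : (C.card : ℝ) ≤ K * δ ^ 2) (hu : ∀ c ∈ C, ((B c).card : ℝ) ≤ K * δ ^ 3)
    (hw : ∀ r ∈ Y, ((C.filter (fun c => r ∈ B c)).card : ℝ) ≤ K * δ) (hY : (Y.card : ℝ) ≤ K * δ ^ 4)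
    (hT : δ ^ 8 ≤ K * ∑ c ∈ C, ((B c).card : ℝ) ^ 2) :
    ∃ c1 ∈ C, ∃ c2 ∈ C, c1 ≠ c2 ∧ ∃ S : Finset R, S ⊆ Y ∧ S ⊆ B c1 ∧ S ⊆ B c2 ∧
      (∀ r ∈ S, (1 - η) * (∑ c ∈ C, ((B c).card : ℝ) ^ 2) ≤
        Y.card * ∑ c ∈ C.filter (fun c => r ∈ B c), ((B c).card : ℝ)) ∧
      η * δ ^ 2 ≤ 8 * K ^ 11 * S.card := by
  obtain ⟨T, hTd⟩ : ∃ T : ℝ, T = ∑ c ∈ C, ((B c).card : ℝ) ^ 2 := ⟨_, rfl⟩
  obtain ⟨s, hsd⟩ : ∃ s : R → ℝ, s = fun r => ∑ c ∈ C.filter (fun c => r ∈ B c), ((B c).card : ℝ) := ⟨_, rfl⟩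
  rw [← hTd] at hT ⊢
  have hsr : ∀ r, ∑ c ∈ C.filter (fun c => r ∈ B c), ((B c).card : ℝ) = s r := fun r => by rw [hsd]
  simp only [hsr]
  have hK0 : 0 < K := by linarith
  have hK3 : 1 ≤ K ^ 3 := one_le_pow₀ hK
  have hδ0 : 0 < δ := by linarith
  have hTpos : 0 < T := by
    by_contra h
    push Not at h
    have h8 : 0 < δ ^ 8 := by positivity
    nlinarith
  -- exchange
  have hsumY : ∑ r ∈ Y, s r = T := by
    rw [hsd, hTd]
    simp only [Finset.sum_filter]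
    rw [Finset.sum_comm]
    apply Finset.sum_congr rfl
    intro c hc
    rw [← Finset.sum_filter, Finset.sum_const, nsmul_eq_mul, Finset.filter_mem_eq_inter,
      Finset.inter_eq_right.2 (hB c hc)]
    ring
  have hs0 : ∀ r, 0 ≤ s r := by
    intro r
    rw [hsd]
    exact Finset.sum_nonneg (fun c _ => Nat.cast_nonneg _)
  have hYne : Y.Nonempty := by
    rw [Finset.nonempty_iff_ne_empty]
    intro h
    rw [h, Finset.sum_empty] at hsumY
    linarith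
  have hYpos : (0:ℝ) < Y.card := by exact_mod_cast hYne.card_pos
  set GG : Finset R := Y.filter (fun r => (1 - η) * T ≤ Y.card * s r) with hGG
  have hbad : ∑ r ∈ Y.filter (fun r => ¬ ((1 - η) * T ≤ Y.card * s r)), s r ≤ (1 - η) * T := by
    have h1 : ∑ r ∈ Y.filter (fun r => ¬ ((1 - η) * T ≤ Y.card * s r)), s r ≤
        ∑ r ∈ Y.filter (fun r => ¬ ((1 - η) * T ≤ Y.card * s r)), ((1 - η) * T / Y.card) := by
      apply Finset.sum_le_sum
      intro r hr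
      have := (Finset.mem_filter.1 hr).2
      push Not at this
      rw [le_div_iff₀ hYpos]
      linarith
    refine le_trans h1 ?_
    rw [Finset.sum_const, nsmul_eq_mul]
    have h2 : ((Y.filter (fun r => ¬ ((1 - η) * T ≤ Y.card * s r))).card : ℝ) ≤ Y.card := by
      exact_mod_cast Finset.card_filter_le _ _
    have h3 : 0 ≤ (1 - η) * T / Y.card := by
      apply div_nonneg _ hYpos.le
      apply mul_nonneg (by linarith) hTpos.le
    calc _ ≤ (Y.card : ℝ) * ((1 - η) * T / Y.card) := mul_le_mul_of_nonneg_right h2 h3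
      _ = _ := by field_simp
  have hgood : η * T ≤ ∑ r ∈ GG, s r := by
    have := Finset.sum_filter_add_sum_filter_not Y (fun r => (1 - η) * T ≤ Y.card * s r) s
    rw [hsumY] at this
    rw [← hGG] at this
    linarith
  have hsw : ∀ r, s r ≤ ((C.filter (fun c => r ∈ B c)).card : ℝ) * (K * δ ^ 3) := by
    intro r
    rw [hsd]
    have : ∑ c ∈ C.filter (fun c => r ∈ B c), ((B c).card : ℝ) ≤ ∑ c ∈ C.filter (fun c => r ∈ B c), (K * δ ^ 3) := by
      apply Finset.sum_le_sum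
      intro c hc
      exact hu c (Finset.mem_filter.1 hc).1
    rw [Finset.sum_const, nsmul_eq_mul] at this
    exact this
  have hGGcard : η * δ ^ 4 ≤ K ^ 3 * GG.card := by
    have h1 : ∑ r ∈ GG, s r ≤ ∑ r ∈ GG, K ^ 2 * δ ^ 4 := by
      apply Finset.sum_le_sum
      intro r hr
      have hrY : r ∈ Y := (Finset.mem_filter.1 hr).1
      have h2 := mul_le_mul_of_nonneg_right (hw r hrY) (show 0 ≤ K * δ ^ 3 by positivity)
      have := hsw r
      nlinarith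
    rw [Finset.sum_const, nsmul_eq_mul] at h1
    have h3 : η * (δ ^ 8) ≤ η * (K * T) := mul_le_mul_of_nonneg_left hT hη.le
    have h4 : η * δ ^ 8 ≤ K * (GG.card * (K ^ 2 * δ ^ 4)) := by
      calc η * δ ^ 8 ≤ K * (η * T) := by linarith
        _ ≤ K * (GG.card * (K ^ 2 * δ ^ 4)) := mul_le_mul_of_nonneg_left (le_trans hgood h1) hK0.le
    have h5 : δ ^ 4 * (η * δ ^ 4) ≤ δ ^ 4 * (K ^ 3 * GG.card) := by
      calc δ ^ 4 * (η * δ ^ 4) = η * δ ^ 8 := by ring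
        _ ≤ _ := h4
        _ = _ := by ring
    exact le_of_mul_le_mul_left h5 (by positivity)
  have hwr : ∀ r ∈ GG, δ ≤ 2 * K ^ 3 * ((C.filter (fun c => r ∈ B c)).card : ℝ) := by
    intro r hr
    have hr2 := (Finset.mem_filter.1 hr).2
    have h1 : (1 / 2) * T ≤ K * δ ^ 4 * s r := by
      have a1 : (1 / 2) * T ≤ (1 - η) * T := mul_le_mul_of_nonneg_right (by linarith) hTpos.le
      have a2 : (Y.card : ℝ) * s r ≤ K * δ ^ 4 * s r := mul_le_mul_of_nonneg_right hY (hs0 r)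
      linarith
    have h2 : K * δ ^ 4 * s r ≤ K * δ ^ 4 * (((C.filter (fun c => r ∈ B c)).card : ℝ) * (K * δ ^ 3)) :=
      mul_le_mul_of_nonneg_left (hsw r) (by positivity)
    have h3 : δ ^ 8 ≤ K * (2 * (K * δ ^ 4 * (((C.filter (fun c => r ∈ B c)).card : ℝ) * (K * δ ^ 3)))) := by
      refine le_trans hT (mul_le_mul_of_nonneg_left ?_ hK0.le)
      linarith
    have h5 : δ ^ 7 * δ ≤ δ ^ 7 * (2 * K ^ 3 * ((C.filter (fun c => r ∈ B c)).card : ℝ)) := by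
      calc δ ^ 7 * δ = δ ^ 8 := by ring
        _ ≤ _ := h3
        _ = _ := by ring
    exact le_of_mul_le_mul_left h5 (by positivity)
  have hpairs : ∑ p ∈ C.offDiag, ((GG ∩ B p.1 ∩ B p.2).card : ℝ) =
      ∑ r ∈ GG, (((C.filter (fun c => r ∈ B c)).card : ℝ) * (((C.filter (fun c => r ∈ B c)).card : ℝ) - 1)) := by
    have e1 : ∀ p ∈ C.offDiag, ((GG ∩ B p.1 ∩ B p.2).card : ℝ) =
        ∑ r ∈ GG, if r ∈ B p.1 ∧ r ∈ B p.2 then (1:ℝ) else 0 := by
      intro p _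
      rw [Finset.sum_boole]
      congr 2
      ext r
      simp only [Finset.mem_inter, Finset.mem_filter]
      tauto
    rw [Finset.sum_congr rfl e1, Finset.sum_comm]
    apply Finset.sum_congr rfl
    intro r _
    rw [Finset.sum_boole]
    have e2 : C.offDiag.filter (fun p => r ∈ B p.1 ∧ r ∈ B p.2) = (C.filter (fun c => r ∈ B c)).offDiag := by
      ext p
      simp only [Finset.mem_filter, Finset.mem_offDiag]
      tauto
    rw [e2, Finset.offDiag_card]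
    rw [Nat.cast_sub (Nat.le_mul_self _)]
    push_cast
    ring
  have hbig : η * δ ^ 6 ≤ 8 * K ^ 9 * ∑ p ∈ C.offDiag, ((GG ∩ B p.1 ∩ B p.2).card : ℝ) := by
    rw [hpairs]
    have h1 : ∀ r ∈ GG, δ ^ 2 ≤ 8 * K ^ 6 * (((C.filter (fun c => r ∈ B c)).card : ℝ) *
        (((C.filter (fun c => r ∈ B c)).card : ℝ) - 1)) := by
      intro r hr
      set w : ℝ := ((C.filter (fun c => r ∈ B c)).card : ℝ) with hwd
      have a1 := hwr r hr
      have a2 : δ ≤ 4 * K ^ 3 * (w - 1) := by nlinarith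
      have a3 : δ * δ ≤ (2 * K ^ 3 * w) * (4 * K ^ 3 * (w - 1)) :=
        mul_le_mul a1 a2 hδ0.le (by linarith)
      calc δ ^ 2 = δ * δ := by ring
        _ ≤ _ := a3
        _ = _ := by ring
    have h2 : (GG.card : ℝ) * δ ^ 2 ≤ 8 * K ^ 6 * ∑ r ∈ GG, (((C.filter (fun c => r ∈ B c)).card : ℝ) *
        (((C.filter (fun c => r ∈ B c)).card : ℝ) - 1)) := by
      rw [Finset.mul_sum, ← nsmul_eq_mul, ← Finset.sum_const]
      exact Finset.sum_le_sum h1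
    calc η * δ ^ 6 = (η * δ ^ 4) * δ ^ 2 := by ring
      _ ≤ (K ^ 3 * GG.card) * δ ^ 2 := mul_le_mul_of_nonneg_right hGGcard (by positivity)
      _ = K ^ 3 * (GG.card * δ ^ 2) := by ring
      _ ≤ K ^ 3 * (8 * K ^ 6 * ∑ r ∈ GG, (((C.filter (fun c => r ∈ B c)).card : ℝ) *
        (((C.filter (fun c => r ∈ B c)).card : ℝ) - 1))) := mul_le_mul_of_nonneg_left h2 (by positivity)
      _ = _ := by ring
  by_contra hcon
  push Not at hcon
  have hall : ∀ p ∈ C.offDiag, 8 * K ^ 11 * ((GG ∩ B p.1 ∩ B p.2).card : ℝ) < η * δ ^ 2 := by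
    intro p hp
    rw [Finset.mem_offDiag] at hp
    apply hcon p.1 hp.1 p.2 hp.2.1 hp.2.2 (GG ∩ B p.1 ∩ B p.2)
    · intro r hr
      simp only [Finset.mem_inter] at hr
      exact (Finset.mem_filter.1 hr.1.1).1
    · intro r hr
      simp only [Finset.mem_inter] at hr
      exact hr.1.2
    · intro r hr
      simp only [Finset.mem_inter] at hr
      exact hr.2
    · intro r hr
      simp only [Finset.mem_inter] at hr
      exact (Finset.mem_filter.1 hr.1.1).2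
  have hne : C.offDiag.Nonempty := by
    rw [Finset.nonempty_iff_ne_empty]
    intro h
    rw [h, Finset.sum_empty, mul_zero] at hbig
    have : 0 < η * δ ^ 6 := by positivity
    linarith
  have hlt : ∑ p ∈ C.offDiag, 8 * K ^ 11 * ((GG ∩ B p.1 ∩ B p.2).card : ℝ) < ∑ p ∈ C.offDiag, η * δ ^ 2 :=
    Finset.sum_lt_sum_of_nonempty hne hall
  rw [← Finset.mul_sum, Finset.sum_const, nsmul_eq_mul] at hlt
  have hcardo : (C.offDiag.card : ℝ) ≤ K ^ 2 * δ ^ 4 := by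
    have h1 : (C.offDiag.card : ℝ) ≤ (C.card : ℝ) * C.card := by
      rw [Finset.offDiag_card]
      exact_mod_cast Nat.sub_le _ _
    have h2 : (C.card : ℝ) * C.card ≤ (K * δ ^ 2) * (K * δ ^ 2) :=
      mul_le_mul hC hC (Nat.cast_nonneg _) (by positivity)
    calc _ ≤ _ := h1
      _ ≤ _ := h2
      _ = _ := by ring
  have h3 : (C.offDiag.card : ℝ) * (η * δ ^ 2) ≤ (K ^ 2 * δ ^ 4) * (η * δ ^ 2) :=
    mul_le_mul_of_nonneg_right hcardo (by positivity)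
  have h4 : K ^ 2 * (η * δ ^ 6) ≤ K ^ 2 * (8 * K ^ 9 * ∑ p ∈ C.offDiag, ((GG ∩ B p.1 ∩ B p.2).card : ℝ)) :=
    mul_le_mul_of_nonneg_left hbig (by positivity)
  have e1 : K ^ 2 * (8 * K ^ 9 * ∑ p ∈ C.offDiag, ((GG ∩ B p.1 ∩ B p.2).card : ℝ)) =
      8 * K ^ 11 * ∑ p ∈ C.offDiag, ((GG ∩ B p.1 ∩ B p.2).card : ℝ) := by ring
  have e2 : (K ^ 2 * δ ^ 4) * (η * δ ^ 2) = K ^ 2 * (η * δ ^ 6) := by ring
  rw [e1] at h4
  rw [e2] at h3
  linarith

end Pool.Agent.Helper32.TU
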