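import Pool.Agent.Helper32.TU.IncidCS
import Pool.Agent.Helper32.TU.IncidPick

/-!
# TU-19: the incidence lemma (assembly)

PROOF. Let `ε' = min ε 1` (prove the bound with `ε'`), `η = ε' / 16`. Suppose `T > (1 + ε') y^2`, `y = |Y|`, `T = ∑ c ∈ C, u c^2`. `T > 0` and `y > 0` (by `hT`, some
`B c` is not empty; `δ >= 1`).
`incid_pick` gives `c1, c2, S` with `|S| >= η δ^2 / (8 K^11)` and `(1 - η) T <= y s(r)` on `S`. `y (u c1 + u c2) <= K δ^4 * 2 K δ^3 = 2 K^2 δ^7 <= η T`, because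
`T >= δ^8 / K`, when `δ >= 2 K^3 / η`. So `hs` of `incid_cs` holds with `κ = 1 - 2 η`. `w` := the natural number `⌊K δ⌋₊`. `hp` follows from `hpart` (filter over the
smaller set `S ⊆ Y`).
`incid_cs`: `κ^2 T |S|^2 <= y^2 (|S|^2 + 3 w |S|)`, so `κ^2 (1 + ε') |S|^2 <= |S|^2 + 3 K δ |S|` (divide by `y^2 > 0`), and
`κ^2 (1 + ε') = (1 - ε'/8)^2 (1 + ε') >= 1 + ε'/2`. So `(ε'/2) |S| <= 3 K δ` (`|S| > 0`), i.e. `(ε'/2) η δ^2 / (8 K^11) <= 3 K δ`, false for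
`δ > 48 K^12 / (ε' η)`.
-/

set_option autoImplicit false

namespace Pool.Agent.Helper32.TU

open Finset

theorem incid (ε K : ℝ) (hε : 0 < ε) (hK : 1 ≤ K) : ∃ δ₀ : ℝ, ∀ δ : ℝ, δ₀ ≤ δ →
    ∀ {Γ R : Type} [DecidableEq Γ] [DecidableEq R] (C : Finset Γ) (Y : Finset R) (B : Γ → Finset R),
    (∀ c ∈ C, B c ⊆ Y) → ((C.card : ℝ) ≤ K * δ ^ 2) → (∀ c ∈ C, ((B c).card : ℝ) ≤ K * δ ^ 3) →
    (∀ r ∈ Y, ((C.filter (fun c => r ∈ B c)).card : ℝ) ≤ K * δ) → ((Y.card : ℝ) ≤ K * δ ^ 4) →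
    (δ ^ 8 ≤ K * ∑ c ∈ C, ((B c).card : ℝ) ^ 2) →
    (∀ r ∈ Y, (Y.filter (fun r' => r' ≠ r ∧ 4 ≤ (C.filter (fun c => r ∈ B c ∧ r' ∈ B c)).card)).card ≤ 2) →
    ∑ c ∈ C, ((B c).card : ℝ) ^ 2 ≤ (1 + ε) * (Y.card : ℝ) ^ 2 := by
  obtain ⟨e, he⟩ : ∃ e : ℝ, e = min ε 1 := ⟨_, rfl⟩
  have he0 : 0 < e := by rw [he]; exact lt_min hε one_pos
  have he1 : e ≤ 1 := by rw [he]; exact min_le_right _ _
  have heε : e ≤ ε := by rw [he]; exact min_le_left _ _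
  obtain ⟨η, hηd⟩ : ∃ η : ℝ, η = e / 16 := ⟨_, rfl⟩
  have hη0 : 0 < η := by rw [hηd]; positivity
  have hη1 : η ≤ 1 / 2 := by rw [hηd]; linarith
  have hK0 : 0 < K := lt_of_lt_of_le one_pos hK
  refine ⟨1 + 4 * K ^ 3 + 2 * K ^ 3 / η + 48 * K ^ 12 / (e * η), ?_⟩
  intro δ hδ Γ R _ _ C Y B hB hC hu hw hY hT hpart
  have t1 : 0 < 4 * K ^ 3 := by positivity
  have t2 : 0 < 2 * K ^ 3 / η := by positivity
  have t3 : 0 < 48 * K ^ 12 / (e * η) := by positivity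
  have hδ1 : 1 ≤ δ := by linarith
  have hδ0 : 0 < δ := by linarith
  have hδ4 : 4 * K ^ 3 ≤ δ := by linarith
  have hδη : 2 * K ^ 3 ≤ η * δ := by
    have h1 : 2 * K ^ 3 / η ≤ δ := by linarith
    rw [div_le_iff₀ hη0] at h1
    linarith
  have hδe : 48 * K ^ 12 < e * η * δ := by
    have h1 : 48 * K ^ 12 / (e * η) < δ := by linarith
    rw [div_lt_iff₀ (by positivity)] at h1
    linarith
  by_contra hcon
  rw [not_le] at hcon
  obtain ⟨c1, hc1, c2, hc2, h12, S, hSY, hS1, hS2, hsr, hScard⟩ :=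
    incid_pick C Y B K η δ hK hη0 hη1 hδ4 hB hC hu hw hY hT
  obtain ⟨T, hTd⟩ : ∃ T : ℝ, T = ∑ c ∈ C, ((B c).card : ℝ) ^ 2 := ⟨_, rfl⟩
  rw [← hTd] at hT hsr hcon
  have hS0 : (0 : ℝ) < S.card := by
    have h1 : 0 < η * δ ^ 2 := by positivity
    have h2 : 0 < 8 * K ^ 11 * (S.card : ℝ) := lt_of_lt_of_le h1 hScard
    have h3 : (0 : ℝ) < 8 * K ^ 11 := by positivity
    exact (mul_pos_iff_of_pos_left h3).1 h2
  have hYS : (S.card : ℝ) ≤ Y.card := by exact_mod_cast Finset.card_le_card hSY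
  have hY0 : (0 : ℝ) < Y.card := by linarith
  have hT7 : 2 * K ^ 2 * δ ^ 7 ≤ η * T := by
    have h1 : K * (2 * K ^ 2 * δ ^ 7) ≤ K * (η * T) := by
      calc K * (2 * K ^ 2 * δ ^ 7) = (2 * K ^ 3) * δ ^ 7 := by ring
        _ ≤ (η * δ) * δ ^ 7 := mul_le_mul_of_nonneg_right hδη (by positivity)
        _ = η * δ ^ 8 := by ring
        _ ≤ η * (K * T) := mul_le_mul_of_nonneg_left hT hη0.le
        _ = K * (η * T) := by ring
    exact le_of_mul_le_mul_left h1 hK0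
  have key := incid_cs C B S (Y.card : ℝ) (1 - 2 * η) ⌊K * δ⌋₊ hY0.le (by linarith) c1 c2 hc1 hc2 h12
    hS1 hS2 (by
      intro r hr
      rw [← hTd]
      have h1 := hsr r hr
      have h2 : (Y.card : ℝ) * ((B c1).card + (B c2).card) ≤ (K * δ ^ 4) * (K * δ ^ 3 + K * δ ^ 3) :=
        mul_le_mul hY (add_le_add (hu c1 hc1) (hu c2 hc2)) (by positivity) (by positivity)
      have h3 : (K * δ ^ 4) * (K * δ ^ 3 + K * δ ^ 3) = 2 * K ^ 2 * δ ^ 7 := by ring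
      nlinarith [h1, h2, h3, hT7])
    (by
      intro r hr
      exact Nat.le_floor (hw r (hSY hr)))
    (by
      intro r hr
      refine le_trans (Finset.card_le_card ?_) (hpart r (hSY hr))
      exact Finset.filter_subset_filter _ hSY)
  rw [← hTd] at key
  have hwle : ((⌊K * δ⌋₊ : ℕ) : ℝ) ≤ K * δ := Nat.floor_le (by positivity)
  have hYsq : (0 : ℝ) < (Y.card : ℝ) ^ 2 := by positivity
  have hκ : 1 + e / 2 ≤ (1 - 2 * η) ^ 2 * (1 + e) := by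
    rw [hηd]
    nlinarith [mul_nonneg he0.le (sub_nonneg.2 he1), pow_pos he0 3, sq_nonneg e]
  have hTlow : (1 + e) * (Y.card : ℝ) ^ 2 ≤ T := by
    have : (1 + e) * (Y.card : ℝ) ^ 2 ≤ (1 + ε) * (Y.card : ℝ) ^ 2 :=
      mul_le_mul_of_nonneg_right (by linarith) hYsq.le
    linarith
  have f1 : (1 + e / 2) * ((Y.card : ℝ) ^ 2 * (S.card : ℝ) ^ 2) ≤
      (Y.card : ℝ) ^ 2 * ((S.card : ℝ) ^ 2 + 3 * (K * δ) * S.card) := by
    calc (1 + e / 2) * ((Y.card : ℝ) ^ 2 * (S.card : ℝ) ^ 2)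
        ≤ ((1 - 2 * η) ^ 2 * (1 + e)) * ((Y.card : ℝ) ^ 2 * (S.card : ℝ) ^ 2) :=
          mul_le_mul_of_nonneg_right hκ (by positivity)
      _ = ((1 - 2 * η) ^ 2 * (S.card : ℝ) ^ 2) * ((1 + e) * (Y.card : ℝ) ^ 2) := by ring
      _ ≤ ((1 - 2 * η) ^ 2 * (S.card : ℝ) ^ 2) * T := mul_le_mul_of_nonneg_left hTlow (by positivity)
      _ = (1 - 2 * η) ^ 2 * T * (S.card : ℝ) ^ 2 := by ring
      _ ≤ (Y.card : ℝ) ^ 2 * ((S.card : ℝ) ^ 2 + 3 * (⌊K * δ⌋₊ : ℕ) * S.card) := key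
      _ ≤ (Y.card : ℝ) ^ 2 * ((S.card : ℝ) ^ 2 + 3 * (K * δ) * S.card) := by
          gcongr
  have f2 : (1 + e / 2) * (S.card : ℝ) ≤ S.card + 3 * (K * δ) := by
    have h1 : (Y.card : ℝ) ^ 2 * (S.card * ((1 + e / 2) * (S.card : ℝ))) ≤
        (Y.card : ℝ) ^ 2 * (S.card * (S.card + 3 * (K * δ))) := by
      calc (Y.card : ℝ) ^ 2 * (S.card * ((1 + e / 2) * (S.card : ℝ)))
          = (1 + e / 2) * ((Y.card : ℝ) ^ 2 * (S.card : ℝ) ^ 2) := by ring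
        _ ≤ _ := f1
        _ = (Y.card : ℝ) ^ 2 * (S.card * (S.card + 3 * (K * δ))) := by ring
    exact le_of_mul_le_mul_left (le_of_mul_le_mul_left h1 hYsq) hS0
  have f3 : e * S.card ≤ 6 * (K * δ) := by nlinarith [f2]
  have f4 : e * (η * δ ^ 2) ≤ 8 * K ^ 11 * (6 * (K * δ)) := by
    calc e * (η * δ ^ 2) ≤ e * (8 * K ^ 11 * S.card) := mul_le_mul_of_nonneg_left hScard he0.le
      _ = 8 * K ^ 11 * (e * S.card) := by ring
      _ ≤ 8 * K ^ 11 * (6 * (K * δ)) := mul_le_mul_of_nonneg_left f3 (by positivity)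
  have f5 : (e * η * δ) * δ ≤ (48 * K ^ 12) * δ := by
    calc (e * η * δ) * δ = e * (η * δ ^ 2) := by ring
      _ ≤ _ := f4
      _ = (48 * K ^ 12) * δ := by ring
  have f6 := le_of_mul_le_mul_right f5 hδ0
  linarith

end Pool.Agent.Helper32.TU
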