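import Mathlib

/-!
# TU-17: the Cauchy-Schwarz step (abstract incidence lemma, part 1; no graphs)

`C` centres, `Y` the set of `r`, `B c ⊆ Y`. `K ⊆ B c1 ∩ B c2`, `c1 <> c2`, `u c = card (B c)`, `T = ∑ c ∈ C, u c ^ 2`, `y = card Y`.
`s r = ∑ c ∈ C with r ∈ B c, u c`. Hypothesis `hs`: `κ T <= y (s r - u c1 - u c2)` for `r ∈ K`.
`hw`: each `r ∈ K` lies in at most `w` of the sets. `hp`: each `r ∈ K` has at most 2 partners `r' <> r` in `K` with at least 4 common `c`.

PROOF. Let `C' = C \ {c1, c2}` and `k c = card (K ∩ B c)`.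
(1) `∑_{r ∈ K} (s r - u c1 - u c2) = ∑_{r ∈ K} ∑_{c ∈ C', r ∈ B c} u c = ∑_{c ∈ C'} u c * k c` (both `c1`, `c2` contain every `r ∈ K`; exchange sums).
(2) So `κ T |K| <= y ∑_{C'} u c k c` and by Cauchy-Schwarz (`Finset.sum_mul_sq_le_sq_mul_sq`) `(κ T |K|)^2 <= y^2 (∑_{C'} u^2)(∑_{C'} k^2) <= y^2 T ∑_{C'} k^2`
(`κ, T, |K| >= 0`).
(3) `∑_{C'} k c^2 = ∑_{(r, r') ∈ K × K} card {c ∈ C' | r, r' ∈ B c}`. For `r = r'` or `r'` a partner of `r` (>= 4 common `c` in `C`) the card is `<= w`; these are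
`<= 3 |K|` pairs. Otherwise there are `<= 3` common `c` in `C`, two of them are `c1`, `c2`, so the card is `<= 1`. Sum `<= |K|^2 + 3 w |K|`.
(4) If `T > 0` divide `(κ T |K|)^2 <= y^2 T (|K|^2 + 3 w |K|)` by `T`; if `T = 0` the claim is trivial.
-/

set_option autoImplicit false

namespace Pool.Agent.Helper32.TU

open Finset

theorem incid_cs {Γ R : Type} [DecidableEq Γ] [DecidableEq R] (C : Finset Γ) (B : Γ → Finset R) (K : Finset R)
    (y κ : ℝ) (w : ℕ) (hy : 0 ≤ y) (hκ : 0 ≤ κ) (c1 c2 : Γ) (h1 : c1 ∈ C) (h2 : c2 ∈ C) (h12 : c1 ≠ c2)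
    (hK1 : K ⊆ B c1) (hK2 : K ⊆ B c2)
    (hs : ∀ r ∈ K, κ * (∑ c ∈ C, ((B c).card : ℝ) ^ 2) ≤
      y * ((∑ c ∈ C.filter (fun c => r ∈ B c), ((B c).card : ℝ)) - (B c1).card - (B c2).card))
    (hw : ∀ r ∈ K, (C.filter (fun c => r ∈ B c)).card ≤ w)
    (hp : ∀ r ∈ K, (K.filter (fun r' => r' ≠ r ∧ 4 ≤ (C.filter (fun c => r ∈ B c ∧ r' ∈ B c)).card)).card ≤ 2) :
    κ ^ 2 * (∑ c ∈ C, ((B c).card : ℝ) ^ 2) * (K.card : ℝ) ^ 2 ≤
      y ^ 2 * ((K.card : ℝ) ^ 2 + 3 * w * K.card) := by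
  set T : ℝ := ∑ c ∈ C, ((B c).card : ℝ) ^ 2 with hT
  set C' : Finset Γ := (C.erase c1).erase c2 with hC'
  set k : Γ → ℝ := fun c => ((K ∩ B c).card : ℝ) with hk
  set u : Γ → ℝ := fun c => ((B c).card : ℝ) with hu
  have hT0 : 0 ≤ T := Finset.sum_nonneg (fun c _ => by positivity)
  have hC'C : C' ⊆ C := (Finset.erase_subset _ _).trans (Finset.erase_subset _ _)
  -- the sum over c in C containing r, splitting off c1 c2
  have hsplit : ∀ r ∈ K, (∑ c ∈ C.filter (fun c => r ∈ B c), u c) - u c1 - u c2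
      = ∑ c ∈ C'.filter (fun c => r ∈ B c), u c := by
    intro r hr
    have hr1 := hK1 hr
    have hr2 := hK2 hr
    have e : C'.filter (fun c => r ∈ B c) = ((C.filter (fun c => r ∈ B c)).erase c1).erase c2 := by
      ext c
      simp only [hC', Finset.mem_filter, Finset.mem_erase]
      tauto
    rw [e]
    have m1 : c1 ∈ C.filter (fun c => r ∈ B c) := Finset.mem_filter.2 ⟨h1, hr1⟩
    have m2 : c2 ∈ (C.filter (fun c => r ∈ B c)).erase c1 :=
      Finset.mem_erase.2 ⟨h12.symm, Finset.mem_filter.2 ⟨h2, hr2⟩⟩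
    have a1 := Finset.add_sum_erase _ u m1
    have a2 := Finset.add_sum_erase _ u m2
    linarith
  -- exchange
  have hex : ∑ r ∈ K, ∑ c ∈ C'.filter (fun c => r ∈ B c), u c = ∑ c ∈ C', u c * k c := by
    have : ∀ r ∈ K, ∑ c ∈ C'.filter (fun c => r ∈ B c), u c = ∑ c ∈ C', if r ∈ B c then u c else 0 := by
      intro r _
      rw [Finset.sum_filter]
    rw [Finset.sum_congr rfl this, Finset.sum_comm]
    apply Finset.sum_congr rfl
    intro c _
    rw [← Finset.sum_filter, Finset.sum_const, nsmul_eq_mul, hk]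
    simp only
    rw [Finset.filter_mem_eq_inter]
    ring
  have hsum : κ * T * K.card ≤ y * ∑ c ∈ C', u c * k c := by
    have h3 : ∑ r ∈ K, κ * T ≤ ∑ r ∈ K, y * ∑ c ∈ C'.filter (fun c => r ∈ B c), u c := by
      apply Finset.sum_le_sum
      intro r hr
      rw [← hsplit r hr]
      exact hs r hr
    rw [Finset.sum_const, nsmul_eq_mul, ← Finset.mul_sum, hex] at h3
    linarith
  have hcs : (∑ c ∈ C', u c * k c) ^ 2 ≤ (∑ c ∈ C', u c ^ 2) * ∑ c ∈ C', k c ^ 2 :=
    Finset.sum_mul_sq_le_sq_mul_sq C' u k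
  have hTT : ∑ c ∈ C', u c ^ 2 ≤ T := by
    apply Finset.sum_le_sum_of_subset_of_nonneg hC'C
    intro c _ _
    positivity
  -- (3)
  have hk2 : ∑ c ∈ C', k c ^ 2 ≤ (K.card : ℝ) ^ 2 + 3 * w * K.card := by
    have hcard : ∑ c ∈ C', k c ^ 2 = ∑ r ∈ K, ∑ r' ∈ K, ((C'.filter (fun c => r ∈ B c ∧ r' ∈ B c)).card : ℝ) := by
      have e1 : ∀ c ∈ C', k c ^ 2 = ∑ r ∈ K, ∑ r' ∈ K, if r ∈ B c ∧ r' ∈ B c then (1:ℝ) else 0 := by
        intro c _
        have : k c = ∑ r ∈ K, if r ∈ B c then (1:ℝ) else 0 := by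
          rw [Finset.sum_boole, Finset.filter_mem_eq_inter]
        rw [sq]
        nth_rewrite 1 [this]
        rw [this, Finset.sum_mul_sum]
        apply Finset.sum_congr rfl
        intro r _
        apply Finset.sum_congr rfl
        intro r' _
        by_cases ha : r ∈ B c <;> by_cases hb : r' ∈ B c <;> simp [ha, hb]
      rw [Finset.sum_congr rfl e1, Finset.sum_comm]
      apply Finset.sum_congr rfl
      intro r _
      rw [Finset.sum_comm]
      apply Finset.sum_congr rfl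
      intro r' _
      rw [Finset.sum_boole]
    rw [hcard]
    have hrow : ∀ r ∈ K, ∑ r' ∈ K, ((C'.filter (fun c => r ∈ B c ∧ r' ∈ B c)).card : ℝ) ≤ K.card + 3 * w := by
      intro r hr
      set P : Finset R := K.filter (fun r' => r' ≠ r ∧ 4 ≤ (C.filter (fun c => r ∈ B c ∧ r' ∈ B c)).card) with hP
      have hterm : ∀ r' ∈ K, ((C'.filter (fun c => r ∈ B c ∧ r' ∈ B c)).card : ℝ) ≤
          1 + (if r' ∈ insert r P then (w:ℝ) else 0) := by
        intro r' hr'
        by_cases hm : r' ∈ insert r P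
        · rw [if_pos hm]
          have hle : (C'.filter (fun c => r ∈ B c ∧ r' ∈ B c)).card ≤ w := by
            refine le_trans (Finset.card_le_card ?_) (hw r hr)
            intro c hc
            rw [Finset.mem_filter] at hc ⊢
            exact ⟨hC'C hc.1, hc.2.1⟩
          have : ((C'.filter (fun c => r ∈ B c ∧ r' ∈ B c)).card : ℝ) ≤ w := by exact_mod_cast hle
          linarith
        · rw [if_neg hm]
          rw [Finset.mem_insert, not_or, hP, Finset.mem_filter] at hm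
          have hne := hm.1
          have h4 : ¬ 4 ≤ (C.filter (fun c => r ∈ B c ∧ r' ∈ B c)).card := fun h => hm.2 ⟨hr', hne, h⟩
          have hsub : C'.filter (fun c => r ∈ B c ∧ r' ∈ B c) =
              ((C.filter (fun c => r ∈ B c ∧ r' ∈ B c)).erase c1).erase c2 := by
            ext c
            simp only [hC', Finset.mem_filter, Finset.mem_erase]
            tauto
          have m1 : c1 ∈ C.filter (fun c => r ∈ B c ∧ r' ∈ B c) :=
            Finset.mem_filter.2 ⟨h1, hK1 hr, hK1 hr'⟩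
          have m2 : c2 ∈ (C.filter (fun c => r ∈ B c ∧ r' ∈ B c)).erase c1 :=
            Finset.mem_erase.2 ⟨h12.symm, Finset.mem_filter.2 ⟨h2, hK2 hr, hK2 hr'⟩⟩
          rw [hsub, Finset.card_erase_of_mem m2, Finset.card_erase_of_mem m1]
          have : (C.filter (fun c => r ∈ B c ∧ r' ∈ B c)).card - 1 - 1 ≤ 1 := by omega
          have : (((C.filter (fun c => r ∈ B c ∧ r' ∈ B c)).card - 1 - 1 : ℕ) : ℝ) ≤ 1 := by exact_mod_cast this
          linarith
      refine le_trans (Finset.sum_le_sum hterm) ?_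
      rw [Finset.sum_add_distrib, Finset.sum_const, nsmul_eq_mul, mul_one, ← Finset.sum_filter,
        Finset.sum_const, nsmul_eq_mul]
      have hc3 : (K.filter (fun r' => r' ∈ insert r P)).card ≤ 3 := by
        refine le_trans (Finset.card_le_card (t := insert r P) ?_) ?_
        · intro x hx
          exact (Finset.mem_filter.1 hx).2
        · refine le_trans (Finset.card_insert_le _ _) ?_
          have := hp r hr
          rw [← hP] at this
          omega
      have hc3' : ((K.filter (fun r' => r' ∈ insert r P)).card : ℝ) ≤ 3 := by exact_mod_cast hc3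
      have hw0 : (0:ℝ) ≤ w := Nat.cast_nonneg w
      have := mul_le_mul_of_nonneg_right hc3' hw0
      linarith
    refine le_trans (Finset.sum_le_sum hrow) ?_
    rw [Finset.sum_const, nsmul_eq_mul]
    apply le_of_eq
    ring
  have hk20 : 0 ≤ ∑ c ∈ C', k c ^ 2 := Finset.sum_nonneg (fun c _ => by positivity)
  have hmain : (κ * T * K.card) ^ 2 ≤ y ^ 2 * (T * ((K.card : ℝ) ^ 2 + 3 * w * K.card)) := by
    have h5 : (κ * T * K.card) ^ 2 ≤ (y * ∑ c ∈ C', u c * k c) ^ 2 := by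
      exact pow_le_pow_left₀ (mul_nonneg (mul_nonneg hκ hT0) (Nat.cast_nonneg _)) hsum 2
    refine le_trans h5 ?_
    rw [mul_pow]
    refine mul_le_mul_of_nonneg_left (le_trans hcs ?_) (sq_nonneg y)
    exact mul_le_mul hTT hk2 hk20 hT0
  rcases hT0.lt_or_eq with hTp | hTz
  · have : T * (κ ^ 2 * T * (K.card : ℝ) ^ 2) ≤ T * (y ^ 2 * ((K.card : ℝ) ^ 2 + 3 * w * K.card)) := by
      calc T * (κ ^ 2 * T * (K.card : ℝ) ^ 2) = (κ * T * K.card) ^ 2 := by ring
        _ ≤ _ := hmain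
        _ = _ := by ring
    exact le_of_mul_le_mul_left this hTp
  · rw [← hTz]
    have : (0:ℝ) ≤ y ^ 2 * ((K.card : ℝ) ^ 2 + 3 * w * K.card) := by positivity
    linarith

end Pool.Agent.Helper32.TU
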