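import Pool.Agent.Helper32.TU.RsCard

/-!
# TU-16: few `r` are lost for each centre; each `r` has few centres left

`rp_loss`. Let `M = Rs v c \ Rp v c`; show `card M <= 3 D^2`. If `Rs v c` is empty it is trivial; otherwise there is the middle vertex `u` (`v - u - c`),
unique by `hG.two`. Every `r ∈ M` has an nb path `v - u - c - a - b - r` with `Heavy v b` or `Zed v r` (otherwise `r ∈ Rp v c`).
So `M ⊆ ⋃_{a ∈ nb c} M_a`, `M_a = {r | ∃ b, Is4 v b u c a ∧ b ~ r ∧ r <> a ∧ (Heavy v b ∨ Zed v r)}`, and it suffices that `card M_a <= 3 D` for each `a`.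
(i) Heavy: by `hG.heavy` there is at most one `b` with `Is4 v b u c a` and `Heavy v b`: these `r` lie in `nb b`: `<= D`.
(ii) Zed: for `b` put `Z_b = {r ∈ nb b | r <> a ∧ Zed v r}`. By `hG.zed` there is at most one `b` with `Is4 v b u c a` and `card Z_b >= 2`
(`Finset.one_lt_card` gives two different elements). This `b` contributes `<= D`; every other `b ∈ nb a` contributes `<= 1`: together `<= D`.
Total `<= 3 D`. (Split `M_a ⊆ A1 ∪ A2 ∪ A3`, or sum over `b ∈ nb a` with `if`.)

`rp_sub`: an `r ∈ Rp v c` is in `Rs v c` by definition.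

`rp_mult`. Each such `c` has `b ∈ nb r` with `¬ Heavy v b` and `u`, `a` with `Is4 v b u c a`. So the set is contained in the union over `b ∈ nb r`,
`¬ Heavy v b`, of `T_b = {c | ∃ u a, Is4 v b u c a}`. `card T_b <= 2`: three different `c` (`Finset.two_lt_card`) with their `u`, `a` give an injective
`f : Fin 3 -> V × V × V` with `Is4`, i.e. `Heavy v b`. `Finset.card_biUnion_le_card_mul`.
-/

set_option autoImplicit false

namespace Pool.Agent.Helper32.TU

open Finset

variable {V : Type} [Fintype V]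

private theorem card_one (P : V → Prop) (S : V → Finset V) (D : ℕ)
    {_hd : DecidablePred fun r => ∃ b, P b ∧ r ∈ S b} (hP : ∀ b b', P b → P b' → b = b') (hS : ∀ b, (S b).card ≤ D) :
    (univ.filter (fun r => ∃ b, P b ∧ r ∈ S b)).card ≤ D := by
  by_cases h : ∃ b, P b
  · obtain ⟨b, hb⟩ := h
    refine (card_le_card (t := S b) ?_).trans (hS b)
    intro r hr
    obtain ⟨b', hb', hr'⟩ := (mem_filter.1 hr).2
    rw [hP b b' hb hb']
    exact hr'
  · have h1 : univ.filter (fun r => ∃ b, P b ∧ r ∈ S b) = ∅ := by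
      apply filter_eq_empty_iff.2
      rintro r _ ⟨b, hb, _⟩
      exact h ⟨b, hb⟩
    rw [h1, card_empty]
    exact Nat.zero_le _

open scoped Classical in
private noncomputable def zz (G : SimpleGraph V) (v a b : V) : Finset V :=
  (nb G b).filter (fun r => r ≠ a ∧ Zed G v r)

private theorem mem_zz (G : SimpleGraph V) (v a b r : V) :
    r ∈ zz G v a b ↔ G.Adj b r ∧ r ≠ a ∧ Zed G v r := by
  classical
  unfold zz
  rw [mem_filter, mem_nb]

private theorem zz_card (G : SimpleGraph V) (v a b : V) : (zz G v a b).card ≤ dg G b := by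
  classical
  unfold zz dg
  exact card_filter_le _ _

open scoped Classical in
private noncomputable def aa1 (G : SimpleGraph V) (v u c a : V) : Finset V :=
  univ.filter (fun r => ∃ b, (Is4 G v b u c a ∧ Heavy G v b) ∧ r ∈ nb G b)

open scoped Classical in
private noncomputable def aa2 (G : SimpleGraph V) (v u c a : V) : Finset V :=
  univ.filter (fun r => ∃ b, (Is4 G v b u c a ∧ 2 ≤ (zz G v a b).card) ∧ r ∈ zz G v a b)

open scoped Classical in
private noncomputable def aa3 (G : SimpleGraph V) (v a : V) : Finset V :=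
  (nb G a).biUnion (fun b => if (zz G v a b).card ≤ 1 then zz G v a b else ∅)

private theorem aa1_card (G : SimpleGraph V) (hG : Loc G) {D : ℕ} (h : ∀ x, dg G x ≤ D)
    (v u c a : V) : (aa1 G v u c a).card ≤ D := by
  unfold aa1
  refine card_one (fun b => Is4 G v b u c a ∧ Heavy G v b) (nb G) D ?_ h
  rintro b b' ⟨hb, hb1⟩ ⟨hb', hb1'⟩
  by_contra hne
  exact hG.heavy v u c a b b' hb hb' hne hb1 hb1'

private theorem aa2_card (G : SimpleGraph V) (hG : Loc G) {D : ℕ} (h : ∀ x, dg G x ≤ D)
    (v u c a : V) : (aa2 G v u c a).card ≤ D := by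
  unfold aa2
  refine card_one (fun b => Is4 G v b u c a ∧ 2 ≤ (zz G v a b).card) (zz G v a) D ?_
    (fun b => (zz_card G v a b).trans (h b))
  rintro b b' ⟨hb, hb1⟩ ⟨hb', hb1'⟩
  by_contra hne
  obtain ⟨r1, hr1, r2, hr2, h12⟩ := one_lt_card.1 (Nat.lt_of_lt_of_le Nat.one_lt_two hb1)
  obtain ⟨r1', hr1', r2', hr2', h12'⟩ := one_lt_card.1 (Nat.lt_of_lt_of_le Nat.one_lt_two hb1')
  rw [mem_zz] at hr1 hr2 hr1' hr2'
  exact hG.zed v u c a b b' r1 r2 r1' r2' hb hb' hne h12 h12' hr1.1 hr1.2.1 hr2.1 hr2.2.1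
    hr1'.1 hr1'.2.1 hr2'.1 hr2'.2.1 hr1.2.2 hr2.2.2 hr1'.2.2 hr2'.2.2

private theorem aa3_card (G : SimpleGraph V) {D : ℕ} (h : ∀ x, dg G x ≤ D)
    (v a : V) : (aa3 G v a).card ≤ D := by
  classical
  unfold aa3
  refine (card_biUnion_le_card_mul _ _ 1 ?_).trans ?_
  · intro b _
    split_ifs with hb
    · exact hb
    · rw [card_empty]
      exact Nat.zero_le _
  · rw [mul_one]
    exact h a

open scoped Classical in
private noncomputable def mm (G : SimpleGraph V) (v u c a : V) : Finset V :=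
  univ.filter (fun r => ∃ b, Is4 G v b u c a ∧ G.Adj b r ∧ r ≠ a ∧ (Heavy G v b ∨ Zed G v r))

open scoped Classical in
private theorem mm_sub (G : SimpleGraph V) (v u c a : V) :
    mm G v u c a ⊆ aa1 G v u c a ∪ aa2 G v u c a ∪ aa3 G v a := by
  intro r hr
  obtain ⟨b, hb, hbr, hra, hor⟩ := (mem_filter.1 hr).2
  rcases hor with hor | hor
  · refine mem_union_left _ (mem_union_left _ ?_)
    exact mem_filter.2 ⟨mem_univ _, b, ⟨hb, hor⟩, (mem_nb G b r).2 hbr⟩
  · have hrZ : r ∈ zz G v a b := (mem_zz G v a b r).2 ⟨hbr, hra, hor⟩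
    by_cases hc : (zz G v a b).card ≤ 1
    · refine mem_union_right _ (mem_biUnion.2 ⟨b, (mem_nb G a b).2 hb.2.2.2.2.2.1, ?_⟩)
      rw [if_pos hc]
      exact hrZ
    · refine mem_union_left _ (mem_union_right _ ?_)
      exact mem_filter.2 ⟨mem_univ _, b, ⟨hb, by omega⟩, hrZ⟩

private theorem mm_card (G : SimpleGraph V) (hG : Loc G) {D : ℕ} (h : ∀ x, dg G x ≤ D)
    (v u c a : V) : (mm G v u c a).card ≤ 3 * D := by
  classical
  have h1 := aa1_card G hG h v u c a
  have h2 := aa2_card G hG h v u c a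
  have h3 := aa3_card G h v a
  have h4 := card_le_card (mm_sub G v u c a)
  have h5 := card_union_le (aa1 G v u c a ∪ aa2 G v u c a) (aa3 G v a)
  have h6 := card_union_le (aa1 G v u c a) (aa2 G v u c a)
  omega

theorem rp_loss (G : SimpleGraph V) (hG : Loc G) {D : ℕ} (h : ∀ x, dg G x ≤ D) (v c : V) :
    (Rs G v c).card ≤ (Rp G v c).card + 3 * D ^ 2 := by
  classical
  have hle : (Rs G v c).card ≤ (Rs G v c \ Rp G v c).card + (Rp G v c).card :=
    card_le_card_sdiff_add_card
  have hM : (Rs G v c \ Rp G v c).card ≤ 3 * D ^ 2 := by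
    rcases (Rs G v c \ Rp G v c).eq_empty_or_nonempty with he | ⟨r0, hr0⟩
    · rw [he, card_empty]
      exact Nat.zero_le _
    · have hr0' := (mem_filter.1 (mem_sdiff.1 hr0).1).2
      obtain ⟨u, a0, b0, h40, -, -⟩ := hr0'
      have hsub : Rs G v c \ Rp G v c ⊆ (nb G c).biUnion (fun a => mm G v u c a) := by
        intro r hr
        obtain ⟨hr1, hr2⟩ := mem_sdiff.1 hr
        obtain ⟨u', a, b, h4, hbr, hra⟩ := (mem_filter.1 hr1).2
        have hu : u' = u := hG.two v u' u c h4.2.2.1 h4.1 h4.2.1 h40.1 h40.2.1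
        subst hu
        refine mem_biUnion.2 ⟨a, (mem_nb G c a).2 h4.2.2.2.1, mem_filter.2 ⟨mem_univ _, b, h4,
          hbr, hra, ?_⟩⟩
        by_contra hcon
        push Not at hcon
        exact hr2 (mem_filter.2 ⟨mem_univ _, hcon.2, u', a, b, h4, hbr, hra, hcon.1⟩)
      refine (card_le_card hsub).trans ((card_biUnion_le_card_mul _ _ (3 * D)
        (fun a _ => mm_card G hG h v u c a)).trans ?_)
      have h1 : (nb G c).card ≤ D := h c
      calc (nb G c).card * (3 * D) ≤ D * (3 * D) := Nat.mul_le_mul_right _ h1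
        _ = 3 * D ^ 2 := by ring
  omega

theorem rp_sub (G : SimpleGraph V) (v c : V) : Rp G v c ⊆ Rs G v c := by
  classical
  intro r hr
  obtain ⟨-, -, u, a, b, h4, hbr, hra, -⟩ := mem_filter.1 hr
  exact mem_filter.2 ⟨mem_univ _, u, a, b, h4, hbr, hra⟩

open scoped Classical in
theorem rp_mult (G : SimpleGraph V) (v r : V) :
    ((Cs G v).filter (fun c => r ∈ Rp G v c)).card ≤ 2 * dg G r := by
  have hsub : (Cs G v).filter (fun c => r ∈ Rp G v c) ⊆ (nb G r).biUnion (fun b =>
      if Heavy G v b then ∅ else univ.filter (fun c => ∃ u a, Is4 G v b u c a)) := by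
    intro c hc
    obtain ⟨-, -, u, a, b, h4, hbr, -, hb⟩ := mem_filter.1 (mem_filter.1 hc).2
    refine mem_biUnion.2 ⟨b, (mem_nb G r b).2 hbr.symm, ?_⟩
    rw [if_neg hb]
    exact mem_filter.2 ⟨mem_univ _, u, a, h4⟩
  refine (card_le_card hsub).trans ((card_biUnion_le_card_mul _ _ 2 ?_).trans ?_)
  · intro b _
    split_ifs with hb
    · rw [card_empty]
      exact Nat.zero_le _
    · by_contra hcon
      obtain ⟨c1, h1, c2, h2, c3, h3, h12, h13, h23⟩ := two_lt_card.1 (not_le.1 hcon)
      obtain ⟨u1, a1, h1⟩ := (mem_filter.1 h1).2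
      obtain ⟨u2, a2, h2⟩ := (mem_filter.1 h2).2
      obtain ⟨u3, a3, h3⟩ := (mem_filter.1 h3).2
      apply hb
      refine ⟨![(u1, c1, a1), (u2, c2, a2), (u3, c3, a3)], ?_, ?_⟩
      · intro i j hij
        have hij' := congrArg (fun t : V × V × V => t.2.1) hij
        fin_cases i <;> fin_cases j <;> simp at hij' <;> first | rfl | skip
        · exact absurd hij' h12
        · exact absurd hij' h13
        · exact absurd hij'.symm h12
        · exact absurd hij' h23
        · exact absurd hij'.symm h13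
        · exact absurd hij'.symm h23
      · intro i
        fin_cases i
        · exact h1
        · exact h2
        · exact h3
  · rw [mul_comm]
    exact le_rfl

end Pool.Agent.Helper32.TU
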