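import Pool.Agent.Helper32.TU.Bounds
import Pool.Agent.Helper32.TU.Loss
import Pool.Agent.Helper32.TU.Incid

/-!
# TU-20: the local theorem

PROOF. WLOG `ε <= 1`. Apply `incid` with `ε/4` and a constant `K' = 16 K^3 + 8` (any large constant works), `δ` real, `C = Cs G v`, `Y = Ys G v`, `B c = Rp G v c`.
Let `D = ⌊K δ⌋₊` (all degrees `<= D`, `(D : ℝ) <= K δ`).
 - `Rp v c ⊆ Rs v c ⊆ Ys v`; `|Cs v| <= D^2 <= K^2 δ^2` (`cs_card_le`); `|Rp v c| <= |Rs v c| <= D^3` (`rs_card_le`); `rp_mult`: `<= 2 dg r <= 2 K δ`; `|Ys v| <= card V`.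
 - For `c ∈ Cs v`: `|Rp v c| >= |Rs v c| - 3 D^2 >= (δ-1)^3 - 3 K^2 δ^2 >= δ^3 / 2` for large `δ` (`rp_loss`, `rs_card_ge`), `|Cs v| >= δ (δ-1) >= δ^2/2` (`cs_card_ge`), so
   `∑ |Rp v c|^2 >= δ^8 / 8`.
 - partners: let `r ∈ Y`. If the filter had `>= 3` elements (`Finset.two_lt_card` : three different `r' <> r`, each with `>= 4` centres `c` with `r, r' ∈ Rp v c`), then
   `Cen v r c` and `Cen v r' c` for these `c` (`rp_sub`), so `Bad v r r'` (4 different elements of a finset with card `>= 4` give an injective `Fin 4 -> V`: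
   `Finset.exists_subset_card_eq` and `orderEmbOfFin` or `Finset.equivFin`), so `Zed v r`; but `r ∈ Rp v c` for one such `c` says `¬ Zed v r`. Contradiction.
 - So `T' := ∑ |Rp v c|^2 <= (1 + ε/4) |Ys v|^2`. And `|Rs v c| <= |Rp v c| + 3 D^2 <= (1 + ε/8) |Rp v c|` when `3 K^2 δ^2 <= (ε/8) δ^3/2`, so
   `Tc v = ∑ |Rs v c|^2 <= (1 + ε/8)^2 T' <= (1 + ε/8)^2 (1 + ε/4) |Ys v|^2 <= (1 + ε) |Ys v|^2` for `ε <= 1`.
-/

set_option autoImplicit false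

namespace Pool.Agent.Helper32.TU

open Finset

theorem loc_exists_inj_fin {α : Type} (s : Finset α) {n : ℕ} (h : n ≤ s.card) :
    ∃ f : Fin n → α, Function.Injective f ∧ ∀ i, f i ∈ s := by
  refine ⟨fun i => (s.equivFin.symm (Fin.castLE h i)).1, ?_, ?_⟩
  · intro i j hij
    have h1 : s.equivFin.symm (Fin.castLE h i) = s.equivFin.symm (Fin.castLE h j) := Subtype.ext hij
    have h2 := s.equivFin.symm.injective h1
    exact Fin.castLE_injective h h2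
  · intro i
    exact (s.equivFin.symm (Fin.castLE h i)).2

theorem loc_zed_of_partners {V : Type} [Fintype V] (G : SimpleGraph V) (v r : V) (P : Finset V) (hP : 3 ≤ P.card)
    (Q : V → Finset V) (h : ∀ r' ∈ P, r' ≠ r ∧ 4 ≤ (Q r').card ∧ ∀ c ∈ Q r', r ∈ Rp G v c ∧ r' ∈ Rp G v c) :
    False := by
  classical
  obtain ⟨g, hg, hgP⟩ := loc_exists_inj_fin P hP
  have hz : Zed G v r := by
    refine ⟨g, hg, fun j => ⟨(h _ (hgP j)).1, ?_⟩⟩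
    obtain ⟨f, hf, hfQ⟩ := loc_exists_inj_fin (Q (g j)) (h _ (hgP j)).2.1
    refine ⟨f, hf, fun i => ?_⟩
    have h1 := (h _ (hgP j)).2.2 _ (hfQ i)
    have h2 := rp_sub G v (f i) h1.1
    have h3 := rp_sub G v (f i) h1.2
    unfold Rs at h2 h3
    exact ⟨(Finset.mem_filter.1 h2).2, (Finset.mem_filter.1 h3).2⟩
  have h1 := h _ (hgP 0)
  obtain ⟨f, hf, hfQ⟩ := loc_exists_inj_fin (Q (g 0)) h1.2.1
  have h2 := (h1.2.2 _ (hfQ 0)).1
  unfold Rp at h2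
  exact (Finset.mem_filter.1 h2).2.1 hz

theorem local_bound (ε K : ℝ) (hε : 0 < ε) (hK : 1 ≤ K) : ∃ δ₀ : ℕ, ∀ δ : ℕ, δ₀ ≤ δ →
    ∀ {V : Type} [Fintype V] (G : SimpleGraph V), Loc G → (∀ x, δ ≤ dg G x) →
    (∀ x, (dg G x : ℝ) ≤ K * δ) → ((Fintype.card V : ℝ) ≤ K * (δ : ℝ) ^ 4) →
    ∀ v, (Tc G v : ℝ) ≤ (1 + ε) * ((Ys G v).card : ℝ) ^ 2 := by
  classical
  obtain ⟨e, he⟩ : ∃ e : ℝ, e = min ε 1 := ⟨_, rfl⟩
  have he0 : 0 < e := by rw [he]; exact lt_min hε one_pos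
  have he1 : e ≤ 1 := by rw [he]; exact min_le_right _ _
  have heε : e ≤ ε := by rw [he]; exact min_le_left _ _
  have hK0 : 0 < K := lt_of_lt_of_le one_pos hK
  have hK2 : 1 ≤ K ^ 2 := one_le_pow₀ hK
  have hK3 : 1 ≤ K ^ 3 := one_le_pow₀ hK
  have hKK2 : K ≤ K ^ 2 := by nlinarith
  have hKK3 : K ^ 2 ≤ K ^ 3 := by nlinarith
  obtain ⟨K', hK'⟩ : ∃ K' : ℝ, K' = 16 * K ^ 3 + 8 := ⟨_, rfl⟩
  have hK'1 : 1 ≤ K' := by rw [hK']; linarith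
  obtain ⟨d0, hd0⟩ := incid (e / 4) K' (by linarith) hK'1
  obtain ⟨N, hN⟩ := exists_nat_ge (max d0 (max (6 + 6 * K ^ 2) (max (48 * K ^ 2 / e) 2)))
  refine ⟨N, ?_⟩
  intro δ hδN V _ G hG hlow hup hV v
  have hδr : ((N : ℕ) : ℝ) ≤ (δ : ℝ) := by exact_mod_cast hδN
  have hmax : max d0 (max (6 + 6 * K ^ 2) (max (48 * K ^ 2 / e) 2)) ≤ (δ : ℝ) := le_trans hN hδr
  have hd : d0 ≤ (δ : ℝ) := le_trans (le_max_left _ _) hmax
  have hd1 : 6 + 6 * K ^ 2 ≤ (δ : ℝ) := le_trans (le_trans (le_max_left _ _) (le_max_right _ _)) hmax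
  have hd2 : 48 * K ^ 2 / e ≤ (δ : ℝ) :=
    le_trans (le_trans (le_trans (le_max_left _ _) (le_max_right _ _)) (le_max_right _ _)) hmax
  have hδ0 : (0 : ℝ) < δ := by nlinarith
  have hδ1 : (1 : ℝ) ≤ δ := by nlinarith
  have hδn1 : 1 ≤ δ := by exact_mod_cast hδ1
  have hd3 : 48 * K ^ 2 ≤ e * δ := by
    rw [div_le_iff₀ he0] at hd2
    linarith
  obtain ⟨D, hD⟩ : ∃ D : ℕ, D = ⌊K * (δ : ℝ)⌋₊ := ⟨_, rfl⟩
  have hDle : (D : ℝ) ≤ K * δ := by rw [hD]; exact Nat.floor_le (by positivity)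
  have hDdg : ∀ x, dg G x ≤ D := by
    intro x
    rw [hD]
    exact Nat.le_floor (hup x)
  have hD2 : (D : ℝ) ^ 2 ≤ K ^ 2 * (δ : ℝ) ^ 2 := by
    calc (D : ℝ) ^ 2 ≤ (K * δ) ^ 2 := by gcongr
      _ = _ := by ring
  have hD3 : (D : ℝ) ^ 3 ≤ K ^ 3 * (δ : ℝ) ^ 3 := by
    calc (D : ℝ) ^ 3 ≤ (K * δ) ^ 3 := by gcongr
      _ = _ := by ring
  -- sizes
  have hsub : ∀ c, Rp G v c ⊆ Rs G v c := fun c => rp_sub G v c
  have hRsY : ∀ c, Rs G v c ⊆ Ys G v := by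
    intro c r hr
    unfold Rs at hr
    unfold Ys
    exact Finset.mem_filter.2 ⟨Finset.mem_univ _, c, (Finset.mem_filter.1 hr).2⟩
  have hloss : ∀ c, ((Rs G v c).card : ℝ) ≤ (Rp G v c).card + 3 * K ^ 2 * (δ : ℝ) ^ 2 := by
    intro c
    have h1 := rp_loss G hG hDdg v c
    have h2 : ((Rs G v c).card : ℝ) ≤ ((Rp G v c).card : ℝ) + 3 * (D : ℝ) ^ 2 := by exact_mod_cast h1
    nlinarith
  have hRs : ∀ c ∈ Cs G v, (δ : ℝ) ^ 3 - 3 * (δ : ℝ) ^ 2 ≤ (Rs G v c).card := by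
    intro c hc
    have h1 := rs_card_ge G hG hlow hc
    have h2 : ((δ : ℝ) - 1) ^ 3 ≤ (Rs G v c).card := by
      have h3 : (((δ - 1) ^ 3 : ℕ) : ℝ) ≤ (Rs G v c).card := by exact_mod_cast h1
      rwa [Nat.cast_pow, Nat.cast_sub hδn1, Nat.cast_one] at h3
    nlinarith
  have hRp : ∀ c ∈ Cs G v, (δ : ℝ) ^ 3 / 2 ≤ (Rp G v c).card := by
    intro c hc
    have h1 := hRs c hc
    have h2 := hloss c
    have h3 : (6 + 6 * K ^ 2) * (δ : ℝ) ^ 2 ≤ δ * (δ : ℝ) ^ 2 := mul_le_mul_of_nonneg_right hd1 (by positivity)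
    nlinarith
  have hRsRp : ∀ c ∈ Cs G v, ((Rs G v c).card : ℝ) ≤ (1 + e / 8) * (Rp G v c).card := by
    intro c hc
    have h1 := hloss c
    have h2 := hRp c hc
    have h3 : (48 * K ^ 2) * (δ : ℝ) ^ 2 ≤ (e * δ) * (δ : ℝ) ^ 2 := mul_le_mul_of_nonneg_right hd3 (by positivity)
    have h4 : e * ((δ : ℝ) ^ 3 / 2) ≤ e * (Rp G v c).card := mul_le_mul_of_nonneg_left h2 he0.le
    nlinarith
  have hCcard : ((Cs G v).card : ℝ) ≤ K' * (δ : ℝ) ^ 2 := by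
    have h1 : ((Cs G v).card : ℝ) ≤ (D : ℝ) ^ 2 := by exact_mod_cast cs_card_le G hDdg v
    have h2 : K ^ 2 * (δ : ℝ) ^ 2 ≤ K' * (δ : ℝ) ^ 2 := by
      apply mul_le_mul_of_nonneg_right _ (by positivity)
      rw [hK']; linarith
    linarith
  have hBcard : ∀ c ∈ Cs G v, ((Rp G v c).card : ℝ) ≤ K' * (δ : ℝ) ^ 3 := by
    intro c _
    have h0 : (Rp G v c).card ≤ D ^ 3 := le_trans (Finset.card_le_card (hsub c)) (rs_card_le G hDdg v c)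
    have h1 : ((Rp G v c).card : ℝ) ≤ (D : ℝ) ^ 3 := by exact_mod_cast h0
    have h2 : K ^ 3 * (δ : ℝ) ^ 3 ≤ K' * (δ : ℝ) ^ 3 := by
      apply mul_le_mul_of_nonneg_right _ (by positivity)
      rw [hK']; linarith
    linarith
  have hmult : ∀ r ∈ Ys G v, (((Cs G v).filter (fun c => r ∈ Rp G v c)).card : ℝ) ≤ K' * δ := by
    intro r _
    have h0 : ((Cs G v).filter (fun c => r ∈ Rp G v c)).card ≤ 2 * dg G r := by
      convert rp_mult G v r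
    have h1 : (((Cs G v).filter (fun c => r ∈ Rp G v c)).card : ℝ) ≤ 2 * (dg G r : ℝ) := by exact_mod_cast h0
    have h2 := hup r
    have h3 : (2 * K) * (δ : ℝ) ≤ K' * δ := by
      apply mul_le_mul_of_nonneg_right _ hδ0.le
      rw [hK']; linarith
    linarith
  have hYcard : ((Ys G v).card : ℝ) ≤ K' * (δ : ℝ) ^ 4 := by
    have h1 : ((Ys G v).card : ℝ) ≤ Fintype.card V := by exact_mod_cast Finset.card_le_univ _
    have h2 : K * (δ : ℝ) ^ 4 ≤ K' * (δ : ℝ) ^ 4 := by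
      apply mul_le_mul_of_nonneg_right _ (by positivity)
      rw [hK']; linarith
    linarith
  have hTlow : (δ : ℝ) ^ 8 ≤ K' * ∑ c ∈ Cs G v, ((Rp G v c).card : ℝ) ^ 2 := by
    have h1 : ((δ : ℝ) * (δ - 1)) ≤ (Cs G v).card := by
      have h0 := cs_card_ge G hG hlow v
      have h2 : ((δ * (δ - 1) : ℕ) : ℝ) ≤ (Cs G v).card := by exact_mod_cast h0
      rwa [Nat.cast_mul, Nat.cast_sub hδn1, Nat.cast_one] at h2
    have h2 : (δ : ℝ) ^ 2 / 2 ≤ (Cs G v).card := by nlinarith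
    have h3 : (Cs G v).card * ((δ : ℝ) ^ 3 / 2) ^ 2 ≤ ∑ c ∈ Cs G v, ((Rp G v c).card : ℝ) ^ 2 := by
      rw [← nsmul_eq_mul]
      apply Finset.card_nsmul_le_sum
      intro c hc
      have := hRp c hc
      gcongr
    have h4 : (δ : ℝ) ^ 8 / 8 ≤ ∑ c ∈ Cs G v, ((Rp G v c).card : ℝ) ^ 2 := by
      calc (δ : ℝ) ^ 8 / 8 = ((δ : ℝ) ^ 2 / 2) * ((δ : ℝ) ^ 3 / 2) ^ 2 := by ring
        _ ≤ (Cs G v).card * ((δ : ℝ) ^ 3 / 2) ^ 2 := mul_le_mul_of_nonneg_right h2 (by positivity)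
        _ ≤ _ := h3
    have h5 : 8 * ((δ : ℝ) ^ 8 / 8) ≤ K' * ∑ c ∈ Cs G v, ((Rp G v c).card : ℝ) ^ 2 :=
      mul_le_mul (by rw [hK']; linarith) h4 (by positivity) (by linarith)
    linarith
  have hpart : ∀ r ∈ Ys G v, ((Ys G v).filter (fun r' => r' ≠ r ∧
      4 ≤ ((Cs G v).filter (fun c => r ∈ Rp G v c ∧ r' ∈ Rp G v c)).card)).card ≤ 2 := by
    intro r _
    by_contra hcon
    rw [not_le] at hcon
    refine loc_zed_of_partners G v r _ hcon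
      (fun r' => (Cs G v).filter (fun c => r ∈ Rp G v c ∧ r' ∈ Rp G v c)) ?_
    intro r' hr'
    have h1 := (Finset.mem_filter.1 hr').2
    exact ⟨h1.1, h1.2, fun c hc => (Finset.mem_filter.1 hc).2⟩
  have main := hd0 (δ : ℝ) hd (Cs G v) (Ys G v) (Rp G v) (fun c _ => (hsub c).trans (hRsY c)) hCcard hBcard
    hmult hYcard hTlow hpart
  have hTc : (Tc G v : ℝ) ≤ (1 + e / 8) ^ 2 * ∑ c ∈ Cs G v, ((Rp G v c).card : ℝ) ^ 2 := by
    unfold Tc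
    rw [Nat.cast_sum, Finset.mul_sum]
    apply Finset.sum_le_sum
    intro c hc
    rw [Nat.cast_pow, ← mul_pow]
    have := hRsRp c hc
    gcongr
  have hfin : (1 + e / 8) ^ 2 * (1 + e / 4) ≤ 1 + ε := by
    have h2 : e ^ 2 ≤ e := by
      calc e ^ 2 = e * e := by ring
        _ ≤ e * 1 := mul_le_mul_of_nonneg_left he1 he0.le
        _ = e := mul_one e
    have h3 : e ^ 3 ≤ e := by
      calc e ^ 3 = e ^ 2 * e := by ring
        _ ≤ e * 1 := mul_le_mul h2 he1 he0.le he0.le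
        _ = e := mul_one e
    have h4 : (1 + e / 8) ^ 2 * (1 + e / 4) = 1 + e / 2 + 5 / 64 * e ^ 2 + e ^ 3 / 256 := by ring
    rw [h4]
    linarith
  calc (Tc G v : ℝ) ≤ (1 + e / 8) ^ 2 * ∑ c ∈ Cs G v, ((Rp G v c).card : ℝ) ^ 2 := hTc
    _ ≤ (1 + e / 8) ^ 2 * ((1 + e / 4) * ((Ys G v).card : ℝ) ^ 2) := mul_le_mul_of_nonneg_left main (by positivity)
    _ = ((1 + e / 8) ^ 2 * (1 + e / 4)) * ((Ys G v).card : ℝ) ^ 2 := by ring
    _ ≤ (1 + ε) * ((Ys G v).card : ℝ) ^ 2 := mul_le_mul_of_nonneg_right hfin (by positivity)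

end Pool.Agent.Helper32.TU
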