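import Mathlib

/-!
# TU-11: a small graph contained in the image of `H` (with isolated vertices added) is contained in `H`

PROOF. Let `g : Fin m -> X` be the copy of `F` in `H.map f` (`f : V ↪ X`). Let `A = {i | g i ∈ range f}`. If `i ∉ A` then `g i` is isolated in `H.map f`
(an edge of `H.map f` has both ends in the range of `f`), so `i` is isolated in `F`. Define `ψ i = f^{-1} (g i)` for `i ∈ A`, which is injective on `A`, and map
the complement of `A` injectively into `V \ ψ(A)`: possible as `card (complement of A) = m - card A <= card V - card A`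
(e.g. extend an injection: there is `ψ : Fin m -> V` injective which agrees with a given injective map on `A`; Mathlib:
`Finset.exists_equiv_extend_of_card_eq`, or `Function.Embedding.nonempty_of_card_le` for the complements
(`Nonempty ({i // i ∉ A} ↪ {x // x ∉ ψ '' A})`) and glue with `if`). `ψ` is injective and maps edges to edges: an edge `i ~ j` of `F` has
`(H.map f).Adj (g i) (g j)`, so `g i = f x`, `g j = f y`, `H.Adj x y` and `ψ i = x`, `ψ j = y`.
-/

set_option autoImplicit false

namespace Pool.Agent.Helper32.TU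

theorem remap {V X : Type} [Fintype V] {m : ℕ} (F : SimpleGraph (Fin m)) (H : SimpleGraph V) (f : V ↪ X)
    (hm : m ≤ Fintype.card V) (h : F.IsContained (H.map f)) : F.IsContained H := by
  classical
  obtain ⟨c⟩ := h
  have hadj : ∀ i j, F.Adj i j → ∃ x y, H.Adj x y ∧ f x = c i ∧ f y = c j := by
    intro i j hij
    have h1 : (H.map f).Adj (c i) (c j) := c.toHom.map_adj hij
    rw [SimpleGraph.map_adj] at h1
    exact h1
  rcases isEmpty_or_nonempty V with hV | hV
  · have hm0 : m = 0 := by
      rw [Fintype.card_eq_zero] at hm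
      omega
    subst hm0
    exact ⟨⟨⟨fun i => i.elim0, fun {i} => i.elim0⟩, fun i => i.elim0⟩⟩
  · obtain ⟨ψ, hψ⟩ : ∃ ψ : Fin m → V, ∀ i, (∃ x, f x = c i) → f (ψ i) = c i := by
      refine ⟨fun i => if h : ∃ x, f x = c i then h.choose else Classical.arbitrary V, fun i h => ?_⟩
      dsimp only
      rw [dif_pos h]
      exact h.choose_spec
    obtain ⟨s, hs⟩ : ∃ s : Finset (Fin m), ∀ i, i ∈ s ↔ ∃ x, f x = c i :=
      ⟨Finset.univ.filter (fun i => ∃ x, f x = c i), fun i => by simp⟩
    have hinj : Set.InjOn ψ s := by
      intro i hi j hj hij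
      have h1 := hψ i ((hs i).1 hi)
      have h2 := hψ j ((hs j).1 hj)
      rw [hij, h2] at h1
      exact (c.injective h1).symm
    obtain ⟨t, hst, -, ht⟩ := Finset.exists_subsuperset_card_eq (s := s.image ψ) (t := Finset.univ) (n := m)
      (Finset.subset_univ _)
      (Finset.card_image_le.trans ((Finset.card_le_univ s).trans (by simp)))
      (by rw [Finset.card_univ]; exact hm)
    obtain ⟨e, he⟩ := Finset.exists_equiv_extend_of_card_eq (by rw [Fintype.card_fin, ht]) hst hinj
    refine ⟨⟨⟨fun i => (e i : V), fun {i j} hij => ?_⟩, fun i j hij => e.injective (Subtype.ext hij)⟩⟩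
    obtain ⟨x, y, hxy, hx, hy⟩ := hadj i j hij
    have hi : i ∈ s := (hs i).2 ⟨x, hx⟩
    have hj : j ∈ s := (hs j).2 ⟨y, hy⟩
    have h1 : (e i : V) = x := by
      rw [he i hi]
      apply f.injective
      rw [hψ i ⟨x, hx⟩, hx]
    have h2 : (e j : V) = y := by
      rw [he j hj]
      apply f.injective
      rw [hψ j ⟨y, hy⟩, hy]
    change H.Adj (e i : V) (e j : V)
    rw [h1, h2]
    exact hxy

end Pool.Agent.Helper32.TU
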