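import Pool.Agent.Helper32.TU.Defs

/-!
# TU-14: counting the `r` with a given centre

Unfold: `Cen G v r c` iff there is an nb path `v - u' - c - a - b - r` (`c <> v`, `a <> u'`, `b <> c`, `r <> a`). By `hG.two` (`c <> v`), `u' = u`.
By `hG.three` (nb 3-paths from `c` to `r`: `b <> c`, `r <> a`), `a` and `b` are determined by `r`.

PROOF of `rs_card`. `Rs G v c = ((nb G c).erase u).biUnion (fun a => ((nb G a).erase c).biUnion (fun b => (nb G b).erase a))` and the unions are disjoint
(`Finset.card_biUnion`): `card ((nb G b).erase a) = dg G b - 1` as `a ∈ nb G b` (`Finset.card_erase_of_mem`). So the card is `w3 G u c`.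
(`nb G x = univ.filter (G.Adj x ·)`, `mem_nb` below is `simp [nb]`.)

PROOF of `tc_eq`. `Cs G v = (nb G v).biUnion (fun u => (nb G u).erase v)`, a disjoint union by `hG.two`, so
`∑ c ∈ Cs G v, card^2 = ∑ u ∈ nb G v, ∑ c ∈ (nb G u).erase v, (Rs G v c).card^2` (`Finset.sum_biUnion`), and `rs_card`.
-/

set_option autoImplicit false

namespace Pool.Agent.Helper32.TU

open Finset

variable {V : Type} [Fintype V]

theorem mem_nb (G : SimpleGraph V) (x y : V) : y ∈ nb G x ↔ G.Adj x y := by
  simp [nb]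

theorem rs_card (G : SimpleGraph V) (hG : Loc G) {v u c : V} (h1 : G.Adj v u) (h2 : G.Adj u c) (h3 : c ≠ v) :
    (Rs G v c).card = w3 G u c := by
  classical
  have hset : Rs G v c = ((nb G c).erase u).biUnion
      (fun a => ((nb G a).erase c).biUnion (fun b => (nb G b).erase a)) := by
    ext r
    simp only [Rs, Finset.mem_filter, Finset.mem_univ, true_and, Finset.mem_biUnion, Finset.mem_erase, mem_nb]
    constructor
    · rintro ⟨u', a, b, ⟨g1, g2, g3, g4, g5, g6, g7⟩, g8, g9⟩
      have hu : u = u' := hG.two v u u' c h3 h1 h2 g1 g2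
      subst hu
      exact ⟨a, ⟨g5, g4⟩, b, ⟨g7, g6⟩, g9, g8⟩
    · rintro ⟨a, ⟨g5, g4⟩, b, ⟨g7, g6⟩, g9, g8⟩
      exact ⟨u, a, b, ⟨h1, h2, h3, g4, g5, g6, g7⟩, g8, g9⟩
  rw [hset, Finset.card_biUnion]
  · unfold w3
    apply Finset.sum_congr rfl
    intro a ha
    rw [Finset.mem_erase, mem_nb] at ha
    rw [Finset.card_biUnion]
    · apply Finset.sum_congr rfl
      intro b hb
      rw [Finset.mem_erase, mem_nb] at hb
      rw [Finset.card_erase_of_mem ((mem_nb G b a).2 hb.2.symm)]
      rfl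
    · intro b hb b' hb' hne
      rw [Function.onFun, Finset.disjoint_left]
      intro r hr hr'
      rw [Finset.mem_coe, Finset.mem_erase, mem_nb] at hb hb'
      rw [Finset.mem_erase, mem_nb] at hr hr'
      exact hne (hG.three c a b r a b' ha.2 hb.2 hb.1 hr.2 hr.1 ha.2 hb'.2 hb'.1 hr'.2 hr'.1).2
  · intro a ha a' ha' hne
    rw [Function.onFun, Finset.disjoint_left]
    intro r hr hr'
    rw [Finset.mem_biUnion] at hr hr'
    obtain ⟨b, hb, hr⟩ := hr
    obtain ⟨b', hb', hr'⟩ := hr'
    rw [Finset.mem_coe, Finset.mem_erase, mem_nb] at ha ha'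
    rw [Finset.mem_erase, mem_nb] at hb hb' hr hr'
    exact hne (hG.three c a b r a' b' ha.2 hb.2 hb.1 hr.2 hr.1 ha'.2 hb'.2 hb'.1 hr'.2 hr'.1).1

theorem tc_eq (G : SimpleGraph V) (hG : Loc G) (v : V) : Tc G v = t2 G v := by
  classical
  have hset : Cs G v = (nb G v).biUnion (fun u => (nb G u).erase v) := by
    ext c
    simp only [Cs, Finset.mem_filter, Finset.mem_univ, true_and, Finset.mem_biUnion, Finset.mem_erase, mem_nb]
    constructor
    · rintro ⟨u, g1, g2, g3⟩
      exact ⟨u, g1, g3, g2⟩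
    · rintro ⟨u, g1, g3, g2⟩
      exact ⟨u, g1, g2, g3⟩
  unfold Tc t2
  rw [hset, Finset.sum_biUnion]
  · apply Finset.sum_congr rfl
    intro u hu
    rw [mem_nb] at hu
    apply Finset.sum_congr rfl
    intro c hc
    rw [Finset.mem_erase, mem_nb] at hc
    rw [rs_card G hG hu hc.2 hc.1]
  · intro u hu u' hu' hne
    rw [Function.onFun, Finset.disjoint_left]
    intro c hc hc'
    rw [Finset.mem_erase, mem_nb] at hc hc'
    rw [Finset.mem_coe, mem_nb] at hu hu'
    exact hne (hG.two v u u' c hc.1 hu hc.2 hu' hc'.2)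

end Pool.Agent.Helper32.TU
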