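import Pool.Agent.Helper32.TU.RsCard

/-!
# TU-23: stationarity of the non-backtracking walk

`E g = ∑ v, ∑ u ∈ nb v, g v u` (sum over directed edges).
`stat_zero`: `∑ v, ∑ u ∈ nb v, f u = ∑ u, dg u * f u` (exchange sums, symmetry of `Adj`).
`stat_step`: `∑ v, ∑ u ∈ nb v, (1 / (dg u - 1)) ∑ c ∈ (nb u).erase v, g u c = ∑ u, ∑ c ∈ nb u, g u c`.
PROOF: exchange: the left side is `∑ u, ∑ v ∈ nb u, ∑ c ∈ (nb u).erase v, g u c / (dg u - 1) = ∑ u, ∑ c ∈ nb u, ∑ v ∈ (nb u).erase c, g u c / (dg u - 1)`, and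
`card ((nb u).erase c) = dg u - 1` (real `dg u - 1 >= 1 > 0`), so the inner sum is `g u c`.
-/

set_option autoImplicit false

namespace Pool.Agent.Helper32.TU

open Finset

variable {V : Type} [Fintype V]

/-- exchanging the two ends of the directed edges -/
private lemma st_swap (G : SimpleGraph V) (f : V → V → ℝ) :
    ∑ v, ∑ u ∈ nb G v, f v u = ∑ u, ∑ v ∈ nb G u, f v u := by
  refine Finset.sum_comm' fun v u => ?_
  simp only [mem_univ, true_and, and_true, mem_nb]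
  exact G.adj_comm v u

theorem stat_zero (G : SimpleGraph V) (f : V → ℝ) : ∑ v, ∑ u ∈ nb G v, f u = ∑ u, (dg G u : ℝ) * f u := by
  rw [st_swap G fun _ u => f u]
  refine Finset.sum_congr rfl fun u _ => ?_
  rw [Finset.sum_const, nsmul_eq_mul]
  rfl

open scoped Classical in
theorem stat_step (G : SimpleGraph V) (h : ∀ x, 2 ≤ dg G x) (g : V → V → ℝ) :
    ∑ v, ∑ u ∈ nb G v, ((dg G u : ℝ) - 1)⁻¹ * ∑ c ∈ (nb G u).erase v, g u c = ∑ u, ∑ c ∈ nb G u, g u c := by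
  rw [st_swap G fun v u => ((dg G u : ℝ) - 1)⁻¹ * ∑ c ∈ (nb G u).erase v, g u c]
  refine Finset.sum_congr rfl fun u _ => ?_
  rw [← Finset.mul_sum]
  have h1 : ∑ v ∈ nb G u, ∑ c ∈ (nb G u).erase v, g u c =
      ∑ c ∈ nb G u, ∑ v ∈ (nb G u).erase c, g u c := by
    refine Finset.sum_comm' fun v c => ?_
    simp only [Finset.mem_erase]
    constructor
    · rintro ⟨a, b, c⟩
      exact ⟨⟨Ne.symm b, a⟩, c⟩
    · rintro ⟨⟨a, b⟩, c⟩
      exact ⟨b, Ne.symm a, c⟩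
  have h2 : ∑ c ∈ nb G u, ∑ v ∈ (nb G u).erase c, g u c =
      ((dg G u : ℝ) - 1) * ∑ c ∈ nb G u, g u c := by
    rw [Finset.mul_sum]
    refine Finset.sum_congr rfl fun c hc => ?_
    rw [Finset.sum_const, nsmul_eq_mul, Finset.card_erase_of_mem hc]
    have h3 := h u
    have h4 : (((nb G u).card - 1 : ℕ) : ℝ) = (dg G u : ℝ) - 1 := by
      rw [Nat.cast_sub (by
        have h5 : 2 ≤ (nb G u).card := h3
        omega)]
      simp [dg]
    rw [h4]
  have h6 : (2 : ℝ) ≤ dg G u := by exact_mod_cast h u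
  have h7 : (dg G u : ℝ) - 1 ≠ 0 := by
    intro h8
    linarith
  rw [h1, h2, ← mul_assoc, inv_mul_cancel₀ h7, one_mul]

end Pool.Agent.Helper32.TU
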