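import Pool.Agent.Helper32.TU.Defs

/-!
# TU-08: the patterns Cen, Bad, Zed, Heavy have bounded witnesses

`EmbOn G H U φ`: `φ` maps edges of `G` inside `U` to edges of `H` and is injective on `U`.
For each pattern: a finite set `S` of vertices of `G` (bounded size) such that `φ` transports the pattern whenever `S ⊆ U` and `EmbOn G H U φ`.

PROOFS. `emb_is4`: all the five vertices lie in `U`: edges go to edges, inequalities to inequalities by injectivity on `U`.
`wit_cen`: `S = {v, u, c, a, b, r}` (`card_le_six`: use `Finset.card_le_six` or `Finset.card_insert_le` repeatedly; `classical`).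
`wit_bad`: from `f : Fin 4 -> V` and the witnesses `S i`, `S' i` of `Cen G v r (f i)`, `Cen G v r' (f i)` (each `<= 6`):
`S = univ.biUnion (fun i => S i ∪ S' i)`, card `<= 4 * 12 = 48` (`Finset.card_biUnion_le`, `Finset.card_union_le`). Each `S i` must contain
`f i`: so `wit_cen` also states `v, r, c ∈ S`. New `f' = φ ∘ f`: injective because `φ` is injective on `U` and `f i ∈ S i ⊆ U`.
`wit_zed`: `g : Fin 3 -> V`, witnesses of `Bad G v r (g j)`: `S = univ.biUnion ..`, card `<= 3 * 48 = 144`; `g j ∈ S`, `r ∈ S` by `wit_bad`;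
`φ (g j) <> φ r` by injectivity.
`wit_heavy`: `f : Fin 3 -> V × V × V`; `S = univ.biUnion (fun i => {v, b, (f i).1, (f i).2.1, (f i).2.2})`, card `<= 15`;
`f' i = (φ (f i).1, φ (f i).2.1, φ (f i).2.2)` is injective: equal images give equal components by injectivity on `U`.
-/

set_option autoImplicit false

namespace Pool.Agent.Helper32.TU

theorem emb_is4 {V X : Type} {G : SimpleGraph V} {H : SimpleGraph X} {U : Finset V} {φ : V → X}
    (e : EmbOn G H U φ) {v b u c a : V} (h : Is4 G v b u c a) (hv : v ∈ U) (hb : b ∈ U) (hu : u ∈ U)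
    (hc : c ∈ U) (ha : a ∈ U) : Is4 H (φ v) (φ b) (φ u) (φ c) (φ a) := by
  obtain ⟨h1, h2, h3, h4, h5, h6, h7⟩ := h
  refine ⟨e.1 _ hv _ hu h1, e.1 _ hu _ hc h2, ?_, e.1 _ hc _ ha h4, ?_, e.1 _ ha _ hb h6, ?_⟩
  · exact fun q => h3 (e.2 hc hv q)
  · exact fun q => h5 (e.2 ha hu q)
  · exact fun q => h7 (e.2 hb hc q)

theorem wit_cen {V : Type} {G : SimpleGraph V} {v r c : V} (h : Cen G v r c) :
    ∃ S : Finset V, S.card ≤ 6 ∧ v ∈ S ∧ r ∈ S ∧ c ∈ S ∧
      ∀ (X : Type) (H : SimpleGraph X) (U : Finset V) (φ : V → X), S ⊆ U → EmbOn G H U φ →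
        Cen H (φ v) (φ r) (φ c) := by
  classical
  obtain ⟨u, a, b, h1, h2, h3⟩ := h
  refine ⟨{v, u, c, a, b, r}, Finset.card_le_six, by simp, by simp, by simp, ?_⟩
  intro X H U φ hS e
  have hv : v ∈ U := hS (by simp)
  have hu : u ∈ U := hS (by simp)
  have hc : c ∈ U := hS (by simp)
  have ha : a ∈ U := hS (by simp)
  have hb : b ∈ U := hS (by simp)
  have hr : r ∈ U := hS (by simp)
  exact ⟨φ u, φ a, φ b, emb_is4 e h1 hv hb hu hc ha, e.1 _ hb _ hr h2, fun q => h3 (e.2 hr ha q)⟩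

theorem wit_bad {V : Type} {G : SimpleGraph V} {v r r' : V} (h : Bad G v r r') :
    ∃ S : Finset V, S.card ≤ 48 ∧ v ∈ S ∧ r ∈ S ∧ r' ∈ S ∧
      ∀ (X : Type) (H : SimpleGraph X) (U : Finset V) (φ : V → X), S ⊆ U → EmbOn G H U φ →
        Bad H (φ v) (φ r) (φ r') := by
  classical
  obtain ⟨f, hf, hc⟩ := h
  choose S hS1 hS2 hS3 hS4 hS5 using fun i => wit_cen (hc i).1
  choose T hT1 hT2 hT3 hT4 hT5 using fun i => wit_cen (hc i).2
  have hsub1 : ∀ i, S i ⊆ Finset.univ.biUnion (fun i : Fin 4 => S i ∪ T i) := fun i x hx =>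
    Finset.mem_biUnion.2 ⟨i, Finset.mem_univ _, Finset.mem_union_left _ hx⟩
  have hsub2 : ∀ i, T i ⊆ Finset.univ.biUnion (fun i : Fin 4 => S i ∪ T i) := fun i x hx =>
    Finset.mem_biUnion.2 ⟨i, Finset.mem_univ _, Finset.mem_union_right _ hx⟩
  refine ⟨Finset.univ.biUnion (fun i : Fin 4 => S i ∪ T i), ?_, hsub1 0 (hS2 0), hsub1 0 (hS3 0),
    hsub2 0 (hT3 0), ?_⟩
  · refine Finset.card_biUnion_le.trans ?_
    refine (Finset.sum_le_card_nsmul _ _ 12 fun i _ => ?_).trans (by simp)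
    have := Finset.card_union_le (S i) (T i)
    have h1 := hS1 i
    have h2 := hT1 i
    omega
  · intro X H U φ hU e
    refine ⟨fun i => φ (f i), ?_, fun i => ⟨hS5 i X H U φ ((hsub1 i).trans hU) e,
      hT5 i X H U φ ((hsub2 i).trans hU) e⟩⟩
    intro i j hij
    exact hf (e.2 (hU (hsub1 i (hS4 i))) (hU (hsub1 j (hS4 j))) hij)

theorem wit_zed {V : Type} {G : SimpleGraph V} {v r : V} (h : Zed G v r) :
    ∃ S : Finset V, S.card ≤ 144 ∧
      ∀ (X : Type) (H : SimpleGraph X) (U : Finset V) (φ : V → X), S ⊆ U → EmbOn G H U φ →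
        Zed H (φ v) (φ r) := by
  classical
  obtain ⟨g, hg, hc⟩ := h
  choose S hS1 hS2 hS3 hS4 hS5 using fun i => wit_bad (hc i).2
  have hsub : ∀ i, S i ⊆ Finset.univ.biUnion (fun i : Fin 3 => S i) := fun i x hx =>
    Finset.mem_biUnion.2 ⟨i, Finset.mem_univ _, hx⟩
  refine ⟨Finset.univ.biUnion (fun i : Fin 3 => S i), ?_, ?_⟩
  · refine Finset.card_biUnion_le.trans ?_
    exact (Finset.sum_le_card_nsmul _ _ 48 fun i _ => hS1 i).trans (by simp)
  · intro X H U φ hU e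
    refine ⟨fun i => φ (g i), ?_, fun i => ⟨?_, hS5 i X H U φ ((hsub i).trans hU) e⟩⟩
    · intro i j hij
      exact hg (e.2 (hU (hsub i (hS4 i))) (hU (hsub j (hS4 j))) hij)
    · intro q
      exact (hc i).1 (e.2 (hU (hsub i (hS4 i))) (hU (hsub i (hS3 i))) q)

theorem wit_heavy {V : Type} {G : SimpleGraph V} {v b : V} (h : Heavy G v b) :
    ∃ S : Finset V, S.card ≤ 15 ∧
      ∀ (X : Type) (H : SimpleGraph X) (U : Finset V) (φ : V → X), S ⊆ U → EmbOn G H U φ →
        Heavy H (φ v) (φ b) := by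
  classical
  obtain ⟨f, hf, hc⟩ := h
  have hsub : ∀ i, ({v, b, (f i).1, (f i).2.1, (f i).2.2} : Finset V) ⊆
      Finset.univ.biUnion (fun i : Fin 3 => ({v, b, (f i).1, (f i).2.1, (f i).2.2} : Finset V)) :=
    fun i x hx => Finset.mem_biUnion.2 ⟨i, Finset.mem_univ _, hx⟩
  refine ⟨Finset.univ.biUnion (fun i : Fin 3 => ({v, b, (f i).1, (f i).2.1, (f i).2.2} : Finset V)),
    ?_, ?_⟩
  · refine Finset.card_biUnion_le.trans ?_
    exact (Finset.sum_le_card_nsmul _ _ 5 fun i _ => Finset.card_le_five).trans (by simp)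
  · intro X H U φ hU e
    have hv : v ∈ U := hU (hsub 0 (by simp))
    have hb : b ∈ U := hU (hsub 0 (by simp))
    have h1 : ∀ i, (f i).1 ∈ U := fun i => hU (hsub i (by simp))
    have h2 : ∀ i, (f i).2.1 ∈ U := fun i => hU (hsub i (by simp))
    have h3 : ∀ i, (f i).2.2 ∈ U := fun i => hU (hsub i (by simp))
    refine ⟨fun i => (φ (f i).1, φ (f i).2.1, φ (f i).2.2), ?_, fun i =>
      emb_is4 e (hc i) hv hb (h1 i) (h2 i) (h3 i)⟩
    intro i j hij
    simp only [Prod.mk.injEq] at hij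
    apply hf
    refine Prod.ext (e.2 (h1 i) (h1 j) hij.1) (Prod.ext (e.2 (h2 i) (h2 j) hij.2.1)
      (e.2 (h3 i) (h3 j) hij.2.2))

end Pool.Agent.Helper32.TU
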